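import Mathlib
import Pool.Agent.Lib.Pf72953c.RelGood
import Pool.Agent.Lib.Pf72953c.RegOf
import Pool.Agent.Lib.Pf72953u.Main
import Pool.Agent.Lib.Pf72953r.FDefs

/-!
One fibre power: definitions.

`B ⊆ E ⊆ L`, `L/E` finite, `M` a smooth complete variety with function field `Y ⊆ L`, `Z = B·Y`, `P/Z` finite, `P ⊆ L`, `s` a
transcendence basis of `L/Z`, `G (ds)^e` an `e`-canonical form of `L/Z`; `A` a line bundle on `M`.
-/

set_option autoImplicit false
set_option linter.style.haveILetI false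

open scoped WithZero
open Pf72953 Pf72953.Mov Pf72953.Up Pf72953.Can

namespace Pf72953.Pow

section adj

variable {k Y : Type*} [Field k] [Field Y] [Algebra k Y]

/-- `κ(e K_M + A) ≥ c` -/
def AdjKodairaGE (M : SmoothModel k Y) (A : LineBundle M) (e c : ℕ) : Prop :=
  ∃ m : ℕ, 1 ≤ m ∧ ∃ ω₀ ∈ pluriSections M (fun _ : Unit => A) (e * m) (fun _ => m), ω₀ ≠ 0 ∧
    ∃ f : Fin c → Y, AlgebraicIndependent k f ∧
      ∀ i, f i • ω₀ ∈ pluriSections M (fun _ : Unit => A) (e * m) (fun _ => m)

/-- the Iitaka dimension of `e K_M + A` -/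
noncomputable def adjKodairaDim (M : SmoothModel k Y) (A : LineBundle M) (e : ℕ) : WithBot ℕ∞ :=
  ⨆ (c : ℕ) (_ : AdjKodairaGE M A e c), ((c : ℕ∞) : WithBot ℕ∞)

end adj

section sec

variable {k Y : Type*} [Field k] [CharZero k] [Field Y] [Algebra k Y]

/-- A section `∑ c_l s_l` over `B` of `d K_M + a A`: the `s_l` are coefficients (with respect to `(dy)^d`) of linearly
independent sections of `d K_M + a A`, the `c_l ∈ P` are algebraic over `B`. -/
structure HSec (M : SmoothModel k Y) (A : LineBundle M) (y : Fin (dimension k Y) → Y) (d a : ℕ)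
    (B P : Type*) [Field B] [Field P] [Algebra B P] [Algebra Y P] where
  /-- the number of the sections -/
  r : ℕ
  /-- the sections -/
  s : Fin r → Y
  /-- the coefficients -/
  c : Fin r → P
  s_mem : ∀ l, s l ∈ CoefSec M (fun _ : Unit => A) y d (fun _ => a)
  s_indep : LinearIndependent k s
  c_alg : ∀ l, IsAlgebraic B (c l)

variable {M : SmoothModel k Y} {A : LineBundle M} {y : Fin (dimension k Y) → Y} {d a : ℕ}
  {B P : Type*} [Field B] [Field P] [Algebra B P] [Algebra Y P]

/-- the section `∑ c_l s_l` -/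
def HSec.sec (T : HSec M A y d a B P) : P := ∑ l, T.c l * algebraMap Y P (T.s l)

/-- the cost of passing from a coefficient to the section -/
def HCost (T : HSec M A y d a B P) [Algebra k B] [Algebra k P] (C : ℕ) : Prop :=
  ∀ (i : M.I) (cB : Fin (dimension k B) → B) (_ : IsTranscendenceBasis k cB)
    (_ : IsTranscendenceBasis k (zfam (L := P) M i cB)) (w : Valuation P ℤᵐ⁰)
    (_ : ∀ f ∈ M.A i, w (algebraMap Y P f) ≤ 1)
    (c : Fin (dimension k B) ⊕ Fin (dimension k Y) → P) (hc : LogBasis k w c) (l : Fin T.r),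
    relvol M i cB hc ^ C * (w (T.c l) * w (algebraMap Y P (A.gen i)) ^ a) ≤
      w T.sec * w (algebraMap Y P (jac (M.tb i) y)) ^ d

/-- forms of degree `q` in the coefficients -/
def NumH (T : HSec M A y d a B P) (q : ℕ) : Set P :=
  {ν | ∀ (w : Valuation P ℤᵐ⁰) (X : ℤᵐ⁰), (∀ l, X * w (T.c l) ≤ 1) → X ^ q * w ν ≤ 1}

/-- the local bounds, at the prime divisors of `M` over `κ`, for the sections of `d K_M + a A` over `κ` (`P = κ·Y`) -/
def LocH (κ : Type*) {P : Type*} [Field κ] [CharZero κ] [Field P] [Algebra κ P] [Algebra Y P]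
    (A : LineBundle M) (y : Fin (dimension k Y) → Y) (d a : ℕ) : Set P :=
  {F | ∀ w : Valuation P ℤᵐ⁰, IsDivisorial κ P w → ∀ i,
    RegBasis κ w (fun b => algebraMap Y P (M.x i b)) →
    (∀ f ∈ bc κ P (M.A i), w f ≤ 1) →
    w (F * algebraMap Y P (jac (M.tb i) y) ^ d) ≤ w (algebraMap Y P (A.gen i)) ^ a}

end sec

section norms

/-- `h G^a (dz)^d (ds)^{e a}`, `z` a transcendence basis of `P/k`, has at the valuations `w` of `L` over divisorial
valuations of `E` which are nontrivial on `P` logarithmic norm at most `w t ^ d`, `t` a uniformizer of `E`. -/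
def PowBd (k E : Type*) {P L ι : Type*} [Field k] [CharZero k] [Field E] [Field P] [Field L]
    [Algebra k E] [Algebra k P] [Algebra k L] [Algebra E L] [Algebra P L] [Fintype ι]
    [DecidableEq ι] {r : ℕ} (s : Fin r → L) (e : ℕ) (G : L) (z : ι → P) (a d : ℕ) (h : P) :
    Prop :=
  ∀ w : Valuation L ℤᵐ⁰, IsDivisorial k E (w.comap (algebraMap E L)) →
    ∀ t : E, IsUnif (w.comap (algebraMap E L)) t →
    (∃ p : P, p ≠ 0 ∧ w (algebraMap P L p) ≠ 1) →
    ∀ (cP : ι → P) (hcP : LogBasis k (w.comap (algebraMap P L)) cP) (c : ι ⊕ Fin r → L)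
      (hc : LogBasis k w c),
      w (algebraMap P L h) * (w G * relS cP hc s ^ e) ^ a *
        (w (algebraMap P L (jac hcP.tb z)) * ∏ j, w (algebraMap P L (cP j))) ^ d ≤
        w (algebraMap E L t) ^ d

/-- `V (dx)^N (dζ)^D` has at the valuations `w` of `L` over divisorial valuations of `E` logarithmic norm at most `w t ^ N` if
`w` is not trivial on `B`, and at most `w t ^ D` if `w` is trivial on `B`, `t` a uniformizer of `E`. -/
def HGood (k B E : Type*) {L κ : Type*} [Field k] [CharZero k] [Field B] [Field E] [Field L]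
    [Algebra k B] [Algebra k E] [Algebra k L] [Algebra B L] [Algebra E L]
    [Fintype κ] [DecidableEq κ] (x : Fin (dimension k B) → B) (ζ : κ → L) (N D : ℕ) : Set L :=
  {V | ∀ w : Valuation L ℤᵐ⁰, IsDivisorial k E (w.comap (algebraMap E L)) →
    ∀ t : E, IsUnif (w.comap (algebraMap E L)) t →
    ∀ (cB : Fin (dimension k B) → B) (c : Fin (dimension k B) ⊕ κ → L) (hc : LogBasis k w c)
      (hcB : LogBasis k (w.comap (algebraMap B L)) cB),
      ((∃ b : B, b ≠ 0 ∧ w (algebraMap B L b) ≠ 1) →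
        w V * (w (algebraMap B L (jac hcB.tb x)) * ∏ j, w (algebraMap B L (cB j))) ^ N *
          relS cB hc ζ ^ D ≤ w (algebraMap E L t) ^ N) ∧
      ((∀ b : B, b ≠ 0 → w (algebraMap B L b) = 1) →
        w V * relS cB hc ζ ^ D ≤ w (algebraMap E L t) ^ D)}

end norms

end Pf72953.Pow
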