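import Mathlib
import Pool.Agent.Lib.Pf72953c.ConstC
import Pool.Agent.Lib.Pf72953c.RegJac
import Pool.Agent.Lib.Pf72953m.Over
import Pool.Agent.Lib.Pf72953f.Res
import Pool.Agent.Lib.Pf72953p.Defs

/-!
MODULE Pf72953p.RegOnP: `G ∈ WReg Z s e` is a regular form on the generic fibre (`RegOn`); transcendence bases.

PROOF of `regOn_of_wreg`.  Let `w` be divisorial on `L/k`, trivial on `Z`, `dd` regular derivations over `Z`.  `w` is divisorial over `Z` (`IsDivisorial.over`, Pf72953m/Over.lean, or `Fib.IsDivisorial_over`); `exists_adapted` over `Z` gives `(c, t)` with `t` a uniformizer,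
`hreg = hc.regBasis .. ht : RegBasis Z w c` (`c : Fin r → L`, `card_eq_of_isTranscendenceBasis hs`).  The matrix `(dd a (s b))` is the product of `(dd a (c j))` and `(pd hreg.tb j (s b))` (`der_eq_sum`), so its determinant is `det (dd a (c j)) * jac hreg.tb s`
(`Matrix.det_mul`, `jac_eq_det`), and `w (det (dd a (c j))) ≤ 1` since the entries have value `≤ 1` (`hreg.le_one`; expand the determinant: `Matrix.det_apply`, `Valuation.map_sum_le`, or a lemma on determinants with entries in the valuation ring, see `det_le_prod`, Pf72953c/BrkB.lean).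
So `w (G * det ^ e) ≤ w G * w (jac hreg.tb s) ^ e ≤ 1`.
PROOF of `tb_alg`.  `s` is algebraically independent over `V` in `L` (`AlgebraicIndependent.map'` along `E → L`), hence over `P` (`AlgebraicIndependent.extendScalars`, `P/V` algebraic) and over `Z` (`restrictScalars`, `Z → P` injective); use `isTranscendenceBasis_of_card`:
`dimension k V = dimension k P = dimension k Z` (algebraic extensions: a transcendence basis of `V/k` is one of `P/k`, `IsTranscendenceBasis.algebraMap_comp`), `dimension k E = dimension k L`, and `Fib.ResAux.dim_add k K L : dimension k K + dimension K L = dimension k L`.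
-/

set_option autoImplicit false
set_option linter.style.haveILetI false
set_option linter.unusedSectionVars false

open scoped WithZero
open Pf72953 Pf72953.Can

namespace Pf72953.Pow

theorem regOn_of_wreg {k Z L : Type*} [Field k] [CharZero k] [Field Z] [CharZero Z] [Field L]
    [Algebra k Z] [Algebra k L] [Algebra Z L] [IsScalarTower k Z L] [Algebra.EssFiniteType k Z]
    [Algebra.EssFiniteType k L] {r : ℕ} {s : Fin r → L} (hs : IsTranscendenceBasis Z s) {e : ℕ}
    {G : L} (hG : G ∈ WReg Z s e) : RegOn k Z s e G := by
  haveI : Algebra.EssFiniteType Z L := Algebra.EssFiniteType.of_comp k Z L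
  intro w hw htriv d hd
  have hwZ : IsDivisorial Z L w := Mov.IsDivisorial.over hw htriv
  have hdim : Fintype.card (Fin r) = dimension Z L := card_eq_of_isTranscendenceBasis hs
  obtain ⟨c, t, ht, hc⟩ := hwZ.exists_adapted hdim
  have hreg := hc.regBasis hdim ht
  have h0 := det_regDer_le hreg d hd s
  rw [map_mul, map_pow]
  exact (mul_le_mul' le_rfl (pow_le_pow_left' h0 e)).trans (hG w hwZ c hreg)

namespace RegOnPAux

theorem dim_zero (V P : Type*) [Field V] [Field P] [Algebra V P] [Algebra.IsAlgebraic V P] :
    dimension V P = 0 := by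
  have h : Algebra.trdeg V P = 0 := trdeg_eq_zero
  rw [dimension, h]
  simp

end RegOnPAux

theorem tb_alg {k V E Z P L : Type*} [Field k] [Field V] [Field E] [Field Z] [Field P] [Field L]
    [Algebra k V] [Algebra k E] [Algebra k Z] [Algebra k P] [Algebra k L] [Algebra V E]
    [Algebra V P] [Algebra V L] [Algebra E L] [Algebra Z P] [Algebra Z L] [Algebra P L]
    [IsScalarTower k V E] [IsScalarTower k V P] [IsScalarTower k V L] [IsScalarTower k E L]
    [IsScalarTower k Z P] [IsScalarTower k Z L] [IsScalarTower k P L] [IsScalarTower V E L]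
    [IsScalarTower V P L] [IsScalarTower Z P L] [Algebra.EssFiniteType k V]
    [Algebra.EssFiniteType k E] [Algebra.EssFiniteType k Z] [FiniteDimensional E L]
    [FiniteDimensional Z P] [Algebra.IsAlgebraic V P] {r : ℕ} {s : Fin r → E}
    (hs : IsTranscendenceBasis V s) :
    IsTranscendenceBasis P (fun j => algebraMap E L (s j)) ∧
      IsTranscendenceBasis Z (fun j => algebraMap E L (s j)) := by
  haveI : Algebra.EssFiniteType k L := Algebra.EssFiniteType.comp k E L
  haveI : Algebra.EssFiniteType k P := Algebra.EssFiniteType.comp k Z P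
  haveI : Algebra.EssFiniteType P L := Algebra.EssFiniteType.of_comp k P L
  haveI : Algebra.EssFiniteType Z L := Algebra.EssFiniteType.of_comp k Z L
  have h1 := Fib.ResAux.dim_add k V E
  have h2 := Fib.ResAux.dim_add k E L
  have h3 := Fib.ResAux.dim_add k P L
  have h4 := Fib.ResAux.dim_add k V P
  have h5 := Fib.ResAux.dim_add k Z P
  have h6 := Fib.ResAux.dim_add k Z L
  rw [RegOnPAux.dim_zero E L] at h2
  rw [RegOnPAux.dim_zero V P] at h4
  rw [RegOnPAux.dim_zero Z P] at h5
  have h7 := card_eq_of_isTranscendenceBasis hs
  rw [Fintype.card_fin] at h7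
  have hV : AlgebraicIndependent V (fun j => algebraMap E L (s j)) :=
    hs.1.map' (f := IsScalarTower.toAlgHom V E L) (algebraMap E L).injective
  have hP : AlgebraicIndependent P (fun j => algebraMap E L (s j)) := hV.extendScalars P
  have hZ : AlgebraicIndependent Z (fun j => algebraMap E L (s j)) :=
    hP.restrictScalars (algebraMap Z P).injective
  exact ⟨isTranscendenceBasis_of_card (by rw [Fintype.card_fin]; omega) hP,
    isTranscendenceBasis_of_card (by rw [Fintype.card_fin]; omega) hZ⟩

end Pf72953.Pow
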