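import Mathlib
import Pool.Agent.Lib.Pf72953c.Defs
import Pool.Agent.Lib.Pf72953p.Defs

/-!
Forms with logarithmic poles on covers of products of projective spaces and of elliptic surfaces: definitions.

`Z ⊆ P ⊆ L ⊆ N`, `N/L` finite, `s` a transcendence basis of `L/Z`, `G (ds)^e` an `e`-canonical form of `L/Z`.
-/

set_option autoImplicit false
set_option linter.style.haveILetI false

open scoped WithZero
open Pf72953 Pf72953.Can

namespace Pf72953.Pow

section logForm

/-- For some `n ≥ 1` and some nonzero `T ∈ P`, the form `T (G (ds₁ ∧ ⋯ ∧ ds_r)^e)^n` of `L/Z` has at most logarithmic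
poles at all divisorial valuations of `L/k`. -/
def LogForm (k Z P : Type*) {L : Type*} [Field k] [Field Z] [Field P] [Field L] [Algebra k L]
    [Algebra Z L] [Algebra P L] {r : ℕ} (s : Fin r → L) (e : ℕ) (G : L) : Prop :=
  ∃ (n : ℕ) (T : P), 1 ≤ n ∧ T ≠ 0 ∧ ∀ w : Valuation L ℤᵐ⁰, IsDivisorial k L w →
    LogAt Z w s (e * n) (algebraMap P L T * G ^ n)

end logForm

section blocks

/-- The form `(du₁ ∧ ⋯ ∧ duₙ)^e / Φ`. -/
structure Block (N : Type*) where
  /-- the number of the coordinates -/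
  n : ℕ
  /-- the coordinates -/
  u : Fin n → N
  /-- the denominator -/
  Φ : N

/-- `Φ` is the product of the linear forms (evaluated at the point `(1, u)` of `ℙⁿ`) of `e` bases of linear forms with
coefficients algebraic over `Z`. -/
def Block.IsArrangement {N : Type*} [Field N] (X : Block N) (Z : Type*) [Field Z] [Algebra Z N]
    (e : ℕ) : Prop :=
  ∃ H : Fin e → Matrix (Fin (X.n + 1)) (Fin (X.n + 1)) N,
    (∀ c i j, IsAlgebraic Z (H c i j)) ∧ (∀ c, (H c).det ≠ 0) ∧
      X.Φ = ∏ c, ∏ i, (H c i 0 + ∑ j : Fin X.n, H c i j.succ * X.u j)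

/-- The coordinates are `t, x` and `Φ = y ^ e` with `y² = x³ + A(t) x + B(t)`: an elliptic surface over `ℙ¹` with the
form `dt ∧ dx / y`; `A` of degree at most `8`, `B` of degree at most `12` are polynomials with coefficients
algebraic over `Z`, which split, and no point of `ℙ¹` is a zero of multiplicity greater than `4` of `A` and greater
than `6` of `B`. -/
def Block.IsWeierstrass {N : Type*} [Field N] (X : Block N) (Z : Type*) [Field Z] [Algebra Z N]
    (e : ℕ) : Prop :=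
  ∃ (t x y : N) (A B : Polynomial N), X = ⟨2, ![t, x], y ^ e⟩ ∧
    y ^ 2 = x ^ 3 + A.eval t * x + B.eval t ∧
    (∀ i, IsAlgebraic Z (A.coeff i)) ∧ (∀ i, IsAlgebraic Z (B.coeff i)) ∧
    A.natDegree ≤ 8 ∧ B.natDegree ≤ 12 ∧ A.Splits ∧ B.Splits ∧
    (4 ≤ A.natDegree ∨ 6 ≤ B.natDegree) ∧
    ∀ α : N, ¬ ((Polynomial.X - Polynomial.C α) ^ 5 ∣ A ∧ (Polynomial.X - Polynomial.C α) ^ 7 ∣ B)

/-- the coordinates of the blocks -/
def coords {N : Type*} {q r : ℕ} (X : Fin q → Block N) (eq : Fin r ≃ Σ i, Fin (X i).n) :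
    Fin r → N :=
  fun b => (X (eq b).1).u (eq b).2

/-- In `N ⊇ L` the form `G (ds₁ ∧ ⋯ ∧ ds_r)^e` is, up to a factor algebraic over `Z`, the product of the forms
`(du)^e / Φ`, `Φ ≠ 0`, of the blocks. -/
def IsProduct (Z : Type*) {L N : Type*} [Field Z] [Field L] [Field N] [Algebra Z N] [Algebra L N]
    {q r : ℕ} (X : Fin q → Block N) (eq : Fin r ≃ Σ i, Fin (X i).n) (s : Fin r → L) (e : ℕ)
    (G : L) : Prop :=
  (∀ i, (X i).Φ ≠ 0) ∧ ∃ κ : N, IsAlgebraic Z κ ∧ κ ≠ 0 ∧ ∀ D : Fin r → Derivation Z N N,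
    κ * Matrix.det (Matrix.of fun a b => D a (coords X eq b)) ^ e =
      (∏ i, (X i).Φ) * algebraMap L N G *
        Matrix.det (Matrix.of fun a b => D a (algebraMap L N (s b))) ^ e

/-- At every divisorial valuation `w`, the form `T (du₁ ∧ ⋯ ∧ duₙ)^ι / Φ` is bounded by a product of forms
`dlog f₁ ∧ ⋯ ∧ dlog fₙ` (one for each element of the index set `ι`). -/
def LogBlock (k Z : Type*) {N : Type*} [Field k] [Field Z] [Field N] [Algebra k N] [Algebra Z N]
    (ι : Type*) [Fintype ι] {n : ℕ} (u : Fin n → N) (Φ T : N) : Prop :=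
  ∀ w : Valuation N ℤᵐ⁰, IsDivisorial k N w →
    ∃ (f : ι → Fin n → N) (U : ι → Matrix (Fin n) (Fin n) N), (∀ c b, f c b ≠ 0) ∧
      (∀ (D : Derivation Z N N) (c : ι) (b : Fin n),
        D (f c b) = f c b * ∑ a, D (u a) * U c a b) ∧
      w T ≤ w Φ * ∏ c, w (U c).det

end blocks

end Pf72953.Pow
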