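import Mathlib
import Pool.Agent.Lib.Pf72953v.Ratio
import Pool.Agent.Lib.Pf72953c.BrkB
import Pool.Agent.Lib.Pf72953p.LDefs

/-!
MODULE Pf72953p.BlkArr: the block of an arrangement of hyperplanes is logarithmic.

PROOF.  Let `l c i = H c i 0 + ∑ j, H c i j.succ * u j` (`= lin (H c) u i` of Pf72953v/Defs.lean), all `≠ 0` because `Φ ≠ 0`.  For `p = (c, _) : Fin e × Fin m` put `f p b = l c b.succ / l c 0` and
`U p a b = H c b.succ a.succ / l c b.succ - H c 0 a.succ / l c 0`.  A `Z`-derivation `D` kills the `H c i j` (private `der_alg` in Pf72953c/BrkB.lean, copy it), `D (l c i) = ∑ j, H c i j.succ * D (u j)`, so the second condition is the quotient rule.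
`U p a b = ratioMat (H c) u id a b / (f p b)` (`ratioMat`, Pf72953v/Ratio.lean, or Block.lean), so by `det_ratioMat` (Ratio.lean) `det (U p) = det (H c) / ∏ i, l c i` (`Matrix.det_mul_row`/`det_mul_column` for the factor `∏ b, (f p b)⁻¹`; `Fin.prod_univ_succ`).  (A direct proof: subtract multiples of the row `0`.)
So `w (Φ ^ m) * ∏ p, w ((U p).det) = w ((∏ c, (H c).det) ^ m)` (`Fintype.prod_prod_type`, `Finset.prod_const`): equality.
-/

set_option autoImplicit false
set_option linter.style.haveILetI false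
set_option linter.unusedSectionVars false

open scoped WithZero
open Pf72953 Pf72953.Var Pf72953.Can

namespace Pf72953.Pow

namespace BlkArrAux

private theorem der_alg {Z N : Type*} [Field Z] [CharZero Z] [Field N] [Algebra Z N]
    (D : Derivation Z N N) {b : N} (hb : IsAlgebraic Z b) : D b = 0 := by
  have hbi : IsIntegral Z b := hb.isIntegral
  have hsep : (minpoly Z b).Separable := (minpoly.irreducible hbi).separable
  have h1 : D (Polynomial.aeval b (minpoly Z b)) =
      Polynomial.aeval b (Polynomial.derivative (minpoly Z b)) • D b :=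
    Derivation.map_aeval D (minpoly Z b) b
  rw [minpoly.aeval, map_zero] at h1
  have h2 : Polynomial.aeval b (Polynomial.derivative (minpoly Z b)) ≠ 0 := by
    intro h0
    obtain ⟨u, v, huv⟩ := hsep
    have := congrArg (Polynomial.aeval b) huv
    rw [map_add, map_mul, map_mul, h0, minpoly.aeval, mul_zero, mul_zero, add_zero, map_one] at this
    exact zero_ne_one this
  rcases smul_eq_zero.mp h1.symm with h | h
  · exact absurd h h2
  · exact h

private theorem der_lin {Z N : Type*} [Field Z] [CharZero Z] [Field N] [Algebra Z N] {m : ℕ}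
    {X : Type*} {H : X → Fin (m + 1) → N} (hH : ∀ a c, IsAlgebraic Z (H a c)) (u : Fin m → N)
    (D : Derivation Z N N) (a : X) :
    D (lin H u a) = ∑ j : Fin m, H a j.succ * D (u j) := by
  simp only [lin, map_add, map_sum, Derivation.leibniz, der_alg D (hH a _), smul_eq_mul, mul_zero,
    add_zero, zero_add]

private theorem der_ratio {Z N : Type*} [Field Z] [CharZero Z] [Field N] [Algebra Z N] {m : ℕ}
    {X : Type*} {H : X → Fin (m + 1) → N} (hH : ∀ a c, IsAlgebraic Z (H a c)) (u : Fin m → N)
    (D : Derivation Z N N) (J : Fin (m + 1) → X) (h0 : lin H u (J 0) ≠ 0) (r : Fin m) :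
    D (lin H u (J r.succ) / lin H u (J 0)) = ∑ j, D (u j) * ratioMat H u J j r := by
  have hr := der_lin hH u D (J r.succ)
  have h0' := der_lin hH u D (J 0)
  set l0 := lin H u (J 0) with hl0
  set lr := lin H u (J r.succ) with hlr
  have e3 : D (lr / l0) = l0⁻¹ * D lr - (l0⁻¹ * (lr / l0)) * D l0 := by
    rw [Derivation.leibniz_div, smul_eq_mul, smul_eq_mul, smul_eq_mul]
    field_simp
  rw [e3, hr, h0', Finset.mul_sum, Finset.mul_sum, ← Finset.sum_sub_distrib]
  refine Finset.sum_congr rfl fun j _ => ?_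
  simp only [ratioMat, Matrix.of_apply, ← hl0, ← hlr]
  field_simp

/-- the determinant of the logarithmic Jacobian -/
private theorem det_U {N : Type*} [Field N] {n : ℕ} (H : Matrix (Fin (n + 1)) (Fin (n + 1)) N)
    (u : Fin n → N) (hl : ∀ i, lin H u i ≠ 0) :
    (Matrix.of fun a b : Fin n =>
      ratioMat H u id a b / (lin H u b.succ / lin H u 0)).det = H.det / ∏ i, lin H u i := by
  have h1 : (Matrix.of fun a b : Fin n =>
      ratioMat H u id a b / (lin H u b.succ / lin H u 0)) =
      Matrix.of fun a b : Fin n =>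
        (fun b : Fin n => (lin H u b.succ / lin H u 0)⁻¹) b * ratioMat H u id a b := by
    ext a b
    simp only [Matrix.of_apply]
    rw [div_eq_mul_inv, mul_comm]
  have hbrk : brk H (id : Fin (n + 1) → Fin (n + 1)) = H.det := rfl
  rw [h1, Matrix.det_mul_row, det_ratioMat H u id (hl _), hbrk, Fin.prod_univ_succ,
    Finset.prod_inv_distrib, Finset.prod_div_distrib, Finset.prod_const, Finset.card_univ,
    Fintype.card_fin]
  have h2 : ∏ i : Fin n, lin H u i.succ ≠ 0 := Finset.prod_ne_zero_iff.mpr fun i _ => hl _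
  have h3 : lin H u (id (0 : Fin (n + 1))) ≠ 0 := hl _
  have h4 : lin H u (0 : Fin (n + 1)) ≠ 0 := hl _
  simp only [id_eq] at *
  field_simp
  ring

end BlkArrAux

open BlkArrAux

theorem logBlock_arr {k Z N : Type*} [Field k] [Field Z] [CharZero Z] [Field N] [Algebra k N]
    [Algebra Z N] {n e : ℕ} {u : Fin n → N} {H : Fin e → Matrix (Fin (n + 1)) (Fin (n + 1)) N}
    (hH : ∀ c i j, IsAlgebraic Z (H c i j)) {Φ : N}
    (hΦ : Φ = ∏ c, ∏ i, (H c i 0 + ∑ j : Fin n, H c i j.succ * u j)) (hΦ0 : Φ ≠ 0) (m : ℕ) :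
    LogBlock k Z (Fin e × Fin m) u (Φ ^ m) ((∏ c, (H c).det) ^ m) := by
  have hΦ' : Φ = ∏ c, ∏ i, lin (H c) u i := hΦ
  have hl : ∀ c i, lin (H c) u i ≠ 0 := by
    intro c i h
    apply hΦ0
    rw [hΦ']
    exact Finset.prod_eq_zero (Finset.mem_univ c) (Finset.prod_eq_zero (Finset.mem_univ i) h)
  intro w _
  refine ⟨fun p b => lin (H p.1) u b.succ / lin (H p.1) u 0, fun p => Matrix.of fun a b =>
    ratioMat (H p.1) u id a b / (lin (H p.1) u b.succ / lin (H p.1) u 0), ?_, ?_, ?_⟩
  · intro c b
    exact div_ne_zero (hl _ _) (hl _ _)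
  · intro D c b
    have h := der_ratio (H := H c.1) (hH c.1) u D id (hl c.1 _) b
    have hf : lin (H c.1) u b.succ / lin (H c.1) u 0 ≠ 0 := div_ne_zero (hl _ _) (hl _ _)
    simp only [id_eq] at h
    simp only [Matrix.of_apply]
    rw [h, Finset.mul_sum]
    refine Finset.sum_congr rfl fun j _ => ?_
    set f := lin (H c.1) u b.succ / lin (H c.1) u 0 with hfd
    field_simp
  · have h1 : ∏ p : Fin e × Fin m, w (Matrix.of fun a b =>
        ratioMat (H p.1) u id a b / (lin (H p.1) u b.succ / lin (H p.1) u 0)).det =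
        w ((∏ c, ((H c).det / ∏ i, lin (H c) u i)) ^ m) := by
      rw [← map_prod, Fintype.prod_prod_type, ← Finset.prod_pow]
      congr 1
      refine Finset.prod_congr rfl fun c _ => ?_
      simp only [det_U (H c) u (hl c), Finset.prod_const, Finset.card_univ, Fintype.card_fin]
    rw [h1, ← map_mul, ← mul_pow, Finset.prod_div_distrib, ← hΦ', mul_div_cancel₀ _ hΦ0]

end Pf72953.Pow
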