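import Mathlib
import Pool.Agent.Lib.Pf72953v.Block
import Pool.Agent.Lib.Pf72953p.LDefs

/-!
MODULE Pf72953p.BlkProd: a product of logarithmic blocks has logarithmic poles.

PROOF.  `hT i w hw` gives `f i : ι → Fin (n i) → N`, `U i : ι → Matrix _ _ N` for every `i`.  Let `d : Fin r → Derivation Z N N` be logarithmic at `w` (`w (d a z) ≤ w z`), `δ = det (d_a (u (eq b).1 (eq b).2))`.
For `c : ι` the matrix `M_c a b = d_a (F_b) / F_b`, `F_b = f (eq b).1 c (eq b).2` (`≠ 0`), has entries of value `≤ 1`, so `w (det M_c) ≤ 1` (`Matrix.det_apply`, `Valuation.map_sum_le`; `w (Equiv.Perm.sign σ • x) = w x`; see `LocalEAux.det_le_one`, Pf72953e/LocalE.lean).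
`M_c a b = ∑ b', d_a (u_{b'}) * (blockDiagonal' (fun i => U i c)) (eq b') (eq b)` (only `b'` in the block of `b` counts), so, reindexing by `eq` (`Matrix.det_submatrix_equiv_self`), `det M_c = δ * ∏ i, (U i c).det` (`Matrix.det_mul`, `det_blockDiagonal'`, Pf72953v/Block.lean; compare `det_newu`, Pf72953c/BrkB.lean).
So `w δ * ∏ i, w ((U i c).det) ≤ 1` for every `c`, hence `w δ ^ card ι * ∏ c, ∏ i, w ((U i c).det) ≤ 1`.
By `h`: `g * det (d s) ^ card ι = κ * δ ^ card ι * (∏ i, Φ i)⁻¹`, so `κ⁻¹ * (∏ T) * g * det (d s) ^ card ι = (∏ T) * (∏ Φ)⁻¹ * δ ^ card ι`, of value `≤ (∏ i, ∏ c, w ((U i c).det)) * w δ ^ card ι ≤ 1` (`w (T i) ≤ w (Φ i) * ∏ c, ..`).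
-/

set_option autoImplicit false
set_option linter.style.haveILetI false
set_option linter.unusedSectionVars false

open scoped WithZero
open Pf72953 Pf72953.Var Pf72953.Can

namespace Pf72953.Pow

private theorem blkProd_det_le_one {L ι : Type*} [Field L] [Fintype ι] [DecidableEq ι]
    {w : Valuation L ℤᵐ⁰} (A : Matrix ι ι L) (h : ∀ i j, w (A i j) ≤ 1) : w A.det ≤ 1 := by
  rw [Matrix.det_apply]
  refine Valuation.map_sum_le _ fun σ _ => ?_
  rw [Units.smul_def, zsmul_eq_mul, map_mul]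
  refine mul_le_one' ?_ ?_
  · rcases Int.units_eq_one_or (Equiv.Perm.sign σ) with h | h <;> simp [h, Valuation.map_neg]
  rw [map_prod]
  exact Finset.prod_le_one' fun i _ => h _ _

private theorem blkProd_det {Z N : Type*} [Field Z] [Field N] [Algebra Z N] {q r : ℕ}
    {n : Fin q → ℕ} (u f : ∀ i, Fin (n i) → N) (U : ∀ i, Matrix (Fin (n i)) (Fin (n i)) N)
    (eq : Fin r ≃ Σ i, Fin (n i)) (d : Fin r → Derivation Z N N) (hf : ∀ i b, f i b ≠ 0)
    (hU : ∀ (D : Derivation Z N N) (i : Fin q) (b : Fin (n i)),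
      D (f i b) = f i b * ∑ a, D (u i a) * U i a b) :
    Matrix.det (Matrix.of fun a b => d a (f (eq b).1 (eq b).2) / f (eq b).1 (eq b).2) =
      Matrix.det (Matrix.of fun a b => d a (u (eq b).1 (eq b).2)) * ∏ i, (U i).det := by
  have h1 : (Matrix.of fun a b => d a (f (eq b).1 (eq b).2) / f (eq b).1 (eq b).2) =
      (Matrix.of fun a b => d a (u (eq b).1 (eq b).2)) *
        (Matrix.blockDiagonal' U).submatrix eq eq := by
    ext a b
    rw [Matrix.mul_apply]
    simp only [Matrix.of_apply, Matrix.submatrix_apply]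
    rw [Fintype.sum_equiv eq (fun b' => d a (u (eq b').1 (eq b').2) *
      Matrix.blockDiagonal' U (eq b') (eq b)) (fun x => d a (u x.1 x.2) *
      Matrix.blockDiagonal' U x (eq b)) (fun _ => rfl)]
    generalize eq b = y
    rw [Fintype.sum_sigma, Finset.sum_eq_single y.1]
    · rw [hU, mul_div_cancel_left₀ _ (hf _ _)]
      refine Finset.sum_congr rfl fun x _ => ?_
      have : Matrix.blockDiagonal' U ⟨y.1, x⟩ y = U y.1 x y.2 :=
        Matrix.blockDiagonal'_apply_eq U y.1 x y.2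
      rw [this]
    · intro i _ hi
      refine Finset.sum_eq_zero fun x _ => ?_
      have : Matrix.blockDiagonal' U ⟨i, x⟩ y = 0 :=
        Matrix.blockDiagonal'_apply_ne U x y.2 hi
      rw [this, mul_zero]
    · intro h
      exact absurd (Finset.mem_univ _) h
  rw [h1, Matrix.det_mul, Matrix.det_submatrix_equiv_self, det_blockDiagonal']

theorem logAt_of_blocks {k Z N ι : Type*} [Field k] [Field Z] [Field N] [Algebra k N]
    [Algebra Z N] [Fintype ι] {q r : ℕ} {n : Fin q → ℕ} {u : ∀ i, Fin (n i) → N}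
    {Φ T : Fin q → N} (eq : Fin r ≃ Σ i, Fin (n i)) (hΦ : ∀ i, Φ i ≠ 0)
    (hT : ∀ i, LogBlock k Z ι (u i) (Φ i) (T i)) {s : Fin r → N} {g κ : N} (hκ : κ ≠ 0)
    (h : ∀ D : Fin r → Derivation Z N N,
      κ * Matrix.det (Matrix.of fun a b => D a (u (eq b).1 (eq b).2)) ^ Fintype.card ι =
        (∏ i, Φ i) * g * Matrix.det (Matrix.of fun a b => D a (s b)) ^ Fintype.card ι)
    {w : Valuation N ℤᵐ⁰} (hw : IsDivisorial k N w) :
    LogAt Z w s (Fintype.card ι) (κ⁻¹ * (∏ i, T i) * g) := by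
  classical
  choose f U hf hU hTw using fun i => hT i w hw
  intro d hd
  set δ := Matrix.det (Matrix.of fun a b => d a (u (eq b).1 (eq b).2)) with hδ
  have key : ∀ c : ι, w δ * ∏ i, w ((U i c).det) ≤ 1 := by
    intro c
    have h1 := blkProd_det (fun i => u i) (fun i => f i c) (fun i => U i c) eq d
      (fun i b => hf i c b) (fun D i b => hU i D c b)
    rw [← map_prod, ← map_mul, hδ, ← h1]
    refine blkProd_det_le_one _ fun a b => ?_
    simp only [Matrix.of_apply]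
    rw [map_div₀]
    exact div_le_one_of_le₀ (hd a _) zero_le
  have hprod : w δ ^ Fintype.card ι * ∏ c, ∏ i, w ((U i c).det) ≤ 1 := by
    have h2 : ∏ c : ι, (w δ * ∏ i, w ((U i c).det)) ≤ 1 :=
      Finset.prod_le_one' fun c _ => key c
    rwa [Finset.prod_mul_distrib, Finset.prod_const, Finset.card_univ] at h2
  have hΦ0 : (∏ i, Φ i) ≠ 0 := Finset.prod_ne_zero_iff.mpr fun i _ => hΦ i
  have heq := h d
  have h3 : κ⁻¹ * (∏ i, T i) * g * Matrix.det (Matrix.of fun a b => d a (s b)) ^ Fintype.card ι =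
      (∏ i, T i) * (∏ i, Φ i)⁻¹ * δ ^ Fintype.card ι := by
    rw [← hδ] at heq
    have h4 : g * Matrix.det (Matrix.of fun a b => d a (s b)) ^ Fintype.card ι =
        κ * δ ^ Fintype.card ι * (∏ i, Φ i)⁻¹ := by
      rw [heq]
      field_simp
    calc κ⁻¹ * (∏ i, T i) * g * Matrix.det (Matrix.of fun a b => d a (s b)) ^ Fintype.card ι
        = κ⁻¹ * (∏ i, T i) *
          (g * Matrix.det (Matrix.of fun a b => d a (s b)) ^ Fintype.card ι) := by ring
      _ = κ⁻¹ * κ * ((∏ i, T i) * (∏ i, Φ i)⁻¹ * δ ^ Fintype.card ι) := by rw [h4]; ring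
      _ = _ := by rw [inv_mul_cancel₀ hκ, one_mul]
  rw [h3, map_mul, map_mul, map_inv₀, map_prod, map_prod, map_pow]
  have h5 : ∏ i, w (T i) ≤ (∏ i, w (Φ i)) * ∏ i, ∏ c, w ((U i c).det) := by
    rw [← Finset.prod_mul_distrib]
    exact Finset.prod_le_prod' fun i _ => hTw i
  have h6 : (∏ i, w (Φ i)) ≠ 0 :=
    Finset.prod_ne_zero_iff.mpr fun i _ => (Valuation.ne_zero_iff w).mpr (hΦ i)
  have h7 : (∏ i, w (T i)) * (∏ i, w (Φ i))⁻¹ ≤ ∏ i, ∏ c, w ((U i c).det) := by
    calc (∏ i, w (T i)) * (∏ i, w (Φ i))⁻¹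
        ≤ ((∏ i, w (Φ i)) * ∏ i, ∏ c, w ((U i c).det)) * (∏ i, w (Φ i))⁻¹ :=
          mul_le_mul' h5 le_rfl
      _ = (∏ i, w (Φ i)) * (∏ i, w (Φ i))⁻¹ * ∏ i, ∏ c, w ((U i c).det) := by
          rw [mul_right_comm]
      _ = _ := by rw [mul_inv_cancel₀ h6, one_mul]
  refine le_trans (mul_le_mul' h7 le_rfl) ?_
  rw [mul_comm, Finset.prod_comm]
  exact hprod

end Pf72953.Pow
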