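import Mathlib
import Pool.Agent.Lib.Pf72953.Core
import Pool.Agent.Lib.Pf72953p.LDefs

/-!
MODULE Pf72953p.BlkWei: the block of a Weierstrass fibration over the projective line is logarithmic.

PROOF.  (0) `exists_mul_der`: choose `D₀ : Derivation Z N N` with `D₀ t ≠ 0` (`t` is transcendental over `Z`: extend `t` to a transcendence basis of `N/Z`, `exists_isTranscendenceBasis_superset`; a derivation of the rational function field extends to the algebraic, separable extension `N`; the
library has `pd` (DBasis.lean: `pd hB i` for a transcendence basis `hB` of `N` over a base field of characteristic zero, `pd_self`): apply it over `Z` to the basis).  Let `ε = D₀ z / D₀ t`.  For any `D` the derivation `D' = D - (D t / D₀ t) • D₀` kills `Z` and `t`, hence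
`Algebra.adjoin Z {t}`, and so every element algebraic over it (take the minimal equation and differentiate, as private `der_alg`, Pf72953c/BrkB.lean; or work over the subfield `Z(t)`): `D z = ε * D t`.
(1) `ε i` (`i : Fin 3`) is a root of `X³ + A(t) X + B(t)`, `A(t), B(t)` are algebraic over `Z(t)` (the coefficients of `A, B` are algebraic over `Z`), so is `ε i`.
(2) Let `w` be divisorial.  `y² = (x - ε 0) (x - ε 1) (x - ε 2) ≠ 0`.  Let `(p, q)` be a pair with `μ = w (ε p - ε q)` maximal, `o` the third index.  `3 ε p = (ε p - ε q) + (ε p - ε o)` (h1), `w 3 = 1`, so `w (ε i) ≤ μ` for all `i`; `w (A(t)) ≤ μ²`, `w (B(t)) ≤ μ³`, `w (algebraMap c) ≤ 1`, so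
`w (D(t)) ≤ μ ^ 6`, `D(t) = ∏ i, (a i 0 * t + a i 1) * (b i 0 * t + b i 1)`; every factor is `≠ 0` (`t` is transcendental over `Z`, the coefficients are algebraic and not both zero by `hbr`), so `μ ≠ 0`.
(3) For `(c, i) : Fin e × Fin 12` put `f (c, i) 0 = (a i 0 * t + a i 1) / (b i 0 * t + b i 1)`, `f (c, i) 1 = (x - ε p) / (x - ε q)` if `i < 6` and `x - ε o` if `i ≥ 6`.  `D (f 0) = f 0 * (D t * (a i 0 * b i 1 - a i 1 * b i 0) / (..) (..))`, `D (f 1) = f 1 * (D t * ν + D x * μ')`,
`μ' = (ε p - ε q) / ((x - ε p) (x - ε q))` resp. `1 / (x - ε o)`, by (0), (1).  `U (c, i) = !![λ, ν; 0, μ']` (rows: `t`, `x`; columns: `f 0`, `f 1`), `det U = λ μ'`, `Matrix.det_fin_two`.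
(4) `∏ i, det U (c, i) = (∏ i, br i) / D(t) * (ε p - ε q) ^ 6 / y ^ 12`, `br i = a i 0 * b i 1 - a i 1 * b i 0`.  So `w ((y ^ e) ^ 12) * ∏ w (det U) = (w (∏ br) * μ ^ 6 / w (D(t))) ^ e ≥ w (∏ br) ^ e`.
-/

set_option autoImplicit false
set_option linter.style.haveILetI false
set_option linter.unusedSectionVars false

open scoped WithZero
open Pf72953 Pf72953.Can Polynomial

namespace Pf72953.Pow

namespace BlkWeiAux

theorem der_alg {Z N : Type*} [Field Z] [CharZero Z] [Field N] [Algebra Z N]
    (D : Derivation Z N N) {b : N} (hb : IsAlgebraic Z b) : D b = 0 := by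
  have hbi : IsIntegral Z b := hb.isIntegral
  have hsep : (minpoly Z b).Separable := (minpoly.irreducible hbi).separable
  have h1 : D (Polynomial.aeval b (minpoly Z b)) =
      Polynomial.aeval b (Polynomial.derivative (minpoly Z b)) • D b :=
    Derivation.map_aeval D (minpoly Z b) b
  rw [minpoly.aeval, map_zero] at h1
  have h2 : Polynomial.aeval b (Polynomial.derivative (minpoly Z b)) ≠ 0 := by
    intro h0
    obtain ⟨u, v, huv⟩ := hsep
    have := congrArg (Polynomial.aeval b) huv
    rw [map_add, map_mul, map_mul, h0, minpoly.aeval, mul_zero, mul_zero, add_zero, map_one] at this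
    exact zero_ne_one this
  rcases smul_eq_zero.mp h1.symm with h | h
  · exact absurd h h2
  · exact h

theorem der_poly {R N : Type*} [CommRing R] [IsDomain R] [CharZero R] [Field N] [Algebra R N]
    (hinj : Function.Injective (algebraMap R N)) (D : Derivation R N N) {z : N} :
    ∀ (n : ℕ) (p : R[X]), p.natDegree = n → p ≠ 0 → Polynomial.aeval z p = 0 → D z = 0 := by
  intro n
  induction n using Nat.strong_induction_on with
  | _ n ih =>
    intro p hn hp hz
    by_cases hd : Polynomial.derivative p = 0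
    · exfalso
      have h0 := Polynomial.derivative_eq_zero.1 hd
      rw [Polynomial.eq_C_of_natDegree_eq_zero h0] at hz hp
      rw [Polynomial.aeval_C] at hz
      have := hinj (hz.trans (map_zero _).symm)
      rw [this, Polynomial.C_0] at hp
      exact hp rfl
    · have h1 : D (Polynomial.aeval z p) =
          Polynomial.aeval z (Polynomial.derivative p) • D z := Derivation.map_aeval D p z
      rw [hz, map_zero] at h1
      rcases smul_eq_zero.mp h1.symm with h | h
      · have hpos : p.natDegree ≠ 0 := by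
          intro h0
          rw [Polynomial.eq_C_of_natDegree_eq_zero h0, Polynomial.derivative_C] at hd
          exact hd rfl
        exact ih _ (hn ▸ Polynomial.natDegree_derivative_lt hpos) _ rfl hd h
      · exact h

theorem der_kill {Z N : Type*} [Field Z] [CharZero Z] [Field N] [Algebra Z N] {t z : N}
    (hz : IsAlgebraic (Algebra.adjoin Z {t}) z) (D : Derivation Z N N) (ht : D t = 0) :
    D z = 0 := by
  have hker : ∀ a ∈ Algebra.adjoin Z {t}, D a = 0 := by
    intro a ha
    induction ha using Algebra.adjoin_induction with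
    | mem x hx =>
      rw [Set.mem_singleton_iff] at hx
      rw [hx, ht]
    | algebraMap r => exact D.map_algebraMap r
    | add x y _ _ hx hy => rw [map_add, hx, hy, add_zero]
    | mul x y _ _ hx hy => rw [Derivation.leibniz, hx, hy, smul_zero, smul_zero, add_zero]
  let L : N →ₗ[Algebra.adjoin Z {t}] N :=
    { toFun := fun a => D a
      map_add' := fun a b => map_add D a b
      map_smul' := fun a b => by
        rw [Algebra.smul_def, Derivation.leibniz]
        have : D (algebraMap (Algebra.adjoin Z {t}) N a) = 0 := hker _ a.2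
        rw [this, smul_zero, add_zero, smul_eq_mul, RingHom.id_apply, Algebra.smul_def] }
  let D' : Derivation (Algebra.adjoin Z {t}) N N :=
    Derivation.mk' L (fun a b => by
      change D (a * b) = a • D b + b • D a
      exact D.leibniz a b)
  obtain ⟨p, hp, hpz⟩ := hz
  haveI : CharZero (Algebra.adjoin Z {t}) :=
    charZero_of_injective_algebraMap (algebraMap Z (Algebra.adjoin Z {t})).injective
  have hinj : Function.Injective (algebraMap (Algebra.adjoin Z {t}) N) :=
    Subtype.val_injective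
  exact der_poly hinj D' _ p rfl hp hpz

/-- `D z` is a fixed multiple of `D t`. -/
def Mul (Z : Type*) {N : Type*} [Field Z] [Field N] [Algebra Z N] (t z : N) : Prop :=
  ∃ ε : N, ∀ D : Derivation Z N N, D z = ε * D t

theorem mul_eval {Z N : Type*} [Field Z] [CharZero Z] [Field N] [Algebra Z N] (t : N) {A : N[X]}
    (hA : ∀ i, IsAlgebraic Z (A.coeff i)) : Mul Z t (A.eval t) := by
  refine ⟨∑ i ∈ Finset.range (A.natDegree + 1), A.coeff i * (i * t ^ (i - 1)), fun D => ?_⟩
  rw [Polynomial.eval_eq_sum_range, map_sum, Finset.sum_mul]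
  refine Finset.sum_congr rfl fun i _ => ?_
  rw [Derivation.leibniz, der_alg D (hA i), smul_zero, add_zero, Derivation.leibniz_pow]
  simp only [smul_eq_mul, nsmul_eq_mul]
  ring

theorem mul_root {Z N : Type*} [Field Z] [CharZero Z] [Field N] [Algebra Z N] {t z a b : N}
    (ha : Mul Z t a) (hb : Mul Z t b) (hz : z ^ 3 + a * z + b = 0) : Mul Z t z := by
  haveI : CharZero N := charZero_of_injective_algebraMap (algebraMap Z N).injective
  obtain ⟨α, hα⟩ := ha
  obtain ⟨β, hβ⟩ := hb
  by_cases h : 3 * z ^ 2 + a = 0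
  · by_cases h0 : z = 0
    · refine ⟨0, fun D => ?_⟩
      rw [h0, map_zero, zero_mul]
    · refine ⟨-α / (6 * z), fun D => ?_⟩
      have h1 := congrArg D h
      rw [map_add, Derivation.leibniz, Derivation.leibniz_pow, hα, map_zero] at h1
      have h3 : D (3 : N) = 0 := by
        have := D.map_natCast 3
        simpa using this
      rw [h3] at h1
      simp only [smul_eq_mul, nsmul_eq_mul, mul_zero, add_zero, Nat.cast_ofNat, Nat.reduceSub,
        pow_one] at h1
      have h4 : (6 * z : N) ≠ 0 := mul_ne_zero (by norm_num) h0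
      have h5 : D z * (6 * z) = -α * D t := by linear_combination h1
      rw [div_mul_eq_mul_div, eq_div_iff h4]
      exact h5
  · refine ⟨-(z * α + β) / (3 * z ^ 2 + a), fun D => ?_⟩
    have h1 := congrArg D hz
    rw [map_add, map_add, Derivation.leibniz, Derivation.leibniz_pow, hα, hβ, map_zero] at h1
    simp only [smul_eq_mul, nsmul_eq_mul, Nat.cast_ofNat, Nat.reduceSub] at h1
    rw [div_mul_eq_mul_div, eq_div_iff h]
    linear_combination h1

end BlkWeiAux

theorem exists_mul_der {Z N : Type*} [Field Z] [CharZero Z] [Field N] [Algebra Z N]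
    [Algebra.EssFiniteType Z N] {t : N} (ht : Transcendental Z t) {z : N}
    (hz : IsAlgebraic (Algebra.adjoin Z {t}) z) :
    ∃ ε : N, ∀ D : Derivation Z N N, D z = ε * D t := by
  by_cases h : ∃ D₀ : Derivation Z N N, D₀ t ≠ 0
  · obtain ⟨D₀, h0⟩ := h
    refine ⟨D₀ z / D₀ t, fun D => ?_⟩
    have h1 := BlkWeiAux.der_kill hz (D - (D t / D₀ t) • D₀) (by
      rw [Derivation.sub_apply, Derivation.smul_apply, smul_eq_mul, div_mul_cancel₀ _ h0, sub_self])
    rw [Derivation.sub_apply, Derivation.smul_apply, smul_eq_mul, sub_eq_zero] at h1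
    rw [h1]
    ring
  · push Not at h
    refine ⟨0, fun D => ?_⟩
    rw [zero_mul]
    exact BlkWeiAux.der_kill hz D (h D)

namespace BlkWeiAux

theorem der_frac {Z N : Type*} [Field Z] [Field N] [Algebra Z N] (D : Derivation Z N N)
    {u v du dv : N} (hu : u ≠ 0) (hv : v ≠ 0) (h1 : D u = du) (h2 : D v = dv) :
    D (u / v) = u / v * (du / u - dv / v) := by
  rw [Derivation.leibniz_div, h1, h2]
  simp only [smul_eq_mul]
  field_simp

theorem frac_aux {N : Type*} [Field N] {p q r s t T X : N} (h1 : p * t + q ≠ 0)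
    (h2 : r * t + s ≠ 0) : p * T / (p * t + q) - r * T / (r * t + s) =
      T * ((p * s - q * r) / ((p * t + q) * (r * t + s))) + X * 0 := by
  rw [div_sub_div _ _ h1 h2, mul_zero, add_zero, mul_div_assoc', div_left_inj' (mul_ne_zero h1 h2)]
  ring

theorem prod12 {M : Type*} [CommMonoid M] (u v : M) :
    ∏ i : Fin 12, (if i.val < 6 then u else v) = u ^ 6 * v ^ 6 := by
  simp only [Fin.prod_univ_succ, Fin.val_zero, Fin.val_succ, Finset.univ_eq_empty,
    Finset.prod_empty]
  norm_num
  simp only [pow_succ, pow_zero, one_mul, mul_assoc]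

theorem main {k Z N : Type*} [Field k] [CharZero k] [Field Z] [CharZero Z] [Field N]
    [Algebra k N] [Algebra Z N] {t x y : N} {a0 b0 : N}
    (hy0 : y ≠ 0) (ht : Transcendental Z t)
    {α β γ : N} (hα : Mul Z t α) (hβ : Mul Z t β) (hγ : Mul Z t γ)
    (h1 : α + β + γ = 0) (h2 : α * β + α * γ + β * γ = a0) (h3 : α * β * γ = -b0)
    (hy : y ^ 2 = x ^ 3 + a0 * x + b0)
    {c : k} {a b : Fin 12 → Fin 2 → N} (ha : ∀ i j, IsAlgebraic Z (a i j))
    (hb : ∀ i j, IsAlgebraic Z (b i j)) (hbr : ∀ i, a i 0 * b i 1 - a i 1 * b i 0 ≠ 0)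
    (hD : a0 ^ 3 + algebraMap k N c * b0 ^ 2 =
      ∏ i, ((a i 0 * t + a i 1) * (b i 0 * t + b i 1))) (e : ℕ)
    {w : Valuation N ℤᵐ⁰} (hw : IsDivisorial k N w)
    (hm1 : w (α - γ) ≤ w (α - β)) (hm2 : w (β - γ) ≤ w (α - β)) :
    ∃ (f : Fin e × Fin 12 → Fin 2 → N) (U : Fin e × Fin 12 → Matrix (Fin 2) (Fin 2) N),
      (∀ c b, f c b ≠ 0) ∧
      (∀ (D : Derivation Z N N) (c : Fin e × Fin 12) (b : Fin 2),
        D (f c b) = f c b * ∑ a, D ((![t, x] : Fin 2 → N) a) * U c a b) ∧
      w ((∏ i, (a i 0 * b i 1 - a i 1 * b i 0)) ^ e) ≤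
        w ((y ^ e) ^ 12) * ∏ c, w (U c).det := by
  have hy3 : y ^ 2 = (x - α) * (x - β) * (x - γ) := by
    rw [hy]
    linear_combination x ^ 2 * h1 - x * h2 + h3
  have hprod : (x - α) * (x - β) * (x - γ) ≠ 0 := by rw [← hy3]; exact pow_ne_zero 2 hy0
  have hxγ : x - γ ≠ 0 := right_ne_zero_of_mul hprod
  have hxβ : x - β ≠ 0 := right_ne_zero_of_mul (left_ne_zero_of_mul hprod)
  have hxα : x - α ≠ 0 := left_ne_zero_of_mul (left_ne_zero_of_mul hprod)
  -- the linear forms are not zero
  have hlin : ∀ u v : N, IsAlgebraic Z u → IsAlgebraic Z v → (u ≠ 0 ∨ v ≠ 0) →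
      u * t + v ≠ 0 := by
    intro u v hu hv huv h0
    by_cases hu0 : u = 0
    · rw [hu0, zero_mul, zero_add] at h0
      rcases huv with h | h
      · exact h hu0
      · exact h h0
    · have h4 : t = -v / u := by
        rw [eq_div_iff hu0]
        linear_combination h0
      exact ht (by rw [h4, div_eq_mul_inv]; exact hv.neg.mul hu.inv)
  have hla : ∀ i, a i 0 * t + a i 1 ≠ 0 := by
    intro i
    refine hlin _ _ (ha i 0) (ha i 1) ?_
    by_contra hcon
    push Not at hcon
    exact hbr i (by rw [hcon.1, hcon.2]; ring)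
  have hlb : ∀ i, b i 0 * t + b i 1 ≠ 0 := by
    intro i
    refine hlin _ _ (hb i 0) (hb i 1) ?_
    by_contra hcon
    push Not at hcon
    exact hbr i (by rw [hcon.1, hcon.2]; ring)
  -- the estimate of `μ`
  have hw3 : w (3 : N) = 1 := by
    have h4 := hw.const 3 (by norm_num)
    rwa [map_ofNat] at h4
  have key : ∀ u v v' : N, 3 * u = v + v' → w v ≤ w (α - β) → w v' ≤ w (α - β) →
      w u ≤ w (α - β) := by
    intro u v v' huv hv hv'
    have h4 : w (3 * u) ≤ w (α - β) := by
      rw [huv]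
      exact (w.map_add v v').trans (max_le hv hv')
    rwa [map_mul, hw3, one_mul] at h4
  have hwα : w α ≤ w (α - β) :=
    key α (α - β) (α - γ) (by linear_combination h1) le_rfl hm1
  have hwβ : w β ≤ w (α - β) :=
    key β (β - α) (β - γ) (by linear_combination h1) (by rw [w.map_sub_swap]) hm2
  have hwγ : w γ ≤ w (α - β) :=
    key γ (γ - α) (γ - β) (by linear_combination h1) (by rw [w.map_sub_swap]; exact hm1)
      (by rw [w.map_sub_swap]; exact hm2)
  have hwa : w a0 ≤ w (α - β) ^ 2 := by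
    rw [← h2, pow_two]
    refine (w.map_add _ _).trans (max_le ((w.map_add _ _).trans (max_le ?_ ?_)) ?_) <;>
    · rw [map_mul]
      exact mul_le_mul' (by assumption) (by assumption)
  have hwb : w b0 ≤ w (α - β) ^ 3 := by
    have h4 : w b0 = w α * w β * w γ := by
      rw [← map_mul, ← map_mul, h3, Valuation.map_neg]
    rw [h4, pow_succ, pow_two]
    exact mul_le_mul' (mul_le_mul' hwα hwβ) hwγ
  have hwc : w (algebraMap k N c) ≤ 1 := by
    by_cases hc : c = 0
    · rw [hc, map_zero, map_zero]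
      exact zero_le
    · exact (hw.const c hc).le
  have hwD : w (∏ i, ((a i 0 * t + a i 1) * (b i 0 * t + b i 1))) ≤ w (α - β) ^ 6 := by
    rw [← hD]
    refine (w.map_add _ _).trans (max_le ?_ ?_)
    · rw [map_pow]
      have := pow_le_pow_left' hwa 3
      rwa [← pow_mul] at this
    · rw [map_mul, map_pow]
      have h5 := pow_le_pow_left' hwb 2
      rw [← pow_mul] at h5
      have := mul_le_mul' hwc h5
      rwa [one_mul] at this
  have hD0 : (∏ i, ((a i 0 * t + a i 1) * (b i 0 * t + b i 1))) ≠ 0 :=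
    Finset.prod_ne_zero_iff.2 fun i _ => mul_ne_zero (hla i) (hlb i)
  have hwD0 : w (∏ i, ((a i 0 * t + a i 1) * (b i 0 * t + b i 1))) ≠ 0 :=
    (Valuation.ne_zero_iff w).2 hD0
  have hαβ : α - β ≠ 0 := by
    intro h4
    rw [h4, map_zero, zero_pow (by norm_num)] at hwD
    exact hwD0 (le_zero_iff.1 hwD)
  obtain ⟨dα, hdα⟩ := hα
  obtain ⟨dβ, hdβ⟩ := hβ
  obtain ⟨dγ, hdγ⟩ := hγ
  -- the data
  let lam : Fin 12 → N := fun i => (a i 0 * b i 1 - a i 1 * b i 0) /
    ((a i 0 * t + a i 1) * (b i 0 * t + b i 1))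
  let f : Fin e × Fin 12 → Fin 2 → N := fun ci =>
    ![(a ci.2 0 * t + a ci.2 1) / (b ci.2 0 * t + b ci.2 1),
      if ci.2.val < 6 then (x - α) / (x - β) else x - γ]
  let nu : Fin 12 → N := fun i => if i.val < 6 then -(dα / (x - α) - dβ / (x - β))
    else -(dγ / (x - γ))
  let mu : Fin 12 → N := fun i => if i.val < 6 then (α - β) / ((x - α) * (x - β))
    else 1 / (x - γ)
  let U : Fin e × Fin 12 → Matrix (Fin 2) (Fin 2) N := fun ci =>
    !![lam ci.2, nu ci.2; 0, mu ci.2]
  refine ⟨f, U, ?_, ?_, ?_⟩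
  · intro ci j
    fin_cases j
    · exact div_ne_zero (hla _) (hlb _)
    · change (if ci.2.val < 6 then (x - α) / (x - β) else x - γ) ≠ 0
      split_ifs
      · exact div_ne_zero hxα hxβ
      · exact hxγ
  · intro D ci j
    rw [Fin.sum_univ_two]
    fin_cases j
    · change D ((a ci.2 0 * t + a ci.2 1) / (b ci.2 0 * t + b ci.2 1)) =
        (a ci.2 0 * t + a ci.2 1) / (b ci.2 0 * t + b ci.2 1) *
          (D t * lam ci.2 + D x * 0)
      have e1 : D (a ci.2 0 * t + a ci.2 1) = a ci.2 0 * D t := by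
        rw [map_add, Derivation.leibniz, der_alg D (ha _ _), der_alg D (ha _ _)]
        simp
      have e2 : D (b ci.2 0 * t + b ci.2 1) = b ci.2 0 * D t := by
        rw [map_add, Derivation.leibniz, der_alg D (hb _ _), der_alg D (hb _ _)]
        simp
      rw [der_frac D (hla _) (hlb _) e1 e2]
      congr 1
      exact frac_aux (hla ci.2) (hlb ci.2)
    · change D (if ci.2.val < 6 then (x - α) / (x - β) else x - γ) =
        (if ci.2.val < 6 then (x - α) / (x - β) else x - γ) *
          (D t * nu ci.2 + D x * mu ci.2)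
      by_cases h6 : ci.2.val < 6
      · simp only [nu, mu, h6, if_true]
        have e1 : D (x - α) = D x - dα * D t := by rw [map_sub, hdα]
        have e2 : D (x - β) = D x - dβ * D t := by rw [map_sub, hdβ]
        rw [der_frac D hxα hxβ e1 e2]
        congr 1
        field_simp
        ring
      · simp only [nu, mu, h6, if_false]
        rw [map_sub, hdγ]
        field_simp
        ring
  · have hdet : ∀ ci : Fin e × Fin 12, (U ci).det = lam ci.2 * mu ci.2 := by
      intro ci
      rw [Matrix.det_fin_two]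
      change lam ci.2 * mu ci.2 - nu ci.2 * 0 = _
      ring
    have hprodU : ∏ ci : Fin e × Fin 12, w (U ci).det =
        w ((∏ i, (lam i * mu i)) ^ e) := by
      rw [Fintype.prod_prod_type]
      simp only [hdet]
      rw [Finset.prod_const, Finset.card_univ, Fintype.card_fin, map_pow, map_prod]
    have hlam : ∏ i, lam i = (∏ i, (a i 0 * b i 1 - a i 1 * b i 0)) /
        ∏ i, ((a i 0 * t + a i 1) * (b i 0 * t + b i 1)) := by
      simp only [lam]
      rw [Finset.prod_div_distrib]
    have hmu : ∏ i, mu i = (α - β) ^ 6 / y ^ 12 := by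
      simp only [mu]
      rw [prod12]
      have h4 : y ^ 12 = ((x - α) * (x - β) * (x - γ)) ^ 6 := by
        rw [← hy3]; ring
      rw [h4]
      field_simp
    rw [hprodU, Finset.prod_mul_distrib, hlam, hmu, ← map_mul]
    set B := ∏ i, (a i 0 * b i 1 - a i 1 * b i 0) with hB
    set Dt := ∏ i, ((a i 0 * t + a i 1) * (b i 0 * t + b i 1)) with hDt
    have h5 : (y ^ e) ^ 12 * (B / Dt * ((α - β) ^ 6 / y ^ 12)) ^ e =
        (B * ((α - β) ^ 6 / Dt)) ^ e := by
      have h6 : (y ^ e) ^ 12 = (y ^ 12) ^ e := by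
        rw [← pow_mul, ← pow_mul, mul_comm]
      rw [h6, ← mul_pow]
      congr 1
      field_simp
    rw [h5, map_pow, map_pow]
    refine pow_le_pow_left' ?_ e
    rw [map_mul]
    refine le_mul_of_one_le_right' ?_
    rw [map_div₀, map_pow, one_le_div₀ (zero_lt_iff.2 hwD0)]
    exact hwD

end BlkWeiAux

theorem logBlock_wei {k Z N : Type*} [Field k] [CharZero k] [Field Z] [CharZero Z] [Field N]
    [Algebra k N] [Algebra Z N] [Algebra.EssFiniteType Z N] {t x y : N} {A B : N[X]}
    (hA : ∀ i, IsAlgebraic Z (A.coeff i)) (hB : ∀ i, IsAlgebraic Z (B.coeff i))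
    (hy : y ^ 2 = x ^ 3 + A.eval t * x + B.eval t) (hy0 : y ≠ 0) (ht : Transcendental Z t)
    {ε : Fin 3 → N} (h1 : ε 0 + ε 1 + ε 2 = 0)
    (h2 : ε 0 * ε 1 + ε 0 * ε 2 + ε 1 * ε 2 = A.eval t) (h3 : ε 0 * ε 1 * ε 2 = -B.eval t)
    {c : k} {a b : Fin 12 → Fin 2 → N} (ha : ∀ i j, IsAlgebraic Z (a i j))
    (hb : ∀ i j, IsAlgebraic Z (b i j)) (hbr : ∀ i, a i 0 * b i 1 - a i 1 * b i 0 ≠ 0)
    (hD : A ^ 3 + C (algebraMap k N c) * B ^ 2 =
      ∏ i, ((C (a i 0) * X + C (a i 1)) * (C (b i 0) * X + C (b i 1)))) (e : ℕ) :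
    LogBlock k Z (Fin e × Fin 12) ![t, x] ((y ^ e) ^ 12)
      ((∏ i, (a i 0 * b i 1 - a i 1 * b i 0)) ^ e) := by
  have mA : BlkWeiAux.Mul Z t (A.eval t) := BlkWeiAux.mul_eval t hA
  have mB : BlkWeiAux.Mul Z t (B.eval t) := BlkWeiAux.mul_eval t hB
  have m0 : BlkWeiAux.Mul Z t (ε 0) := BlkWeiAux.mul_root mA mB (by
    rw [← h2]
    linear_combination ε 0 ^ 2 * h1 + h3)
  have m1 : BlkWeiAux.Mul Z t (ε 1) := BlkWeiAux.mul_root mA mB (by
    rw [← h2]
    linear_combination ε 1 ^ 2 * h1 + h3)
  have m2 : BlkWeiAux.Mul Z t (ε 2) := BlkWeiAux.mul_root mA mB (by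
    rw [← h2]
    linear_combination ε 2 ^ 2 * h1 + h3)
  have hD' : (A.eval t) ^ 3 + algebraMap k N c * (B.eval t) ^ 2 =
      ∏ i, ((a i 0 * t + a i 1) * (b i 0 * t + b i 1)) := by
    have h4 := congrArg (Polynomial.eval t) hD
    rw [Polynomial.eval_prod] at h4
    simpa using h4
  intro w hw
  rcases le_total (w (ε 0 - ε 1)) (w (ε 0 - ε 2)) with h01 | h01
  · rcases le_total (w (ε 0 - ε 2)) (w (ε 1 - ε 2)) with h02 | h02
    · exact BlkWeiAux.main (α := ε 1) (β := ε 2) (γ := ε 0) hy0 ht m1 m2 m0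
        (by linear_combination h1) (by linear_combination h2) (by linear_combination h3) hy
        ha hb hbr hD' e hw (by rw [w.map_sub_swap]; exact h01.trans h02)
        (by rw [w.map_sub_swap]; exact h02)
    · exact BlkWeiAux.main (α := ε 0) (β := ε 2) (γ := ε 1) hy0 ht m0 m2 m1
        (by linear_combination h1) (by linear_combination h2) (by linear_combination h3) hy
        ha hb hbr hD' e hw h01 (by rw [w.map_sub_swap]; exact h02)
  · rcases le_total (w (ε 0 - ε 1)) (w (ε 1 - ε 2)) with h02 | h02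
    · exact BlkWeiAux.main (α := ε 1) (β := ε 2) (γ := ε 0) hy0 ht m1 m2 m0
        (by linear_combination h1) (by linear_combination h2) (by linear_combination h3) hy
        ha hb hbr hD' e hw (by rw [w.map_sub_swap]; exact h02)
        (by rw [w.map_sub_swap]; exact h01.trans h02)
    · exact BlkWeiAux.main (α := ε 0) (β := ε 1) (γ := ε 2) hy0 ht m0 m1 m2
        (by linear_combination h1) (by linear_combination h2) (by linear_combination h3) hy
        ha hb hbr hD' e hw h01 h02

end Pf72953.Pow
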