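import Mathlib
import Pool.Agent.Lib.Pf72953.Core
import Pool.Agent.Lib.Pf72953p.LDefs

/-!
MODULE Pf72953p.FormX: an identity of top forms extends to an algebraic extension.

PROOF.  `s_N = algebraMap L N ∘ s` is a transcendence basis of `N/Z`, `s_{N'} = algebraMap N N' ∘ s_N` one of `N'/Z` (`IsTranscendenceBasis.algebraMap_comp`).  Let `J = jac h_N u` (DBasis.lean: `jac_eq_det`, the determinant of the `pd h_N a (u b)`; here the base field is `Z`).
(1) For `D : Fin r → Derivation Z N N`: `det (D_a u_b) = J * det (D_a (s_N b))` (`der_eq_sum`: `D z = ∑ b, pd h_N b z * D (s_N b)`; product of matrices).  With `D_a = pd h_N a`: `det (D_a (s_N b)) = 1` (`pd_self`), so the hypothesis gives `κ * J ^ e = g`.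
(2) For `D' : Fin r → Derivation Z N' N'`: `D' (algebraMap z) = ∑ b, algebraMap (pd h_N b z) * D' (s_{N'} b)` (`der_eq_sum` and `pd_algebraMap`: the partial derivatives of `N'` extend those of `N`), so `det (D'_a (algebraMap (u b))) = algebraMap J * det (D'_a (s_{N'} b))`, and the claim follows.
-/

set_option autoImplicit false
set_option linter.style.haveILetI false
set_option linter.unusedSectionVars false

open Pf72953

namespace Pf72953.Pow

namespace FormXAux

variable {Z N : Type*} [Field Z] [CharZero Z] [Field N] [Algebra Z N] {r : ℕ}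

theorem det_der {s : Fin r → N} (hs : IsTranscendenceBasis Z s) (u : Fin r → N)
    (D : Fin r → Derivation Z N N) :
    Matrix.det (Matrix.of fun a b => D a (u b)) =
      Matrix.det (Matrix.of fun a b => D a (s b)) * jac hs u := by
  rw [jac_eq_det, ← Matrix.det_mul]
  congr 1
  ext a b
  rw [Matrix.mul_apply, Matrix.of_apply, der_eq_sum hs (D a) (u b)]
  refine Finset.sum_congr rfl fun i _ => ?_
  rw [Matrix.of_apply, Matrix.of_apply, mul_comm]

variable {N' : Type*} [Field N'] [Algebra Z N'] [Algebra N N'] [IsScalarTower Z N N']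

theorem jac_map {s : Fin r → N} (hs : IsTranscendenceBasis Z s)
    (hs' : IsTranscendenceBasis Z (fun i => algebraMap N N' (s i))) (u : Fin r → N) :
    jac hs' (fun i => algebraMap N N' (u i)) = algebraMap N N' (jac hs u) := by
  rw [jac_eq_det, jac_eq_det, RingHom.map_det]
  congr 1
  ext a b
  rw [RingHom.mapMatrix_apply, Matrix.map_apply, Matrix.of_apply, Matrix.of_apply]
  exact pd_algebraMap hs hs' id Function.injective_id (fun _ => rfl) a (u b)

end FormXAux

open FormXAux

theorem product_ext {Z L N N' : Type*} [Field Z] [CharZero Z] [Field L] [Field N] [Field N']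
    [Algebra Z L] [Algebra Z N] [Algebra Z N'] [Algebra L N] [Algebra N N'] [IsScalarTower Z L N]
    [IsScalarTower Z N N'] [Algebra.IsAlgebraic L N] [Algebra.IsAlgebraic N N'] {r : ℕ}
    {s : Fin r → L} (hs : IsTranscendenceBasis Z s) {u : Fin r → N} {κ g : N} {e : ℕ}
    (h : ∀ D : Fin r → Derivation Z N N, κ * Matrix.det (Matrix.of fun a b => D a (u b)) ^ e =
      g * Matrix.det (Matrix.of fun a b => D a (algebraMap L N (s b))) ^ e)
    (D : Fin r → Derivation Z N' N') :
    algebraMap N N' κ * Matrix.det (Matrix.of fun a b => D a (algebraMap N N' (u b))) ^ e =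
      algebraMap N N' g *
        Matrix.det (Matrix.of fun a b => D a (algebraMap N N' (algebraMap L N (s b)))) ^ e := by
  have hN : IsTranscendenceBasis Z (fun b => algebraMap L N (s b)) := hs.algebraMap_comp
  have hN' : IsTranscendenceBasis Z (fun b => algebraMap N N' (algebraMap L N (s b))) :=
    hN.algebraMap_comp
  have h1 : κ * jac hN u ^ e = g := by
    have h2 := h (fun a => pd hN a)
    rw [det_der hN u, ← jac_eq_det, jac_self, one_mul, one_pow, mul_one] at h2
    exact h2
  rw [det_der hN' (fun b => algebraMap N N' (u b)) D, jac_map hN hN', mul_pow, ← h1, map_mul,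
    map_pow]
  ring

end Pf72953.Pow
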