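import Mathlib
import Pool.Agent.Lib.Pf72953.Norm
import Pool.Agent.Lib.Pf72953u.NormEst
import Pool.Agent.Lib.Pf72953c.BrkA
import Pool.Agent.Lib.Pf72953p.LDefs

/-!
MODULE Pf72953p.NormL: the factor `T` of a logarithmic form can be taken in `P`.

PROOF.  `logDer_ext`: the second half of the proof of `exists_logDer_ext` (Pf72953c/BrkA.lean) works for EVERY valuation `w'` of `N` with `w' (algebraMap z) ≤ 1 ↔ w z ≤ 1` (copy it).
`logForm_of_log`: let `Ω/L` be finite Galois with `N ⊆ Ω` (e.g. `normalClosure`/the Galois closure used in Pf72953u/Main.lean: `Ω = AlgebraicClosure`-free: `∃ Ω` finite Galois over `L` with `IsScalarTower L N Ω`; see how `norm_le_one`, Pf72953u/NormEst.lean, is used in Pf72953u/Main.lean), `d = Module.finrank L Ω ≥ 1`.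
`T₁ = Algebra.norm L (algebraMap N Ω T)`: it is nonzero and `algebraMap L Ω T₁ = ∏ σ, σ (algebraMap N Ω T)` (`Algebra.norm_eq_prod_automorphisms`), a product of elements algebraic over `Z`; so `T₁` is algebraic over `Z` and `T₁ = algebraMap P L T'` (`hP`), `T' ≠ 0`.
Claim: `(n * d, T')` works.  Let `w` be divisorial on `L`, `d_a` logarithmic derivations, `y = G ^ n * det (d_a (s b)) ^ (e * n) ∈ L`.  `T₁ * y ^ d = norm (algebraMap N Ω (T * algebraMap L N y))` (`map_mul`, `Algebra.norm_algebraMap`), which is to have value `≤ 1`: `norm_le_one` with `z = T * algebraMap L N y`: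
for every `w'` of `N` over `w`, `logDer_ext` gives divisoriality and extensions `D_a` of the `d_a`, and `h w'` says `w' (T * G ^ n * det (D_a (algebraMap (s b))) ^ (e * n)) ≤ 1`, `det (D_a (algebraMap (s b))) = algebraMap (det (d_a (s b)))` (`RingHom.map_det`).
Finally `algebraMap T' * G ^ (n * d) * det ^ (e * (n * d)) = T₁ * y ^ d`.
-/

set_option autoImplicit false
set_option linter.style.haveILetI false
set_option linter.unusedSectionVars false

open scoped WithZero
open Pf72953 Pf72953.Mov Pf72953.Can

namespace Pf72953.Pow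

theorem logDer_ext {k Z L N : Type*} [Field k] [CharZero k] [Field Z] [Field L] [Field N]
    [Algebra k Z] [Algebra k L] [Algebra k N] [Algebra Z L] [Algebra Z N] [Algebra L N]
    [IsScalarTower k Z L] [IsScalarTower k L N] [IsScalarTower Z L N]
    [Algebra.EssFiniteType k L] [FiniteDimensional L N] {w : Valuation L ℤᵐ⁰}
    (hw : IsDivisorial k L w) {w' : Valuation N ℤᵐ⁰}
    (hw' : ∀ z : L, w' (algebraMap L N z) ≤ 1 ↔ w z ≤ 1) :
    IsDivisorial k N w' ∧
      ∀ d : Derivation Z L L, (∀ z, w (d z) ≤ w z) → ∃ D : Derivation Z N N,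
        (∀ z : L, D (algebraMap L N z) = algebraMap L N (d z)) ∧ ∀ z, w' (D z) ≤ w' z := by
  classical
  haveI : CharZero L := charZero_of_injective_algebraMap (algebraMap k L).injective
  haveI : Algebra.EssFiniteType L N := inferInstance
  haveI : Algebra.EssFiniteType k N := Algebra.EssFiniteType.comp k L N
  set v := w'.comap (algebraMap L N) with hvdef
  have hv1 : ∀ a : L, v a = 1 ↔ w a = 1 := by
    have := (Valuation.isEquiv_iff_val_le_one (v := v) (v' := w)).mpr (fun {a} => hw' a)
    intro a
    exact (Valuation.isEquiv_iff_val_eq_one.mp this)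
  have hv : IsDivisorial k L v := by
    refine ⟨fun c hc => (hv1 _).mpr (hw.const c hc), ?_, ?_⟩
    · obtain ⟨a, ha0, ha⟩ := hw.nontrivial
      exact ⟨a, ha0, fun h => ha ((hv1 a).mp h)⟩
    · obtain ⟨ξ, hξ⟩ := hw.resid
      exact ⟨ξ, fun p hp => (hv1 _).mpr (hξ p hp)⟩
  have hdim : dimension k N = dimension k L := by
    obtain ⟨s, hs⟩ := exists_isTranscendenceBasis k L
    haveI := finite_of_isTranscendenceBasis hs
    haveI := Fintype.ofFinite s
    have h1 := hs.algebraMap_comp (A := N)
    rw [← card_eq_of_isTranscendenceBasis h1, ← card_eq_of_isTranscendenceBasis hs]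
  have hN : IsDivisorial k N w' := IsDivisorial.of_comap hdim hv
  refine ⟨hN, fun d hd => ?_⟩
  obtain ⟨c, t, ht, hc⟩ := hv.exists_adapted (ι := Fin (dimension k L)) (Fintype.card_fin _)
  have hlogL := hc.logBasis (Fintype.card_fin _)
  have hcN := Adapted.map hc
  have hlogN := hcN.logBasis (by rw [Fintype.card_fin, hdim])
  set D₀ : Derivation k N N := ∑ j, algebraMap L N (d (c j)) • pd hlogN.tb j with hD₀
  have hD₀z : ∀ z : N, D₀ z = ∑ j, algebraMap L N (d (c j)) * pd hlogN.tb j z := by
    intro z
    rw [hD₀, ← Derivation.coeFnAddMonoidHom_apply, map_sum, Finset.sum_apply]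
    rfl
  have hD₀L : ∀ z : L, D₀ (algebraMap L N z) = algebraMap L N (d z) := by
    intro z
    have h1 := der_eq_sum hlogL.tb (d.restrictScalars k) z
    have h2 : (d.restrictScalars k : Derivation k L L) z = d z := rfl
    rw [h2] at h1
    rw [hD₀z, h1, map_sum]
    refine Finset.sum_congr rfl fun j _ => ?_
    have h3 := pd_algebraMap (L := N) hlogL.tb hlogN.tb id Function.injective_id
      (fun _ => rfl) j z
    rw [id_eq] at h3
    rw [h3, map_mul, mul_comm]
    rfl
  have hker : ∀ b : Z, D₀ (algebraMap Z N b) = 0 := by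
    intro b
    rw [IsScalarTower.algebraMap_apply Z L N, hD₀L, Derivation.map_algebraMap, map_zero]
  refine ⟨derOver D₀ hker, fun z => hD₀L z, fun z => ?_⟩
  rw [derOver_apply, hD₀z]
  refine Valuation.map_sum_le _ fun j _ => ?_
  rw [map_mul]
  have hcj : c j ≠ 0 := hlogL.tb.1.ne_zero j
  have h1 : w' (algebraMap L N (d (c j))) ≤ w' (algebraMap L N (c j)) := by
    have h2 : w (d (c j) / c j) ≤ 1 := by
      rw [map_div₀]
      exact div_le_one_of_le₀ (hd (c j)) zero_le
    have h3 := (hw' _).mpr h2
    have hw0 : w' (algebraMap L N (c j)) ≠ 0 := by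
      rw [Valuation.ne_zero_iff]
      simpa using hcj
    rw [map_div₀, map_div₀] at h3
    calc w' (algebraMap L N (d (c j))) =
        w' (algebraMap L N (d (c j))) / w' (algebraMap L N (c j)) * w' (algebraMap L N (c j)) := by
          rw [div_mul_cancel₀ _ hw0]
      _ ≤ 1 * w' (algebraMap L N (c j)) := by gcongr
      _ = _ := one_mul _
  have h4 := hlogN.der j z
  rw [map_mul] at h4
  exact (mul_le_mul' h1 le_rfl).trans h4

theorem logForm_of_log {k Z P L N : Type*} [Field k] [CharZero k] [Field Z] [Field P] [Field L]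
    [Field N] [Algebra k Z] [Algebra k L] [Algebra k N] [Algebra Z L] [Algebra Z N] [Algebra P L]
    [Algebra L N] [IsScalarTower k Z L] [IsScalarTower k L N] [IsScalarTower Z L N]
    [Algebra.EssFiniteType k L] [FiniteDimensional L N]
    (hP : ∀ z : L, IsAlgebraic Z z → ∃ t : P, algebraMap P L t = z) {r : ℕ} {s : Fin r → L}
    {e : ℕ} {G : L} {n : ℕ} (hn : 1 ≤ n) {T : N} (hT : T ≠ 0) (hTa : IsAlgebraic Z T)
    (h : ∀ w : Valuation N ℤᵐ⁰, IsDivisorial k N w →
      LogAt Z w (fun b => algebraMap L N (s b)) (e * n) (T * algebraMap L N G ^ n)) :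
    LogForm k Z P s e G := by
  classical
  haveI : CharZero Z := charZero_of_injective_algebraMap (algebraMap k Z).injective
  haveI : CharZero L := charZero_of_injective_algebraMap (algebraMap k L).injective
  haveI : CharZero N := charZero_of_injective_algebraMap (algebraMap k N).injective
  let Ω := IntermediateField.normalClosure L N (AlgebraicClosure N)
  haveI : IsAlgClosure L (AlgebraicClosure N) :=
    ⟨inferInstance, Algebra.IsAlgebraic.trans L N (AlgebraicClosure N)⟩
  haveI : Normal L (AlgebraicClosure N) := IsAlgClosure.normal L (AlgebraicClosure N)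
  haveI : Normal L Ω := inferInstance
  haveI : FiniteDimensional L Ω := inferInstance
  haveI : IsGalois L Ω := ⟨⟩
  letI : Algebra Z Ω := ((algebraMap L Ω).comp (algebraMap Z L)).toAlgebra
  haveI : IsScalarTower Z L Ω := IsScalarTower.of_algebraMap_eq fun _ => rfl
  haveI : IsScalarTower Z N Ω := IsScalarTower.of_algebraMap_eq fun z => by
    rw [IsScalarTower.algebraMap_apply Z L Ω, IsScalarTower.algebraMap_apply Z L N,
      ← IsScalarTower.algebraMap_apply L N Ω]
  set d := Module.finrank L Ω with hd
  have hd1 : 1 ≤ d := Module.finrank_pos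
  have hT1 : Algebra.norm L (algebraMap N Ω T) ≠ 0 := by
    rw [Algebra.norm_ne_zero_iff]
    simpa using hT
  have hTalg : IsAlgebraic Z (Algebra.norm L (algebraMap N Ω T)) := by
    have h1 : IsAlgebraic Z (algebraMap L Ω (Algebra.norm L (algebraMap N Ω T))) := by
      rw [Algebra.norm_eq_prod_automorphisms, isAlgebraic_iff_isIntegral]
      refine IsIntegral.prod _ fun σ _ => ?_
      have h2 : IsAlgebraic Z (algebraMap N Ω T) := hTa.algebraMap
      rw [isAlgebraic_iff_isIntegral] at h2
      exact h2.map_of_comp_eq (RingHom.id Z) ((σ : Ω ≃ₐ[L] Ω) : Ω →+* Ω) (by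
        ext z
        simp [IsScalarTower.algebraMap_apply Z L Ω])
    exact (isAlgebraic_algebraMap_iff (algebraMap L Ω).injective).mp h1
  obtain ⟨T', hT'⟩ := hP _ hTalg
  refine ⟨n * d, T', Nat.mul_pos hn hd1, ?_, ?_⟩
  · rintro rfl
    rw [map_zero] at hT'
    exact hT1 hT'.symm
  · intro w hw δ hδ
    set Δ := Matrix.det (Matrix.of fun a b => δ a (s b)) with hΔ
    have hy : algebraMap P L T' * G ^ (n * d) * Δ ^ (e * (n * d))
        = Algebra.norm L (algebraMap N Ω (T * algebraMap L N (G ^ n * Δ ^ (e * n)))) := by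
      rw [map_mul, map_mul, ← IsScalarTower.algebraMap_apply L N Ω, Algebra.norm_algebraMap, hT',
        ← hd, mul_pow, ← pow_mul, ← pow_mul, mul_assoc, mul_assoc e n d]
    rw [hy]
    refine Pf72953.Up.norm_le_one hw.nontrivial fun w' hw' => ?_
    obtain ⟨hdiv, hext⟩ := logDer_ext (Z := Z) (N := N) hw hw'
    choose D hD1 hD2 using fun a => hext (δ a) (hδ a)
    have h2 := h w' hdiv D hD2
    have h3 : Matrix.det (Matrix.of fun a b => D a (algebraMap L N (s b)))
        = algebraMap L N Δ := by
      rw [hΔ, RingHom.map_det]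
      congr 1
      ext a b
      simp [hD1]
    have h4 : algebraMap L N (G ^ n * Δ ^ (e * n))
        = algebraMap L N G ^ n * algebraMap L N Δ ^ (e * n) := by
      rw [map_mul, map_pow, map_pow]
    rw [h3, mul_assoc, ← h4] at h2
    exact h2

end Pf72953.Pow
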