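import Mathlib

/-!
MODULE Pf72953p.WeiC: a general member of the pencil `A³ + c B²` (self-contained, polynomials over a field of characteristic zero).

PROOF.  Write `D c = A ^ 3 + C c * B ^ 2`.  It is enough to show that the set of the bad `c : k` is finite (`k` is infinite).
(0) If `D c, D c'` (`c ≠ c'`) both have degree `< 12` then so has `(c - c') B²`, so `natDegree B < 6`, and `A³ = D c - c B²` has degree `< 12`, so `natDegree A < 4`, against `h`: at most one `c` with `natDegree (D c) < 12`.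
(1) For a fixed `α`: if `(X - α)^13` divides `D c` and `D c'`, `c ≠ c'`, then it divides `B²`, so `(X - α)^7 ∣ B` (multiplicities: `2 v(B) ≥ 13`; for `B = 0` clear), and it divides `A³`, so `(X - α)^5 ∣ A`, against `hAB`: at most one `c` for every `α`.
(2) Only finitely many `α` matter.  Let `W = 3 A' B - 2 A B'` (`'` = `derivative`).  With `D = D c`: `D' B² - D (B²)' = (A³)' B² - A³ (B²)' = A² B W`.  If `(X - α)^13 ∣ D` then `(X - α)^12 ∣ D'`, so `(X - α)^12 ∣ A² B W`: if `A² B W ≠ 0`, `α` is one of its finitely many roots; with (1) the set of the bad `c` is finite.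
(3) If `A = 0`: `hAB` says `¬ (X - α)^7 ∣ B` for all `α`, `D c = c B²`: good for all `c ≠ 0`.  If `B = 0`: `D c = A³`, `¬ (X - α)^5 ∣ A`, good for all `c`.  If `A, B ≠ 0`, `W = 0`: let `(X - α)^13 ∣ D = D c ≠ 0`.  `D' B² = D (B²)'`; write `D = (X - α)^a p`, `B² = (X - α)^b q`, `p(α), q(α) ≠ 0`, `a ≥ 13`:
`D' B² - D (B²)' = (X - α)^(a+b-1) ((a - b) p q + (X - α) (p' q - p q')) = 0`, so `a = b` (characteristic zero).  So `(X - α)^13 ∣ B²` and then `∣ A³ = D - c B²`: contradiction as in (1).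
-/

set_option autoImplicit false
set_option linter.style.haveILetI false
set_option linter.unusedSectionVars false

open Polynomial

namespace Pf72953.Pow

namespace WeiCAux

variable {Ω : Type*} [Field Ω]

theorem dvd_of_dvd_pow {A : Polynomial Ω} (α : Ω) {m n r : ℕ} (h : (X - C α) ^ m ∣ A ^ n)
    (hm : (r - 1) * n < m) : (X - C α) ^ r ∣ A := by
  have hp : Prime (X - C α) := prime_X_sub_C α
  rw [pow_dvd_iff_le_emultiplicity, emultiplicity_pow hp] at h
  rw [pow_dvd_iff_le_emultiplicity]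
  by_cases h1 : emultiplicity (X - C α) A = ⊤
  · rw [h1]
    exact le_top
  · obtain ⟨e, he⟩ := ENat.ne_top_iff_exists.1 h1
    rw [← he] at h ⊢
    have h2 : m ≤ n * e := by exact_mod_cast h
    have h3 : r ≤ e := by
      by_contra h4
      have h5 : e ≤ r - 1 := by omega
      have h6 : n * e ≤ n * (r - 1) := Nat.mul_le_mul_left n h5
      rw [mul_comm n (r - 1)] at h6
      omega
    exact_mod_cast h3

theorem exists_gcd {a b : Polynomial Ω} (h : a ≠ 0 ∨ b ≠ 0) :
    ∃ g a' b' : Polynomial Ω, g ≠ 0 ∧ a = g * a' ∧ b = g * b' ∧ IsCoprime a' b' := by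
  classical
  have hg : EuclideanDomain.gcd a b ≠ 0 := by
    intro h1
    rw [EuclideanDomain.gcd_eq_zero_iff] at h1
    rcases h with h | h
    · exact h h1.1
    · exact h h1.2
  obtain ⟨a', ha'⟩ := EuclideanDomain.gcd_dvd_left a b
  obtain ⟨b', hb'⟩ := EuclideanDomain.gcd_dvd_right a b
  refine ⟨EuclideanDomain.gcd a b, a', b', hg, ha', hb', ?_⟩
  have h1 := EuclideanDomain.gcd_eq_gcd_ab a b
  refine ⟨EuclideanDomain.gcdA a b, EuclideanDomain.gcdB a b, ?_⟩
  apply mul_left_cancel₀ hg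
  calc EuclideanDomain.gcd a b * (EuclideanDomain.gcdA a b * a' + EuclideanDomain.gcdB a b * b')
      = (EuclideanDomain.gcd a b * a') * EuclideanDomain.gcdA a b +
        (EuclideanDomain.gcd a b * b') * EuclideanDomain.gcdB a b := by ring
    _ = a * EuclideanDomain.gcdA a b + b * EuclideanDomain.gcdB a b := by rw [← ha', ← hb']
    _ = EuclideanDomain.gcd a b * 1 := by rw [← h1, mul_one]

end WeiCAux

theorem exists_c {k Ω : Type*} [Field k] [Infinite k] [Field Ω] [CharZero Ω] [Algebra k Ω]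
    {A B : Polynomial Ω} (h : 4 ≤ A.natDegree ∨ 6 ≤ B.natDegree)
    (hAB : ∀ α : Ω, ¬ ((X - C α) ^ 5 ∣ A ∧ (X - C α) ^ 7 ∣ B)) :
    ∃ c : k, 12 ≤ (A ^ 3 + C (algebraMap k Ω c) * B ^ 2).natDegree ∧
      ∀ α : Ω, ¬ (X - C α) ^ 13 ∣ A ^ 3 + C (algebraMap k Ω c) * B ^ 2 := by
  classical
  obtain ⟨D, hD⟩ : ∃ D : k → Polynomial Ω, ∀ c, D c = A ^ 3 + C (algebraMap k Ω c) * B ^ 2 :=
    ⟨_, fun _ => rfl⟩
  simp only [← hD]
  by_contra hcon
  push Not at hcon
  have hinj := (algebraMap k Ω).injective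
  -- the pencil
  have hsub : ∀ c c' : k, D c - D c' = C (algebraMap k Ω (c - c')) * B ^ 2 := by
    intro c c'
    rw [hD, hD, map_sub, C_sub]
    ring
  have hne : ∀ {c c' : k}, c ≠ c' → algebraMap k Ω (c - c') ≠ 0 := by
    intro c c' h1 h2
    exact h1 (sub_eq_zero.1 (hinj (h2.trans (map_zero _).symm)))
  -- at most one member of small degree
  have h0 : ∀ c c' : k, c ≠ c' → ¬ ((D c).natDegree < 12 ∧ (D c').natDegree < 12) := by
    rintro c c' hcc ⟨hc, hc'⟩
    have h1 : (C (algebraMap k Ω (c - c')) * B ^ 2).natDegree < 12 := by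
      rw [← hsub]
      exact (natDegree_sub_le _ _).trans_lt (max_lt hc hc')
    rw [natDegree_C_mul (hne hcc), natDegree_pow] at h1
    have h2 : (A ^ 3).natDegree < 12 := by
      have h3 : A ^ 3 = D c - C (algebraMap k Ω c) * B ^ 2 := by
        rw [hD]
        ring
      rw [h3]
      refine (natDegree_sub_le _ _).trans_lt (max_lt hc ?_)
      refine (natDegree_C_mul_le _ _).trans_lt ?_
      rw [natDegree_pow]
      exact h1
    rw [natDegree_pow] at h2
    omega
  -- no point of multiplicity `13` for both polynomials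
  have h1 : ∀ α : Ω, ¬ ((X - C α) ^ 13 ∣ A ^ 3 ∧ (X - C α) ^ 13 ∣ B ^ 2) := by
    rintro α ⟨hA, hB⟩
    refine hAB α ⟨?_, ?_⟩
    · exact WeiCAux.dvd_of_dvd_pow α hA (by norm_num)
    · exact WeiCAux.dvd_of_dvd_pow α hB (by norm_num)
  have h2 : ∀ (α : Ω) (c c' : k), c ≠ c' → (X - C α) ^ 13 ∣ D c → (X - C α) ^ 13 ∣ D c' →
      False := by
    intro α c c' hcc hc hc'
    have h3 : (X - C α) ^ 13 ∣ B ^ 2 := by
      have h4 := dvd_sub hc hc'
      rw [hsub] at h4
      exact (IsUnit.dvd_mul_left (isUnit_C.2 (hne hcc).isUnit)).1 h4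
    refine h1 α ⟨?_, h3⟩
    have h5 : A ^ 3 = D c - C (algebraMap k Ω c) * B ^ 2 := by
      rw [hD]
      ring
    rw [h5]
    exact dvd_sub hc (h3.mul_left _)
  -- a point for all parameters but one
  have h3 : ∃ c₀ : k, ∀ c, c ≠ c₀ → 12 ≤ (D c).natDegree := by
    by_cases h4 : ∃ c₀ : k, (D c₀).natDegree < 12
    · obtain ⟨c₀, hc₀⟩ := h4
      refine ⟨c₀, fun c hc => ?_⟩
      by_contra h5
      exact h0 c c₀ hc ⟨not_le.1 h5, hc₀⟩
    · push Not at h4
      exact ⟨0, fun c _ => h4 c⟩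
  obtain ⟨c₀, hc₀⟩ := h3
  have h4 : ∀ c : {c : k // c ≠ c₀}, ∃ α : Ω, (X - C α) ^ 13 ∣ D c := fun c =>
    hcon c (hc₀ c c.2)
  choose α hα using h4
  haveI : Infinite {c : k // c ≠ c₀} := by
    have h5 : ({c₀}ᶜ : Set k).Infinite := (Set.finite_singleton c₀).infinite_compl
    exact h5.to_subtype
  have hαinj : Function.Injective α := by
    intro c c' hcc
    by_contra h5
    have h6 := hα c'
    rw [← hcc] at h6
    exact h2 (α c) c c' (fun h7 => h5 (Subtype.ext h7)) (hα c) h6
  -- the Wronskian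
  have hw : ∀ c : k, wronskian (D c) (B ^ 2) = wronskian (A ^ 3) (B ^ 2) := by
    intro c
    rw [hD, wronskian_add_left]
    have h5 : wronskian (C (algebraMap k Ω c) * B ^ 2) (B ^ 2) = 0 := by
      rw [wronskian, derivative_C_mul]
      ring
    rw [h5, add_zero]
  by_cases hw0 : wronskian (A ^ 3) (B ^ 2) = 0
  · -- `A ^ 3` and `B ^ 2` are proportional
    have hg0 : A ^ 3 ≠ 0 ∨ B ^ 2 ≠ 0 := by
      rcases h with h | h
      · refine Or.inl (pow_ne_zero _ fun h5 => ?_)
        rw [h5, natDegree_zero] at h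
        omega
      · refine Or.inr (pow_ne_zero _ fun h5 => ?_)
        rw [h5, natDegree_zero] at h
        omega
    obtain ⟨g, a, b, hg, hga, hgb, hab⟩ := WeiCAux.exists_gcd hg0
    have h5 : wronskian a b = 0 := by
      have h6 : wronskian (A ^ 3) (B ^ 2) = g ^ 2 * wronskian a b := by
        rw [hga, hgb, wronskian, wronskian, derivative_mul, derivative_mul]
        ring
      rw [h6] at hw0
      exact (mul_eq_zero.1 hw0).resolve_left (pow_ne_zero _ hg)
    rw [hab.wronskian_eq_zero_iff] at h5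
    have ha := eq_C_of_derivative_eq_zero h5.1
    have hb := eq_C_of_derivative_eq_zero h5.2
    obtain ⟨c⟩ : Nonempty {c : k // c ≠ c₀} := inferInstance
    have h6 : D c = C (a.coeff 0 + algebraMap k Ω c * b.coeff 0) * g := by
      rw [hD, hga, hgb, C_add, C_mul]
      nth_rewrite 1 [ha]
      nth_rewrite 1 [hb]
      ring
    have h7 : a.coeff 0 + algebraMap k Ω c * b.coeff 0 ≠ 0 := by
      intro h8
      have h9 := hc₀ c c.2
      rw [h6, h8, C_0, zero_mul, natDegree_zero] at h9
      omega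
    have h8 := hα c
    rw [h6] at h8
    have h9 : (X - C (α c)) ^ 13 ∣ g := (IsUnit.dvd_mul_left (isUnit_C.2 h7.isUnit)).1 h8
    exact h1 (α c) ⟨by rw [hga]; exact h9.mul_right _, by rw [hgb]; exact h9.mul_right _⟩
  · -- the points are roots of the Wronskian
    have h5 : ∀ c, α c ∈ (wronskian (A ^ 3) (B ^ 2)).roots.toFinset := by
      intro c
      rw [Multiset.mem_toFinset, mem_roots hw0, ← dvd_iff_isRoot, ← hw c, wronskian]
      obtain ⟨q, hq⟩ := hα c
      have h6 : X - C (α c) ∣ derivative (D c) := by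
        rw [hq, derivative_mul, derivative_X_sub_C_pow]
        refine dvd_add ?_ ?_
        · refine Dvd.dvd.mul_right ?_ _
          exact (dvd_pow_self _ (by norm_num)).mul_left _
        · exact (dvd_pow_self _ (by norm_num)).mul_right _
      have h7 : X - C (α c) ∣ D c := (dvd_pow_self _ (by norm_num)).trans (hα c)
      exact dvd_sub (h7.mul_right _) (h6.mul_right _)
    have h6 : Finite {c : k // c ≠ c₀} :=
      Finite.of_injective (β := (wronskian (A ^ 3) (B ^ 2)).roots.toFinset)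
        (fun c => ⟨α c, h5 c⟩) (fun c c' hcc => hαinj (congrArg Subtype.val hcc))
    exact not_finite {c : k // c ≠ c₀}

end Pf72953.Pow
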