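import Mathlib

/-!
MODULE Pf72953p.WeiP: the roots of a binary form of degree 24 are divided into 12 pairs of different points (self-contained).

PROOF.  `D ≠ 0` (`h12`), `m = D.natDegree`, the multiset `D.roots` has `m` elements (`IsAlgClosed.splits`), `D = C D.leadingCoeff * (D.roots.map (X - C ·)).prod`.  Every root is algebraic over `Z` (algebraic over the algebraic closure of `Z` in `Ω`, which contains the coefficients:
`isAlgebraic` is transitive; e.g. `IsAlgebraic.of_...`/ work with `integralClosure Z Ω` or `algebraicClosure`), the leading coefficient too.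
Points of `ℙ¹`: `p : Fin 24 → Option Ω`, the `m` roots and `24 - m` times `none` (the point at infinity).  Every value is taken at most `12` times: `none` because `12 ≤ m`, `some α` because the multiplicity of the root is `≤ 12` (`hm`; `Polynomial.le_rootMultiplicity_iff`, `count_roots`).
Choose a linear order on `Option Ω` (any: `linearOrderOfSTO WellOrderingRel`, or order the values through an injection), sort `p` (`Tuple.sort`, monotone: `p' = p ∘ σ`).  Then `p' i ≠ p' (i + 12)` for `i < 12`: otherwise `p' i = p' (i+1) = ⋯ = p' (i+12)`, 13 times the same value.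
The linear forms: `(1, -α)` for `some α`, `(0, 1)` for `none`; `a i` the form of `p' i` (multiply `a 0` by the leading coefficient), `b i` the form of `p' (i + 12)`.  The bracket of the forms of two different points is `β - α` or `±1`, times a nonzero constant.
-/

set_option autoImplicit false
set_option linter.style.haveILetI false
set_option linter.unusedSectionVars false

open Polynomial

namespace Pf72953.Pow

namespace WeiPAux

theorem exists_tuple {α : Type*} (M : Multiset α) {n : ℕ} (h : Multiset.card M = n) :
    ∃ p : Fin n → α, Finset.univ.val.map p = M := by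
  have hl : M.toList.length = n := by rw [Multiset.length_toList, h]
  subst hl
  refine ⟨M.toList.get, ?_⟩
  rw [Fin.univ_val_map, List.ofFn_get, Multiset.coe_toList]

/-- The linear form of a point of the projective line. -/
noncomputable def frm {Ω : Type*} [Field Ω] : Option Ω → Fin 2 → Ω
  | some α => ![1, -α]
  | none => ![0, 1]

/-- The polynomial of a linear form. -/
noncomputable def pol {Ω : Type*} [Field Ω] (f : Fin 2 → Ω) : Polynomial Ω := C (f 0) * X + C (f 1)

theorem pol_some {Ω : Type*} [Field Ω] (α : Ω) : pol (frm (some α)) = X - C α := by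
  simp [pol, frm, sub_eq_add_neg]

theorem pol_none {Ω : Type*} [Field Ω] : pol (frm (none : Option Ω)) = 1 := by
  simp [pol, frm]

theorem pol_smul {Ω : Type*} [Field Ω] (c : Ω) (f : Fin 2 → Ω) :
    pol (fun j => c * f j) = C c * pol f := by
  simp only [pol, C_mul]; ring

theorem bracket_ne {Ω : Type*} [Field Ω] {P P' : Option Ω} (h : P ≠ P') :
    frm P 0 * frm P' 1 - frm P 1 * frm P' 0 ≠ 0 := by
  rcases P with _ | α <;> rcases P' with _ | β
  · exact absurd rfl h
  · simp [frm]
  · simp [frm]
  · have h1 : α ≠ β := fun h' => h (by rw [h'])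
    simp only [frm, Matrix.cons_val_zero, Matrix.cons_val_one, one_mul, mul_one, sub_neg_eq_add]
    intro h2
    exact h1 (by linear_combination h2)

theorem algebraic_root {Z Ω : Type*} [Field Z] [Field Ω] [Algebra Z Ω] {D : Polynomial Ω}
    (hD : ∀ i, IsAlgebraic Z (D.coeff i)) (h0 : D ≠ 0) {α : Ω} (hα : D.eval α = 0) :
    IsAlgebraic Z α := by
  have h1 : D ∈ Polynomial.lifts (algebraMap (algebraicClosure Z Ω) Ω) := by
    rw [Polynomial.lifts_iff_coeff_lifts]
    intro i
    exact ⟨⟨D.coeff i, mem_algebraicClosure_iff.2 (hD i)⟩, rfl⟩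
  obtain ⟨D', hD'⟩ := (Polynomial.mem_lifts _).1 h1
  have h2 : D' ≠ 0 := by
    rintro rfl
    exact h0 (by rw [← hD', Polynomial.map_zero])
  have h3 : IsAlgebraic (algebraicClosure Z Ω) α := by
    refine ⟨D', h2, ?_⟩
    rw [Polynomial.aeval_def, ← Polynomial.eval_map, hD']
    exact hα
  exact h3.restrictScalars Z

end WeiPAux

open WeiPAux in
theorem exists_pairs {Z Ω : Type*} [Field Z] [Field Ω] [Algebra Z Ω] [IsAlgClosed Ω] {D : Polynomial Ω}
    (hD : ∀ i, IsAlgebraic Z (D.coeff i)) (h24 : D.natDegree ≤ 24) (h12 : 12 ≤ D.natDegree)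
    (hm : ∀ α : Ω, ¬ (X - C α) ^ 13 ∣ D) :
    ∃ a b : Fin 12 → Fin 2 → Ω, (∀ i j, IsAlgebraic Z (a i j)) ∧ (∀ i j, IsAlgebraic Z (b i j)) ∧
      (∀ i, a i 0 * b i 1 - a i 1 * b i 0 ≠ 0) ∧
      D = ∏ i, ((C (a i 0) * X + C (a i 1)) * (C (b i 0) * X + C (b i 1))) := by
  classical
  have h0 : D ≠ 0 := by
    rintro rfl
    simp at h12
  have hs := IsAlgClosed.splits D
  have hcard : Multiset.card D.roots = D.natDegree := hs.natDegree_eq_card_roots.symm
  have hprod : D = C D.leadingCoeff * (D.roots.map (fun a => X - C a)).prod := hs.eq_prod_roots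
  have hlc : D.leadingCoeff ≠ 0 := by simpa using h0
  set M : Multiset (Option Ω) := D.roots.map some + Multiset.replicate (24 - D.natDegree) none
    with hM
  have hMc : Multiset.card M = 12 + 12 := by
    rw [hM, Multiset.card_add, Multiset.card_map, Multiset.card_replicate, hcard]; omega
  have hcount : ∀ v, M.count v ≤ 12 := by
    intro v
    rcases v with _ | α
    · have h1 : Multiset.count none (D.roots.map some) = 0 := by
        rw [Multiset.count_eq_zero]
        simp
      rw [hM, Multiset.count_add, h1, Multiset.count_replicate_self]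
      omega
    · have h1 : Multiset.count (some α) (Multiset.replicate (24 - D.natDegree) (none : Option Ω)) = 0 := by
        rw [Multiset.count_eq_zero]
        intro h
        have := Multiset.eq_of_mem_replicate h
        exact absurd this (by simp)
      rw [hM, Multiset.count_add, h1, add_zero,
        Multiset.count_map_eq_count' _ _ (Option.some_injective Ω), Polynomial.count_roots]
      by_contra h2
      push Not at h2
      exact hm α ((Polynomial.le_rootMultiplicity_iff h0).1 h2)
  obtain ⟨p0, hp0⟩ := exists_tuple M hMc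
  letI : LinearOrder (Option Ω) := IsWellOrder.linearOrder WellOrderingRel
  set p : Fin (12 + 12) → Option Ω := p0 ∘ Tuple.sort p0 with hp
  have hmono : Monotone p := Tuple.monotone_sort p0
  have hpM : Finset.univ.val.map p = M := by
    rw [← hp0, hp, ← Multiset.map_map]
    congr 1
    exact Multiset.map_univ_val_equiv (Tuple.sort p0)
  have hne : ∀ i : Fin 12, p (Fin.castAdd 12 i) ≠ p (Fin.natAdd 12 i) := by
    intro i hi
    have h1 : M.count (p (Fin.castAdd 12 i)) ≤ 12 := hcount _
    rw [← hpM, Multiset.count_map] at h1
    have h2 : (Finset.univ.filter (fun a => p (Fin.castAdd 12 i) = p a)).card ≤ 12 := h1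
    have h3 : (Finset.Icc (Fin.castAdd 12 i) (Fin.natAdd 12 i)) ⊆
        Finset.univ.filter (fun a => p (Fin.castAdd 12 i) = p a) := by
      intro a ha
      rw [Finset.mem_Icc] at ha
      simp only [Finset.mem_filter, Finset.mem_univ, true_and]
      refine le_antisymm (hmono ha.1) ?_
      rw [hi]
      exact hmono ha.2
    have h4 := (Finset.card_le_card h3).trans h2
    rw [Fin.card_Icc] at h4
    simp only [Fin.val_natAdd, Fin.val_castAdd] at h4
    omega
  have halg : ∀ v ∈ M, ∀ j, IsAlgebraic Z (frm v j) := by
    intro v hv j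
    rcases v with _ | α
    · fin_cases j
      · simpa [frm] using (isAlgebraic_zero : IsAlgebraic Z (0 : Ω))
      · simpa [frm] using (isAlgebraic_one : IsAlgebraic Z (1 : Ω))
    · have h1 : α ∈ D.roots := by
        rw [hM, Multiset.mem_add] at hv
        rcases hv with hv | hv
        · rw [Multiset.mem_map] at hv
          obtain ⟨β, hβ, hβ'⟩ := hv
          rw [← Option.some_injective Ω hβ']; exact hβ
        · exact absurd (Multiset.eq_of_mem_replicate hv) (by simp)
      have h2 : IsAlgebraic Z α := algebraic_root hD h0 ((Polynomial.mem_roots h0).1 h1)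
      fin_cases j
      · simpa [frm] using (isAlgebraic_one : IsAlgebraic Z (1 : Ω))
      · simpa [frm] using h2.neg
  have hpmem : ∀ i, p i ∈ M := by
    intro i
    rw [← hpM]
    exact Multiset.mem_map.2 ⟨i, Finset.mem_univ i, rfl⟩
  set c : Fin 12 → Ω := fun i => if i = 0 then D.leadingCoeff else 1 with hc
  have hc0 : ∀ i, c i ≠ 0 := by
    intro i
    simp only [hc]
    split_ifs
    · exact hlc
    · exact one_ne_zero
  have hca : ∀ i, IsAlgebraic Z (c i) := by
    intro i
    simp only [hc]
    split_ifs
    · exact hD _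
    · exact isAlgebraic_one
  have hcp : ∏ i, c i = D.leadingCoeff := by
    simp [hc]
  have hprodM : (M.map (fun v => pol (frm v))).prod = (D.roots.map (fun a => X - C a)).prod := by
    rw [hM, Multiset.map_add, Multiset.prod_add, Multiset.map_map, Multiset.map_replicate, pol_none,
      Multiset.prod_replicate, one_pow, mul_one]
    congr 1
    exact Multiset.map_congr rfl (fun a _ => pol_some a)
  refine ⟨fun i j => c i * frm (p (Fin.castAdd 12 i)) j, fun i => frm (p (Fin.natAdd 12 i)), ?_, ?_,
    ?_, ?_⟩
  · intro i j
    exact (hca i).mul (halg _ (hpmem _) j)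
  · intro i j
    exact halg _ (hpmem _) j
  · intro i
    have h1 := bracket_ne (hne i)
    have h2 := mul_ne_zero (hc0 i) h1
    intro h3
    apply h2
    rw [← h3]; ring
  · have h1 : ∀ i : Fin 12, (C (c i * frm (p (Fin.castAdd 12 i)) 0) * X +
        C (c i * frm (p (Fin.castAdd 12 i)) 1)) *
        (C (frm (p (Fin.natAdd 12 i)) 0) * X + C (frm (p (Fin.natAdd 12 i)) 1)) =
        C (c i) * (pol (frm (p (Fin.castAdd 12 i))) * pol (frm (p (Fin.natAdd 12 i)))) := by
      intro i
      simp only [pol, C_mul]; ring
    rw [Finset.prod_congr rfl (fun i _ => h1 i), Finset.prod_mul_distrib, Finset.prod_mul_distrib,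
      ← map_prod, hcp, ← Fin.prod_univ_add (fun i => pol (frm (p i)))]
    have h2 : (∏ i, pol (frm (p i))) = (M.map (fun v => pol (frm v))).prod := by
      rw [← hpM, Multiset.map_map]; rfl
    rw [h2, hprodM]
    exact hprod

end Pf72953.Pow
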