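import Mathlib
import Pool.Agent.Lib.Pf72953p.WeiC
import Pool.Agent.Lib.Pf72953p.WeiP

/-!
MODULE Pf72953p.WeiD: the data of a Weierstrass fibration over an algebraically closed field.

PROOF.  `exists_c` (WeiC.lean) gives `c`; `D = A³ + c B²` has degree `≤ 24` and coefficients algebraic over `Z` (`algebraMap k Ω c` is the image of an element of `Z`: `IsScalarTower k Z Ω`; sums and products of algebraic elements; `Polynomial.coeff_mul`, or: the coefficients lie in the subfield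
`algebraicClosure`/`integralClosure Z Ω`, over which `A, B` are defined): `exists_pairs` (WeiP.lean).  `X³ + A(t) X + B(t)` has degree 3 and splits: roots `ε 0, ε 1, ε 2` with `X³ + A(t) X + B(t) = (X - ε 0) (X - ε 1) (X - ε 2)` (`IsAlgClosed.splits`, `card_roots = 3`, `Multiset.card_eq_three`); compare coefficients.
-/

set_option autoImplicit false
set_option linter.style.haveILetI false
set_option linter.unusedSectionVars false

open Polynomial

namespace Pf72953.Pow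

private lemma wei_root3 {Ω : Type*} [Field Ω] [IsAlgClosed Ω] (a b : Ω) :
    ∃ x : Ω, x ^ 3 + a * x + b = 0 := by
  obtain ⟨x, hx⟩ := IsAlgClosed.exists_root (X ^ 3 + C a * X + C b : Polynomial Ω) (by
    have h : (X ^ 3 + C a * X + C b : Polynomial Ω).degree = 3 := by compute_degree!
    rw [h]
    decide)
  refine ⟨x, ?_⟩
  simpa [IsRoot] using hx

private lemma wei_root2 {Ω : Type*} [Field Ω] [IsAlgClosed Ω] (a b : Ω) :
    ∃ x : Ω, x ^ 2 + a * x + b = 0 := by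
  obtain ⟨x, hx⟩ := IsAlgClosed.exists_root (X ^ 2 + C a * X + C b : Polynomial Ω) (by
    have h : (X ^ 2 + C a * X + C b : Polynomial Ω).degree = 2 := by compute_degree!
    rw [h]
    decide)
  refine ⟨x, ?_⟩
  simpa [IsRoot] using hx

private lemma wei_alg_mul {Z Ω : Type*} [Field Z] [Field Ω] [Algebra Z Ω] {P Q : Polynomial Ω}
    (hP : ∀ i, IsAlgebraic Z (P.coeff i)) (hQ : ∀ i, IsAlgebraic Z (Q.coeff i)) :
    ∀ i, IsAlgebraic Z ((P * Q).coeff i) := by
  intro i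
  rw [isAlgebraic_iff_isIntegral, coeff_mul]
  refine IsIntegral.sum _ fun x _ => ?_
  exact (hP x.1).isIntegral.mul (hQ x.2).isIntegral

private lemma wei_alg_add {Z Ω : Type*} [Field Z] [Field Ω] [Algebra Z Ω] {P Q : Polynomial Ω}
    (hP : ∀ i, IsAlgebraic Z (P.coeff i)) (hQ : ∀ i, IsAlgebraic Z (Q.coeff i)) :
    ∀ i, IsAlgebraic Z ((P + Q).coeff i) := by
  intro i
  rw [isAlgebraic_iff_isIntegral, coeff_add]
  exact (hP i).isIntegral.add (hQ i).isIntegral

theorem wei_data {k Z Ω : Type*} [Field k] [Infinite k] [Field Z] [Field Ω] [CharZero Ω]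
    [Algebra k Z] [Algebra k Ω] [Algebra Z Ω] [IsScalarTower k Z Ω] [IsAlgClosed Ω] (t : Ω)
    {A B : Polynomial Ω} (hA : ∀ i, IsAlgebraic Z (A.coeff i)) (hB : ∀ i, IsAlgebraic Z (B.coeff i))
    (hA8 : A.natDegree ≤ 8) (hB12 : B.natDegree ≤ 12) (h : 4 ≤ A.natDegree ∨ 6 ≤ B.natDegree)
    (hAB : ∀ α : Ω, ¬ ((X - C α) ^ 5 ∣ A ∧ (X - C α) ^ 7 ∣ B)) :
    ∃ (c : k) (ε : Fin 3 → Ω) (a b : Fin 12 → Fin 2 → Ω), ε 0 + ε 1 + ε 2 = 0 ∧
      ε 0 * ε 1 + ε 0 * ε 2 + ε 1 * ε 2 = A.eval t ∧ ε 0 * ε 1 * ε 2 = -B.eval t ∧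
      (∀ i j, IsAlgebraic Z (a i j)) ∧ (∀ i j, IsAlgebraic Z (b i j)) ∧
      (∀ i, a i 0 * b i 1 - a i 1 * b i 0 ≠ 0) ∧
      A ^ 3 + C (algebraMap k Ω c) * B ^ 2 =
        ∏ i, ((C (a i 0) * X + C (a i 1)) * (C (b i 0) * X + C (b i 1))) := by
  obtain ⟨c, hc12, hc13⟩ := exists_c (k := k) h hAB
  have hCc : ∀ i, IsAlgebraic Z ((C (algebraMap k Ω c) : Polynomial Ω).coeff i) := by
    intro i
    rw [coeff_C]
    by_cases hi : i = 0
    · rw [if_pos hi, IsScalarTower.algebraMap_apply k Z Ω]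
      exact isAlgebraic_algebraMap _
    · rw [if_neg hi]
      exact isAlgebraic_zero
  have hA3 : ∀ i, IsAlgebraic Z ((A ^ 3).coeff i) := by
    rw [pow_succ, pow_succ, pow_one]
    exact wei_alg_mul (wei_alg_mul hA hA) hA
  have hB2 : ∀ i, IsAlgebraic Z ((B ^ 2).coeff i) := by
    rw [pow_succ, pow_one]
    exact wei_alg_mul hB hB
  have hD := wei_alg_add hA3 (wei_alg_mul hCc hB2)
  have h24 : (A ^ 3 + C (algebraMap k Ω c) * B ^ 2).natDegree ≤ 24 := by
    refine (natDegree_add_le _ _).trans (max_le ?_ ?_)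
    · exact natDegree_pow_le.trans (by omega)
    · exact (natDegree_C_mul_le _ _).trans (natDegree_pow_le.trans (by omega))
  obtain ⟨a, b, h1, h2, h3, h4⟩ := exists_pairs hD h24 hc12 hc13
  obtain ⟨e0, he0⟩ := wei_root3 (A.eval t) (B.eval t)
  obtain ⟨e1, he1⟩ := wei_root2 e0 (A.eval t + e0 ^ 2)
  refine ⟨c, ![e0, e1, -e0 - e1], a, b, ?_, ?_, ?_, h1, h2, h3, h4⟩
  · show e0 + e1 + (-e0 - e1) = 0
    ring
  · show e0 * e1 + e0 * (-e0 - e1) + e1 * (-e0 - e1) = A.eval t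
    linear_combination (-1 : Ω) * he1
  · show e0 * e1 * (-e0 - e1) = -B.eval t
    linear_combination he0 - e0 * he1

end Pf72953.Pow
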