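import Mathlib
import Pool.Agent.Lib.Pf72953p.BlkProd
import Pool.Agent.Lib.Pf72953p.BlkArr
import Pool.Agent.Lib.Pf72953p.BlkWei
import Pool.Agent.Lib.Pf72953p.WeiD
import Pool.Agent.Lib.Pf72953p.FormX
import Pool.Agent.Lib.Pf72953p.NormL

/-!
The form of a product of arrangements and Weierstrass fibrations is logarithmic.
-/

set_option autoImplicit false
set_option linter.style.haveILetI false
set_option linter.unusedSectionVars false

open scoped WithZero
open Pf72953 Pf72953.Can Polynomial

namespace Pf72953.Pow

universe u v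

namespace BlkMainAux

theorem root_range {N Ω : Type*} [Field N] [Field Ω] [Algebra N Ω] {F : Polynomial N}
    (hF : F.Splits) (hF0 : F ≠ 0) {α : Ω} (h : (F.map (algebraMap N Ω)).IsRoot α) :
    ∃ β : N, algebraMap N Ω β = α := by
  have h1 : α ∈ (F.map (algebraMap N Ω)).roots := by
    rw [mem_roots (map_ne_zero hF0)]
    exact h
  rw [hF.roots_map] at h1
  obtain ⟨β, -, hβ⟩ := Multiset.mem_map.mp h1
  exact ⟨β, hβ⟩

theorem dvd_down {N Ω : Type*} [Field N] [Field Ω] [Algebra N Ω] {F : Polynomial N} {β : N}
    {m : ℕ} (h : (X - C (algebraMap N Ω β)) ^ m ∣ F.map (algebraMap N Ω)) :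
    (X - C β) ^ m ∣ F := by
  have h1 : ((X - C β) ^ m).map (algebraMap N Ω) ∣ F.map (algebraMap N Ω) := by
    simpa using h
  exact (map_dvd_map' (algebraMap N Ω)).mp h1

theorem der_alg {Z N : Type*} [Field Z] [CharZero Z] [Field N] [Algebra Z N]
    (D : Derivation Z N N) {b : N} (hb : IsAlgebraic Z b) : D b = 0 := by
  have hbi : IsIntegral Z b := hb.isIntegral
  have hsep : (minpoly Z b).Separable := (minpoly.irreducible hbi).separable
  have h1 : D (Polynomial.aeval b (minpoly Z b)) =
      Polynomial.aeval b (Polynomial.derivative (minpoly Z b)) • D b :=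
    Derivation.map_aeval D (minpoly Z b) b
  rw [minpoly.aeval, map_zero] at h1
  have h2 : Polynomial.aeval b (Polynomial.derivative (minpoly Z b)) ≠ 0 := by
    intro h0
    obtain ⟨u, v, huv⟩ := hsep
    have := congrArg (Polynomial.aeval b) huv
    rw [map_add, map_mul, map_mul, h0, minpoly.aeval, mul_zero, mul_zero, add_zero, map_one] at this
    exact zero_ne_one this
  rcases smul_eq_zero.mp h1.symm with h | h
  · exact absurd h h2
  · exact h

/-- an element of the extension which is algebraic over `Z` in the big field is so in the small field -/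
theorem alg_down {Z N' Ω : Type*} [Field Z] [Field N'] [Field Ω] [Algebra Z N'] [Algebra Z Ω]
    [Algebra N' Ω] [IsScalarTower Z N' Ω] {z : N'} (h : IsAlgebraic Z (algebraMap N' Ω z)) :
    IsAlgebraic Z z :=
  (isAlgebraic_algebraMap_iff (algebraMap N' Ω).injective).mp h

/-- the data of a block in a finite extension -/
theorem block_local {k Z : Type v} {N Ω : Type u} [Field k] [CharZero k] [Field Z] [CharZero Z] [Field N]
    [Field Ω] [Algebra k Z] [Algebra k N] [Algebra k Ω] [Algebra Z N] [Algebra Z Ω] [Algebra N Ω]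
    [IsScalarTower k Z N] [IsScalarTower k Z Ω] [IsScalarTower k N Ω] [IsScalarTower Z N Ω]
    [IsAlgClosed Ω] [Algebra.IsAlgebraic N Ω] [Algebra.EssFiniteType Z N] {e : ℕ} {X₀ : Block N}
    (hX : X₀.IsArrangement Z e ∨ X₀.IsWeierstrass Z e) (hΦ : X₀.Φ ≠ 0) (he : 1 ≤ e)
    (ht : ∀ b, Transcendental Z (X₀.u b)) :
    ∃ S : Set Ω, S.Finite ∧
      ∀ (N' : Type u) [Field N'] [Algebra k N'] [Algebra Z N']
      [Algebra N N'] [Algebra N' Ω] [IsScalarTower k N N'] [IsScalarTower Z N N']
      [IsScalarTower N N' Ω] [FiniteDimensional N N'], S ⊆ Set.range (algebraMap N' Ω) →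
      ∃ T : N', T ≠ 0 ∧ IsAlgebraic Z T ∧
        LogBlock k Z (Fin e × Fin 12) (fun b => algebraMap N N' (X₀.u b))
          (algebraMap N N' X₀.Φ ^ 12) T := by
  classical
  rcases hX with ⟨H, hHa, hHd, hHΦ⟩ | ⟨t, x, y, A, B, rfl, hy, hA, hB, hA8, hB12, hAs, hBs, h46, hAB⟩
  · refine ⟨∅, Set.finite_empty, ?_⟩
    intro N' _ _ _ _ _ _ _ _ _ _
    have h1 : algebraMap N N' X₀.Φ = ∏ c, ∏ i, ((H c).map (algebraMap N N') i 0 +
        ∑ j : Fin X₀.n, (H c).map (algebraMap N N') i j.succ * algebraMap N N' (X₀.u j)) := by
      rw [hHΦ, map_prod]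
      refine Finset.prod_congr rfl fun c _ => ?_
      rw [map_prod]
      refine Finset.prod_congr rfl fun i _ => ?_
      simp only [map_add, map_sum, map_mul, Matrix.map_apply]
    have h2 := logBlock_arr (k := k) (Z := Z) (N := N') (u := fun b => algebraMap N N' (X₀.u b))
      (H := fun c => (H c).map (algebraMap N N')) (fun c i j => (hHa c i j).algebraMap)
      (Φ := algebraMap N N' X₀.Φ) h1 (by simpa using hΦ) 12
    have hdet : ∀ c, ((H c).map (algebraMap N N')).det = algebraMap N N' (H c).det := fun c => by
      rw [RingHom.map_det]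
      rfl
    refine ⟨_, ?_, ?_, h2⟩
    · refine pow_ne_zero _ (Finset.prod_ne_zero_iff.mpr fun c _ => ?_)
      rw [hdet]
      simpa using hHd c
    · refine IsAlgebraic.pow ?_ 12
      have hdetA : ∀ c, IsIntegral Z ((H c).map (algebraMap N N')).det := fun c =>
        IsIntegral.det fun i j => ((hHa c i j).algebraMap (A := N')).isIntegral
      exact (IsIntegral.prod _ fun c _ => hdetA c).isAlgebraic
  · have ht0 : Transcendental Z t := ht 0
    have hy0 : y ≠ 0 := fun h0 => hΦ (by
      change y ^ e = 0
      rw [h0, zero_pow (by omega)])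
    haveI : CharZero N := charZero_of_injective_algebraMap (algebraMap Z N).injective
    haveI : CharZero Ω := charZero_of_injective_algebraMap (algebraMap N Ω).injective
    haveI : Infinite k := inferInstance
    obtain ⟨c, ε, a, b, h1, h2, h3, ha, hb, hbr, hD⟩ := wei_data (k := k) (Z := Z) (Ω := Ω)
      (algebraMap N Ω t) (A := A.map (algebraMap N Ω)) (B := B.map (algebraMap N Ω))
      (fun i => by rw [coeff_map]; exact (hA i).algebraMap)
      (fun i => by rw [coeff_map]; exact (hB i).algebraMap)
      (by rwa [natDegree_map]) (by rwa [natDegree_map]) (by rwa [natDegree_map, natDegree_map])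
      (by
        rintro α ⟨h5, h7⟩
        obtain ⟨β, rfl⟩ : ∃ β : N, algebraMap N Ω β = α := by
          by_cases hA0 : A = 0
          · have hB0 : B ≠ 0 := by
              rintro rfl
              exact hAB 0 ⟨hA0 ▸ dvd_zero _, dvd_zero _⟩
            refine root_range hBs hB0 ?_
            rw [← dvd_iff_isRoot]
            exact (dvd_pow_self _ (by norm_num)).trans h7
          · refine root_range hAs hA0 ?_
            rw [← dvd_iff_isRoot]
            exact (dvd_pow_self _ (by norm_num)).trans h5
        exact hAB β ⟨dvd_down h5, dvd_down h7⟩)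
    refine ⟨Set.range ε ∪ (Set.range (fun p : Fin 12 × Fin 2 => a p.1 p.2) ∪
      Set.range (fun p : Fin 12 × Fin 2 => b p.1 p.2)), ?_, ?_⟩
    · exact (Set.finite_range _).union ((Set.finite_range _).union (Set.finite_range _))
    intro N' _ _ _ _ _ _ _ _ _ hS
    haveI : IsScalarTower Z N' Ω := IsScalarTower.of_algebraMap_eq fun z => by
      rw [IsScalarTower.algebraMap_apply Z N N', ← IsScalarTower.algebraMap_apply N N' Ω,
        ← IsScalarTower.algebraMap_apply Z N Ω]
    haveI : IsScalarTower k N' Ω := IsScalarTower.of_algebraMap_eq fun z => by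
      rw [IsScalarTower.algebraMap_apply k N N', ← IsScalarTower.algebraMap_apply N N' Ω,
        ← IsScalarTower.algebraMap_apply k N Ω]
    have hinj := (algebraMap N' Ω).injective
    have hε : ∀ i, ∃ z : N', algebraMap N' Ω z = ε i := fun i =>
      hS (Or.inl (Set.mem_range_self i))
    have haN : ∀ i j, ∃ z : N', algebraMap N' Ω z = a i j := fun i j =>
      hS (Or.inr (Or.inl ⟨(i, j), rfl⟩))
    have hbN : ∀ i j, ∃ z : N', algebraMap N' Ω z = b i j := fun i j =>
      hS (Or.inr (Or.inr ⟨(i, j), rfl⟩))
    choose ε' hε' using hε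
    choose a' ha' using haN
    choose b' hb' using hbN
    have hmapt : ∀ F : Polynomial N, (F.map (algebraMap N Ω)).eval (algebraMap N Ω t) =
        algebraMap N' Ω ((F.map (algebraMap N N')).eval (algebraMap N N' t)) := fun F => by
      rw [eval_map_algebraMap, eval_map_algebraMap, aeval_algebraMap_apply, aeval_algebraMap_apply,
        ← IsScalarTower.algebraMap_apply N N' Ω]
    haveI : Algebra.EssFiniteType N N' := inferInstance
    haveI : Algebra.EssFiniteType Z N' := Algebra.EssFiniteType.comp Z N N'
    have key := logBlock_wei (k := k) (Z := Z) (N := N') (t := algebraMap N N' t)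
      (x := algebraMap N N' x) (y := algebraMap N N' y) (A := A.map (algebraMap N N'))
      (B := B.map (algebraMap N N'))
      (fun i => by rw [coeff_map]; exact (hA i).algebraMap)
      (fun i => by rw [coeff_map]; exact (hB i).algebraMap)
      (by
        rw [← map_pow, hy, map_add, map_add, map_mul, map_pow, eval_map_algebraMap,
          eval_map_algebraMap, aeval_algebraMap_apply, aeval_algebraMap_apply]
        simp)
      (by simpa using hy0)
      (fun h => ht0 ((isAlgebraic_algebraMap_iff (algebraMap N N').injective).mp h))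
      (ε := ε') (hinj (by simp only [map_add, hε', h1, map_zero]))
      (hinj (by simp only [map_add, map_mul, hε', h2, hmapt]))
      (hinj (by simp only [map_mul, map_neg, hε', h3, hmapt]))
      (c := c) (a := a') (b := b')
      (fun i j => alg_down (Ω := Ω) (by rw [ha']; exact ha i j))
      (fun i j => alg_down (Ω := Ω) (by rw [hb']; exact hb i j))
      (fun i h0 => hbr i (by
        have := congrArg (algebraMap N' Ω) h0
        simpa only [map_sub, map_mul, ha', hb', map_zero] using this))
      (by
        apply map_injective (algebraMap N' Ω) hinj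
        simp only [Polynomial.map_add, Polynomial.map_pow, Polynomial.map_mul, map_C, map_X,
          Polynomial.map_prod, ha', hb', Polynomial.map_map]
        rw [← IsScalarTower.algebraMap_eq N N' Ω, ← IsScalarTower.algebraMap_apply k N' Ω]
        exact hD) e
    refine ⟨(∏ i, (a' i 0 * b' i 1 - a' i 1 * b' i 0)) ^ e, ?_, ?_, ?_⟩
    · refine pow_ne_zero _ (Finset.prod_ne_zero_iff.mpr fun i _ h0 => hbr i ?_)
      have := congrArg (algebraMap N' Ω) h0
      simpa only [map_sub, map_mul, ha', hb', map_zero] using this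
    · refine IsAlgebraic.pow (IsIntegral.isAlgebraic (IsIntegral.prod _ fun i _ => ?_)) e
      have ha2 : ∀ i j, IsIntegral Z (a' i j) := fun i j =>
        (alg_down (Ω := Ω) (by rw [ha']; exact ha i j)).isIntegral
      have hb2 : ∀ i j, IsIntegral Z (b' i j) := fun i j =>
        (alg_down (Ω := Ω) (by rw [hb']; exact hb i j)).isIntegral
      exact ((ha2 i 0).mul (hb2 i 1)).sub ((ha2 i 1).mul (hb2 i 0))
    · convert key using 1
      · funext b
        fin_cases b <;> rfl
      · change algebraMap N N' (y ^ e) ^ 12 = _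
        rw [map_pow]

end BlkMainAux

open BlkMainAux

theorem logForm_of_blocks {k Z P L : Type v} {N : Type u} [Field k] [CharZero k] [Field Z] [Field P]
    [Field L] [Field N] [Algebra k Z] [Algebra k L] [Algebra k N] [Algebra Z L] [Algebra Z N]
    [Algebra P L] [Algebra L N] [IsScalarTower k Z L] [IsScalarTower k L N] [IsScalarTower Z L N]
    [Algebra.EssFiniteType k L] [FiniteDimensional L N]
    (hP : ∀ z : L, IsAlgebraic Z z → ∃ t : P, algebraMap P L t = z) {r : ℕ} {s : Fin r → L}
    (hs : IsTranscendenceBasis Z s) {e : ℕ} (he : 1 ≤ e) {G : L} (hG : G ≠ 0) {q : ℕ}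
    {X : Fin q → Block N} (eq : Fin r ≃ Σ i, Fin (X i).n)
    (hX : ∀ i, (X i).IsArrangement Z e ∨ (X i).IsWeierstrass Z e)
    (h : IsProduct Z X eq s e G) : LogForm k Z P s e G := by
  classical
  haveI : CharZero Z := charZero_of_injective_algebraMap (algebraMap k Z).injective
  haveI : CharZero L := charZero_of_injective_algebraMap (algebraMap k L).injective
  haveI : IsScalarTower k Z N := IsScalarTower.of_algebraMap_eq fun c => by
    rw [IsScalarTower.algebraMap_apply Z L N, ← IsScalarTower.algebraMap_apply k Z L,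
      ← IsScalarTower.algebraMap_apply k L N]
  haveI : Algebra.EssFiniteType L N := inferInstance
  haveI : Algebra.EssFiniteType k N := Algebra.EssFiniteType.comp k L N
  haveI : Algebra.EssFiniteType Z N := Algebra.EssFiniteType.of_comp k Z N
  obtain ⟨hΦ, κ, hκa, hκ0, hD⟩ := h
  -- the coordinates are transcendental
  have hsN : IsTranscendenceBasis Z (fun b => algebraMap L N (s b)) := hs.algebraMap_comp
  have htr : ∀ i b, Transcendental Z ((X i).u b) := by
    intro i b halg
    have h1 := hD (fun a => pd hsN a)
    have h2 : Matrix.det (Matrix.of fun a b => pd hsN a (algebraMap L N (s b))) = 1 := by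
      rw [← jac_eq_det hsN, jac_self]
    have h3 : Matrix.det (Matrix.of fun a b => pd hsN a (coords X eq b)) = 0 := by
      refine Matrix.det_eq_zero_of_column_eq_zero (eq.symm ⟨i, b⟩) fun a => ?_
      rw [Matrix.of_apply, coords, Equiv.apply_symm_apply]
      exact der_alg _ halg
    rw [h2, h3, zero_pow (by omega), mul_zero, one_pow, mul_one] at h1
    exact mul_ne_zero (Finset.prod_ne_zero_iff.mpr fun i _ => hΦ i) (by simpa using hG) h1.symm
  set Ω := AlgebraicClosure N
  have hloc := fun i => block_local (k := k) (Z := Z) (Ω := AlgebraicClosure N) (hX i) (hΦ i) he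
    (htr i)
  choose S hS hSN using hloc
  set S₀ : Set (AlgebraicClosure N) := ⋃ i, S i with hS₀
  have hS₀f : S₀.Finite := Set.finite_iUnion hS
  set N' : IntermediateField N (AlgebraicClosure N) := IntermediateField.adjoin N S₀
  haveI : FiniteDimensional N N' := by
    haveI : Finite S₀ := hS₀f
    refine IntermediateField.finiteDimensional_adjoin fun z hz => ?_
    exact Algebra.IsIntegral.isIntegral z
  haveI : FiniteDimensional L N' := FiniteDimensional.trans L N N'
  haveI : IsScalarTower k L N' := IsScalarTower.of_algebraMap_eq fun z => by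
    rw [IsScalarTower.algebraMap_apply k N N', IsScalarTower.algebraMap_apply k L N,
      ← IsScalarTower.algebraMap_apply L N N']
  haveI : IsScalarTower Z L N' := IsScalarTower.of_algebraMap_eq fun z => by
    rw [IsScalarTower.algebraMap_apply Z N N', IsScalarTower.algebraMap_apply Z L N,
      ← IsScalarTower.algebraMap_apply L N N']
  have hsub : ∀ i, S i ⊆ Set.range (algebraMap N' (AlgebraicClosure N)) := by
    intro i z hz
    exact ⟨⟨z, IntermediateField.subset_adjoin N S₀ (Set.mem_iUnion.mpr ⟨i, hz⟩)⟩, rfl⟩
  choose T hT0 hTa hTl using fun i => hSN i N' (hsub i)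
  have hext := product_ext (N' := N') hs (u := coords X eq) (κ := κ)
    (g := (∏ i, (X i).Φ) * algebraMap L N G) hD
  have hcard : Fintype.card (Fin e × Fin 12) = e * 12 := by simp
  refine logForm_of_log (N := N') hP (n := 12) (by norm_num)
    (T := (algebraMap N N' κ ^ 12)⁻¹ * ∏ i, T i) ?_ ?_ ?_
  · refine mul_ne_zero (inv_ne_zero (pow_ne_zero _ (by simpa using hκ0))) ?_
    exact Finset.prod_ne_zero_iff.mpr fun i _ => hT0 i
  · refine IsAlgebraic.mul (IsAlgebraic.inv (IsAlgebraic.pow (hκa.algebraMap) 12)) ?_
    exact (IsIntegral.prod _ fun i _ => (hTa i).isIntegral).isAlgebraic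
  intro w hw
  have h1 := logAt_of_blocks (k := k) (Z := Z) (N := N') (ι := Fin e × Fin 12) eq
    (u := fun i b => algebraMap N N' ((X i).u b)) (Φ := fun i => algebraMap N N' (X i).Φ ^ 12)
    (T := T) (fun i => pow_ne_zero _ (by simpa using hΦ i)) hTl
    (s := fun b => algebraMap N N' (algebraMap L N (s b))) (g := algebraMap L N' G ^ 12)
    (κ := algebraMap N N' κ ^ 12) (pow_ne_zero _ (by simpa using hκ0)) (fun D => by
      have h2 := hext D
      have h3 := congrArg (· ^ 12) h2
      simp only [mul_pow, ← pow_mul, map_mul, map_prod] at h3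
      rw [hcard, Finset.prod_pow]
      rw [← IsScalarTower.algebraMap_apply L N N'] at h3
      exact h3) hw
  rw [hcard] at h1
  have h4 : (fun b => algebraMap N N' (algebraMap L N (s b))) = fun b => algebraMap L N' (s b) := by
    funext b
    rw [← IsScalarTower.algebraMap_apply L N N']
  rw [h4] at h1
  exact h1

end Pf72953.Pow
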