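import Mathlib
import Pool.Agent.Lib.Pf72953w.Est
import Pool.Agent.Lib.Pf72953p.Defs

/-!
MODULE Pf72953p.BoundP: the bound for the restriction to the diagonal of the form `b ∏ i_j g`.

PROOF.  Apply `estA'` (Pf72953w/Est.lean) with `B := V`, `L := Q`, `N := 1`, `y := fun _ j => if j = ⟨0, hρ⟩ then algebraMap V E b * g else g`:
`∑ a : Fin 1, ∏ j, i j (y a j) = algebraMap V Q b * ∏ j, i j g` and `∑ a, ∏ j, y a j = algebraMap V E b * g ^ ρ` (`Finset.prod_ite_eq`, or `EstBAux.prod_ite` as in the proof of `estB'`).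
It gives log bases `cB, hcB` of `V` and `c', hc'` of `E` for `v` with
`v (b g^ρ) * (v (jac hc'.tb (x, s)) * ∏ v (c')) ^ (ρ m) ≤ v t ^ (m + n) * (v (jac hcB.tb x) * ∏ v (cB)) ^ ((ρ - 1) m - n)`.
By `LogBasis.vol_eq` the two volumes do not depend on the log bases: `q := v (jac hcV.tb x) * ∏ v (cV) = v (jac hcB.tb x) * ∏ v (cB)` and
`v (jac hc'.tb (x, s)) * ∏ v (c') = v (jac hc.tb (x, s)) * ∏ v (c) = relS cV hc s * q` (`relS_chain hcV.tb hc hz x`, RelS.lean, with `P := V`, `L := E`; `hz = tb_rel hcV.tb hs`).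
`q ≠ 0` (`jac_ne_zero`, transcendence bases have nonzero elements).  `ρ m = (m + n) + ((ρ - 1) m - n)` (`hn`, `hρ`): cancel `q ^ ((ρ - 1) m - n)`.
-/

set_option autoImplicit false
set_option linter.style.haveILetI false
set_option linter.unusedSectionVars false

open scoped WithZero
open Pf72953 Pf72953.Fib Pf72953.Can

namespace Pf72953.Pow

theorem bound_form {k V E Q : Type*} [Field k] [CharZero k] [Field V] [Field E] [Field Q]
    [Algebra k V] [Algebra k E] [Algebra k Q] [Algebra V E] [Algebra V Q] [IsScalarTower k V E]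
    [IsScalarTower k V Q] [CharZero V] [Algebra.EssFiniteType k V] [Algebra.EssFiniteType k E]
    (hV : ClosedIn V E) {x : Fin (dimension k V) → V} (hx : IsTranscendenceBasis k x) {r : ℕ}
    {s : Fin r → E} (hs : IsTranscendenceBasis V s) {ρ : ℕ} (hρ : 1 ≤ ρ)
    {i : Fin ρ → E →ₐ[V] Q} (h : IsFibrePower V E Q i) {m n : ℕ} (hn : n ≤ (ρ - 1) * m) {b : V}
    {g : E} (hf : algebraMap V Q b * ∏ j, i j g ∈ TwReg k x (coord i x s) m n)
    {v : Valuation E ℤᵐ⁰} (hv : IsDivisorial k E v)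
    (hnt : ∃ a : V, a ≠ 0 ∧ v (algebraMap V E a) ≠ 1) {t : E} (ht : IsUnif v t)
    {cV : Fin (dimension k V) → V} (hcV : LogBasis k (v.comap (algebraMap V E)) cV)
    {c : Fin (dimension k V) ⊕ Fin r → E} (hc : LogBasis k v c) :
    v (algebraMap V E b * g ^ ρ) * relS cV hc s ^ (ρ * m) *
      (v (algebraMap V E (jac hcV.tb x)) * ∏ j, v (algebraMap V E (cV j))) ^ (m + n) ≤
      v t ^ (m + n) := by
  classical
  have hz : IsTranscendenceBasis k (Sum.elim (fun i => algebraMap V E (cV i)) s) :=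
    tb_rel hcV.tb hs
  have h1 : ∑ a : Fin 1, ∏ j, i j ((fun (_ : Fin 1) (j : Fin ρ) =>
      if j = ⟨0, hρ⟩ then algebraMap V E b * g else g) a j) = algebraMap V Q b * ∏ j, i j g := by
    rw [Finset.univ_unique, Finset.sum_singleton,
      EstBAux.prod_ite (fun j => i j g) ⟨0, hρ⟩ (algebraMap V Q b)]
    refine Finset.prod_congr rfl fun j _ => ?_
    dsimp only
    split_ifs
    · rw [map_mul, AlgHom.commutes]
    · rfl
  have h2 : ∑ a : Fin 1, ∏ j, (fun (_ : Fin 1) (j : Fin ρ) =>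
      if j = ⟨0, hρ⟩ then algebraMap V E b * g else g) a j = algebraMap V E b * g ^ ρ := by
    rw [Finset.univ_unique, Finset.sum_singleton]
    have h3 := EstBAux.prod_ite (fun _ : Fin ρ => g) ⟨0, hρ⟩ (algebraMap V E b)
    rw [Finset.prod_const, Finset.card_univ, Fintype.card_fin] at h3
    exact h3.symm
  obtain ⟨cB, hcB, c', hc', h3⟩ := estA' hV hx hs hρ h hn (fun (_ : Fin 1) (j : Fin ρ) =>
      if j = ⟨0, hρ⟩ then algebraMap V E b * g else g) (by rw [h1]; exact hf) hv hnt ht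
  rw [h2] at h3
  have h4 := hcB.vol_eq hcV x
  simp only [Valuation.comap_apply] at h4
  rw [h4, hc'.vol_eq hc, relS_chain hcV.tb hc hz x] at h3
  set q := v (algebraMap V E (jac hcV.tb x)) * ∏ j, v (algebraMap V E (cV j)) with hq
  have hq0 : q ≠ 0 := by
    refine mul_ne_zero ?_ ?_
    · rw [Valuation.ne_zero_iff]
      simpa using jac_ne_zero hx hcV.tb
    · refine Finset.prod_ne_zero_iff.mpr fun j _ => ?_
      rw [Valuation.ne_zero_iff]
      simpa using hcV.tb.1.ne_zero j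
  have h5 : ρ * m = (m + n) + ((ρ - 1) * m - n) := by
    obtain ⟨p, rfl⟩ : ∃ p, ρ = p + 1 := ⟨ρ - 1, by omega⟩
    rw [Nat.add_sub_cancel] at hn ⊢
    have h6 : (p + 1) * m = p * m + m := by ring
    omega
  have hpos : 0 < q ^ ((ρ - 1) * m - n) := pow_pos (zero_lt_iff.mpr hq0) _
  refine le_of_mul_le_mul_right (le_trans (le_of_eq ?_) h3) hpos
  rw [mul_pow (relS cV hc s) q, show q ^ (ρ * m) = q ^ (m + n) * q ^ ((ρ - 1) * m - n) by rw [← pow_add, ← h5]]
  simp only [mul_assoc]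

end Pf72953.Pow
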