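import Mathlib
import Pool.Agent.Lib.Pf72953p.Defs

/-!
MODULE Pf72953p.CertP: the Wronskian certificate for a section `∑ c_l s_l`.

PROOF (compare `exists_secCost`, Pf72953e/KeyE.lean, and `exists_cert`, Pf72953m/Cert.lean, `sec_bound`, Pf72953m/Est.lean).  For `r = 0` there is nothing to prove (`l.elim0`).  Let `gn i = A.gen i ^ a * (jac (M.tb i) y ^ d)⁻¹ ≠ 0`
(`jac_ne_zero hy (M.tb i)`); `s_mem` says `s l / gn i ∈ M.A i`.  (Do not use `MovingDivisor`: the condition `compat` of a `LineBundle` is not available for `gn`.)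
(1) For every chart `i`: the functions `s l / gn i` are linearly independent over `k`, so `exists_mult_bound (M.fg i) (M.mem i) (M.pd_mem i) ..` gives `C_i` and a certificate `∑ τ ∈ s, g τ * wron (M.tb i) (fun l => s l / gn i) τ = 1`,
exactly as in `exists_cert`; `C = ∑ C_i` or the supremum over the finitely many charts (`M.finite`).
(2) If all `c l = 0` the claim is trivial.  Otherwise choose `l₀` with `w (c l) ≤ w (c l₀)` for all `l`; the proof of `sec_bound` (with `D.S.gen i` replaced by `gn i`) gives `relvol ^ C * (w (c l₀) * w (gn i)) ≤ w T.sec`;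
`w (gn i) * w (jac (M.tb i) y) ^ d = w (A.gen i) ^ a`, so multiply by `w (jac (M.tb i) y) ^ d`.
-/

set_option autoImplicit false
set_option linter.style.haveILetI false
set_option linter.unusedSectionVars false

open scoped WithZero
open Pf72953 Pf72953.Mov Pf72953.Can

namespace Pf72953.Pow

variable {k B Y P : Type*} [Field k] [CharZero k] [IsAlgClosed k] [Field B] [Field Y] [Field P]
  [Algebra k B] [Algebra k Y] [Algebra k P] [Algebra B P] [Algebra Y P] [IsScalarTower k B P]
  [IsScalarTower k Y P] {M : SmoothModel k Y} {A : LineBundle M}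

namespace CertPAux

/-- the certificates on all charts, for a family of local generators -/
theorem exists_cert' {r : ℕ} (gn : M.I → Y) (hgn : ∀ i, gn i ≠ 0) (s : Fin (r + 1) → Y)
    (hs : ∀ i l, s l / gn i ∈ M.A i) (hli : LinearIndependent k s) :
    ∃ C : ℕ, ∀ i : M.I, ∃ (t : Finset (Fin (r + 1) → List (Fin (dimension k Y))))
      (g : (Fin (r + 1) → List (Fin (dimension k Y))) → Y),
      (∀ τ ∈ t, ∀ l, (τ l).length ≤ C) ∧ (∀ τ, g τ ∈ M.A i) ∧
        ∑ τ ∈ t, g τ * wron (M.tb i) (fun l => s l / gn i) τ = 1 := by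
  classical
  haveI := M.finite
  haveI := Fintype.ofFinite M.I
  have h1 : ∀ i : M.I, ∃ C : ℕ, ∃ (t : Finset (Fin (r + 1) → List (Fin (dimension k Y))))
      (g : (Fin (r + 1) → List (Fin (dimension k Y))) → Y),
      (∀ τ ∈ t, ∀ l, (τ l).length ≤ C) ∧ (∀ τ, g τ ∈ M.A i) ∧
        ∑ τ ∈ t, g τ * wron (M.tb i) (fun l => s l / gn i) τ = 1 := by
    intro i
    refine exists_mult_bound (M.fg i) (M.mem i) (M.pd_mem i) (hs i) ?_
    have h2 : LinearIndependent k (fun l => (gn i)⁻¹ • s l) := by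
      have h3 : Function.Injective (LinearMap.mulLeft k ((gn i)⁻¹)) := by
        intro a b hab
        exact mul_left_cancel₀ (inv_ne_zero (hgn i)) hab
      exact hli.map' (LinearMap.mulLeft k ((gn i)⁻¹)) (LinearMap.ker_eq_bot.mpr h3)
    convert h2 using 1
    funext l
    rw [smul_eq_mul, div_eq_inv_mul]
  choose C t g hs hg h1 using h1
  exact ⟨Finset.univ.sup C, fun i => ⟨t i, g i, fun τ hτ l => (hs i τ hτ l).trans
    (Finset.le_sup (Finset.mem_univ i)), hg i, h1 i⟩⟩

/-- the estimate for a section -/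
theorem sec_bound' {r C : ℕ} {i : M.I} {gn : Y} (hgn : gn ≠ 0) {s : Fin (r + 1) → Y}
    (hs : ∀ l, s l / gn ∈ M.A i) {t : Finset (Fin (r + 1) → List (Fin (dimension k Y)))}
    {g : (Fin (r + 1) → List (Fin (dimension k Y))) → Y}
    (ht : ∀ τ ∈ t, ∀ l, (τ l).length ≤ C) (hg : ∀ τ, g τ ∈ M.A i)
    (h1 : ∑ τ ∈ t, g τ * wron (M.tb i) (fun l => s l / gn) τ = 1) {a : Fin (r + 1) → P}
    (ha : ∀ l, IsAlgebraic B (a l)) {cB : Fin (dimension k B) → B}
    (hcB : IsTranscendenceBasis k cB) (hz : IsTranscendenceBasis k (zfam (L := P) M i cB))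
    {w : Valuation P ℤᵐ⁰} (hA : ∀ f ∈ M.A i, w (algebraMap Y P f) ≤ 1)
    {c : Fin (dimension k B) ⊕ Fin (dimension k Y) → P} (hc : LogBasis k w c) {l₀ : Fin (r + 1)}
    (ha0 : a l₀ ≠ 0) :
    relvol M i cB hc ^ C * (w (a l₀) * w (algebraMap Y P gn)) ≤
      w (∑ l, a l * algebraMap Y P (s l)) := by
  classical
  haveI : CharZero B := charZero_of_injective_algebraMap (algebraMap k B).injective
  have hg0 : algebraMap Y P gn ≠ 0 := by simpa using hgn
  set a' : Fin (r + 1) → P := fun l => a l / a l₀ with ha'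
  have hkill : ∀ b (β : B), pd hz (Sum.inr b) (algebraMap B P β) = 0 := fun b β =>
    pd_algebraMap_of_notMem hcB hz Sum.inl (fun _ => rfl) (Sum.inr b) (fun _ h => by cases h) β
  have halg : ∀ l, IsAlgebraic B (a' l) := fun l => by
    rw [ha']
    simp only [div_eq_mul_inv]
    exact (ha l).mul (ha l₀).inv
  have hstar := star (M.tb i) (M.pd_mem i) hs ht hg h1 hA
    (fun b => pd hz (Sum.inr b))
    (fun b f => pd_algebraMap (M.tb i) hz Sum.inr Sum.inr_injective (fun _ => rfl) b f)
    (relvol_le_one hcB hA hc) (fun b z => rel_cost hcB hz hA hc b z)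
    (a' := a') (fun b l => der_eq_zero_of_isAlgebraic
      (derOver (pd hz (Sum.inr b)) (hkill b)) (halg l))
    (l₀ := l₀) (by rw [ha']; simp only; rw [div_self ha0, map_one])
  have hsec : ∑ l, a l * algebraMap Y P (s l) =
      (∑ l, a' l * algebraMap Y P (s l / gn)) * (a l₀ * algebraMap Y P gn) := by
    rw [Finset.sum_mul]
    refine Finset.sum_congr rfl fun l _ => ?_
    rw [ha', map_div₀]
    field_simp
  rw [hsec, map_mul, map_mul]
  gcongr

end CertPAux

open CertPAux

theorem exists_hcost {y : Fin (dimension k Y) → Y} (hy : IsTranscendenceBasis k y) {d a : ℕ}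
    (T : HSec M A y d a B P) : ∃ C, HCost T C := by
  classical
  rcases T with ⟨r, s, a', h1, h2, h3⟩
  rcases r with _ | r
  · refine ⟨0, ?_⟩
    intro i cB _ _ w _ c hc l
    exact l.elim0
  · have hj : ∀ i, jac (M.tb i) y ^ d ≠ 0 := fun i => pow_ne_zero _ (jac_ne_zero hy (M.tb i))
    have hgn : ∀ i, A.gen i ^ a / jac (M.tb i) y ^ d ≠ 0 := fun i =>
      div_ne_zero (pow_ne_zero _ (A.ne i)) (hj i)
    have hmem : ∀ i l, s l / (A.gen i ^ a / jac (M.tb i) y ^ d) ∈ M.A i := by
      intro i l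
      obtain ⟨f, hf, hs⟩ := h1 l i
      rw [Fintype.prod_unique] at hs
      have h4 : s l / (A.gen i ^ a / jac (M.tb i) y ^ d) = f := by
        rw [div_div_eq_mul_div, hs, mul_div_assoc, div_self (pow_ne_zero _ (A.ne i)), mul_one]
      rw [h4]
      exact hf
    obtain ⟨C, hC⟩ := exists_cert' (fun i => A.gen i ^ a / jac (M.tb i) y ^ d) hgn s hmem h2
    refine ⟨C, ?_⟩
    intro i cB hcB hz w hA c hc l
    obtain ⟨t, g, ht, hg, ht1⟩ := hC i
    change relvol M i cB hc ^ C * (w (a' l) * w (algebraMap Y P (A.gen i)) ^ a) ≤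
      w (∑ l, a' l * algebraMap Y P (s l)) * w (algebraMap Y P (jac (M.tb i) y)) ^ d
    by_cases h0 : a' l = 0
    · rw [h0, map_zero, zero_mul, mul_zero]
      exact zero_le
    · have hb := sec_bound' (hgn i) (hmem i) ht hg ht1 h3 hcB hz hA hc h0
      have h5 : w (algebraMap Y P (A.gen i)) ^ a =
          w (algebraMap Y P (A.gen i ^ a / jac (M.tb i) y ^ d)) *
            w (algebraMap Y P (jac (M.tb i) y)) ^ d := by
        rw [← map_pow, ← map_pow, ← map_pow, ← map_pow, ← map_mul, ← map_mul,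
          div_mul_cancel₀ _ (hj i)]
      rw [h5, ← mul_assoc (w (a' l)), ← mul_assoc]
      gcongr

end Pf72953.Pow
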