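import Mathlib
import Pool.Agent.Lib.Pf72953r.Up
import Pool.Agent.Lib.Pf72953c.ConstC
import Pool.Agent.Lib.Pf72953p.Defs

/-!
MODULE Pf72953p.ConstP: the forms of `E/V` and of `L/P` differ by elements of `P`, if `κ(L/P) ≤ 0`.

PROOF.  `constP`: `algebraMap E L g ∈ WReg P (s in L) m` by `Red.WReg.up` (Pf72953r/Up.lean, with `k := V`, `κ := P`, `B := E`, `W := L`, `x := s`).  `g ^ e` and `G ^ m` are in `WReg P (s in L) (m * e)` (`WReg.pow`), and the quotient `R = g ^ e / G ^ m`
is algebraic over `P`: otherwise `KodairaGE P L 1` (`KodairaGE.of_coord` after reindexing by `Fin (dimension P L)`), which contradicts `hκ`: copy the proof of `constC` (Pf72953c/ConstC.lean).  `hP` gives `lam`.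
`not_kod`: `kodairaDim V E ≤ kodairaDim P L ≤ 0` by `Red.kodairaDim_up`; `KodairaGE V E 1` would give `1 ≤ kodairaDim V E` (`le_iSup₂`), as at the end of `constC`.
`kod_base`: `Red.kodairaDim_up` with `k := Z`, `κ := P`, `B := L`, `W := L`.
-/

set_option autoImplicit false
set_option linter.style.haveILetI false
set_option linter.unusedSectionVars false

open scoped WithZero
open Pf72953 Pf72953.Fib Pf72953.Can

namespace Pf72953.Pow

theorem ConstPAux.not_ge {V E : Type*} [Field V] [Field E] [Algebra V E]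
    (hκ : kodairaDim V E ≤ 0) : ¬ KodairaGE V E 1 := by
  intro hK
  have h1 : (((1 : ℕ) : ℕ∞) : WithBot ℕ∞) ≤ kodairaDim V E := le_iSup₂_of_le 1 hK le_rfl
  have h2 := h1.trans hκ
  have h3 : ((1 : ℕ) : ℕ∞) ≤ 0 := by exact_mod_cast h2
  simp at h3

section

variable {V E P L : Type*} [Field V] [CharZero V] [Field E] [Field P] [CharZero P] [Field L]
  [Algebra V E] [Algebra V P] [Algebra V L] [Algebra E L] [Algebra P L] [IsScalarTower V E L]
  [IsScalarTower V P L] [Algebra.EssFiniteType V E] [Algebra.EssFiniteType V L]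

theorem constP (hP : ClosedIn P L) (hκ : kodairaDim P L ≤ 0) {r : ℕ} {s : Fin r → E}
    (hs : IsTranscendenceBasis V s)
    (hsL : IsTranscendenceBasis P (fun j => algebraMap E L (s j))) {e m : ℕ} (he : 1 ≤ e)
    (hm : 1 ≤ m) {G : L} (hG : G ≠ 0) (hGP : G ∈ WReg P (fun j => algebraMap E L (s j)) e)
    {g : E} (hg : g ∈ WReg V s m) (hg0 : g ≠ 0) :
    ∃ lam : P, lam ≠ 0 ∧ algebraMap E L g ^ e = algebraMap P L lam * G ^ m := by
  classical
  haveI : Algebra.EssFiniteType P L := Algebra.EssFiniteType.of_comp V P L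
  have hgL : algebraMap E L g ∈ WReg P (fun j => algebraMap E L (s j)) m :=
    Red.WReg.up hs hsL hg
  have hgne : algebraMap E L g ≠ 0 := by simpa using hg0
  have hQP : algebraMap E L g ^ e ∈ WReg P (fun j => algebraMap E L (s j)) (m * e) :=
    WReg.pow hgL e
  have hGP' : G ^ m ∈ WReg P (fun j => algebraMap E L (s j)) (m * e) := by
    have := WReg.pow hGP m
    rwa [mul_comm e m] at this
  have hGne : G ^ m ≠ 0 := pow_ne_zero _ hG
  have halg : IsAlgebraic P (algebraMap E L g ^ e / G ^ m) := by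
    by_contra hcon
    have hcard : Fintype.card (Fin r) = dimension P L := card_eq_of_isTranscendenceBasis hsL
    rw [Fintype.card_fin] at hcard
    let eq : Fin (dimension P L) ≃ Fin r := finCongr hcard.symm
    have hsb : IsTranscendenceBasis P ((fun j => algebraMap E L (s j)) ∘ eq) :=
      (isTranscendenceBasis_equiv eq).mpr hsL
    have hK : KodairaGE P L 1 := by
      refine KodairaGE.of_coord hsb (m := m * e) (Nat.mul_pos hm he) (f₀ := G ^ m)
        (WReg.reindex hGP' eq) hGne (f := fun _ => algebraMap E L g ^ e / G ^ m) ?_ (fun i => ?_)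
      · rw [algebraicIndependent_unique_type_iff]
        exact hcon
      · rw [div_mul_cancel₀ _ hGne]
        exact WReg.reindex hQP eq
    exact ConstPAux.not_ge hκ hK
  obtain ⟨lam, hlam⟩ := hP _ halg
  refine ⟨lam, ?_, ?_⟩
  · rintro rfl
    rw [map_zero] at hlam
    exact (div_ne_zero (pow_ne_zero _ hgne) hGne) hlam.symm
  · rw [hlam, div_mul_cancel₀ _ hGne]

theorem not_kod (hκ : kodairaDim P L ≤ 0) {r : ℕ} {s : Fin r → E}
    (hs : IsTranscendenceBasis V s)
    (hsL : IsTranscendenceBasis P (fun j => algebraMap E L (s j))) : ¬ KodairaGE V E 1 := by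
  exact fun h => ConstPAux.not_ge ((Red.kodairaDim_up V P E L hs hsL).trans hκ) h

end

theorem kod_base {Z P L : Type*} [Field Z] [CharZero Z] [Field P] [Field L] [Algebra Z P]
    [Algebra Z L] [Algebra P L] [IsScalarTower Z P L] [Algebra.IsAlgebraic Z P]
    [Algebra.EssFiniteType Z L] : kodairaDim Z L ≤ kodairaDim P L := by
  obtain ⟨x, hx⟩ := exists_tb Z L
  have hxP : IsTranscendenceBasis P x :=
    (Algebra.IsAlgebraic.isTranscendenceBasis_iff Z P).1 hx
  exact Red.kodairaDim_up Z P L L hx hxP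

end Pf72953.Pow
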