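import Mathlib
import Pool.Agent.Lib.Pf72953p.Defs

/-!
MODULE Pf72953p.GoodP: products of forms in `HGood`, and with orbifold forms of `B`.

PROOF of `HGood.mul`: `map_mul`, `pow_add`, `mul_mul_mul_comm`, `mul_le_mul'` in both parts (compare `RelGood.mul`, Pf72953c/RelGood.lean).
PROOF of `mul_hgood`: copy the proof of `mul_mem_GoodL` (Pf72953c/RelGood.lean), `m = N + n`.
 CASE `w` nontrivial on `B`: `hh` gives a log basis `cB, hcB` of `B` for the restriction of `w` with `w h * (w (jac x) * ∏ w cB) ^ n ≤ w t ^ n`, and the first part of `hV` for the same `cB` gives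
 `w V * (w (jac x) * ∏ w cB) ^ N * relS ^ (N + n) ≤ w t ^ N`; the product is the bound needed in `hfin` (`pow_add`).
 CASE `w` trivial on `B`: as there, with the second part of `hV`.
-/

set_option autoImplicit false
set_option linter.style.haveILetI false
set_option linter.unusedSectionVars false

open scoped WithZero
open Pf72953 Pf72953.Var Pf72953.Mov Pf72953.Can

namespace Pf72953.Pow

variable {k B E L κ : Type*} [Field k] [CharZero k] [Field B] [Field E] [Field L] [Algebra k B]
  [Algebra k E] [Algebra k L] [Algebra B E] [Algebra B L] [Algebra E L] [IsScalarTower k B E]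
  [IsScalarTower k B L] [IsScalarTower k E L] [IsScalarTower B E L]
  [Fintype κ] [DecidableEq κ]

theorem HGood.mul {x : Fin (dimension k B) → B} {ζ : κ → L} {N N' D D' : ℕ} {V V' : L}
    (hV : V ∈ HGood k B E x ζ N D) (hV' : V' ∈ HGood k B E x ζ N' D') :
    V * V' ∈ HGood k B E x ζ (N + N') (D + D') := by
  intro w hw t ht cB c hc hcB
  obtain ⟨h1, h2⟩ := hV w hw t ht cB c hc hcB
  obtain ⟨h1', h2'⟩ := hV' w hw t ht cB c hc hcB
  refine ⟨fun hnt => ?_, fun htr => ?_⟩
  · have h3 := mul_le_mul' (h1 hnt) (h1' hnt)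
    rw [map_mul, pow_add _ N N', pow_add _ D D', pow_add _ N N']
    refine le_trans (le_of_eq ?_) h3
    ac_rfl
  · have h3 := mul_le_mul' (h2 htr) (h2' htr)
    rw [map_mul, pow_add _ D D', pow_add _ D D']
    refine le_trans (le_of_eq ?_) h3
    ac_rfl

theorem mul_hgood [Algebra.EssFiniteType k B] [Algebra.EssFiniteType k E]
    [FiniteDimensional E L] {x : Fin (dimension k B) → B} (hx : IsTranscendenceBasis k x)
    {ζ : κ → L} (hzB : ∀ cB : Fin (dimension k B) → B, IsTranscendenceBasis k cB →
      IsTranscendenceBasis k (Sum.elim (fun i => algebraMap B L (cB i)) ζ))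
    {N n : ℕ} {h : B} (hh : h ∈ WOrb k E x n) {V : L} (hV : V ∈ HGood k B E x ζ N (N + n)) :
    algebraMap B L h * V ∈ GoodL k E (Sum.elim (fun i => algebraMap B L (x i)) ζ) (N + n) := by
  haveI : Algebra.EssFiniteType k L := Algebra.EssFiniteType.comp k E L
  intro w hv c t hc ht htb
  have hcN : Adapted k w (fun i => algebraMap E L (c i)) (algebraMap E L t) := hc.map
  have hcard : Fintype.card (Fin (dimension k B) ⊕ κ) = dimension k L :=
    card_eq_of_isTranscendenceBasis htb
  have hlog := hcN.logBasis hcard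
  have hprod : ∏ i, w (algebraMap E L (c i)) = w (algebraMap E L t) := hcN.prod
  have hwt : w (algebraMap E L t) ≠ 0 := by
    rw [Valuation.ne_zero_iff]; simpa using ht.ne_zero
  have hwtpos : 0 < w (algebraMap E L t) := zero_lt_iff.mpr hwt
  have hfin : ∀ {cB : Fin (dimension k B) → B} (hcB : IsTranscendenceBasis k cB),
      (w (algebraMap B L h) * (w (algebraMap B L (jac hcB x)) *
        ∏ j, w (algebraMap B L (cB j))) ^ (N + n)) * (w V * relS cB hlog ζ ^ (N + n)) ≤
          w (algebraMap E L t) ^ (N + n) →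
      w (algebraMap B L h * V) *
        w (jac htb (Sum.elim (fun i => algebraMap B L (x i)) ζ)) ^ (N + n) ≤ 1 := by
    intro cB hcB hle
    have h1 := relS_chain hcB hlog (hzB cB hcB) x
    rw [hprod] at h1
    have hpos : 0 < w (algebraMap E L t) ^ (N + n) := pow_pos hwtpos (N + n)
    refine le_of_mul_le_mul_right (a := w (algebraMap E L t) ^ (N + n)) ?_ hpos
    rw [one_mul, mul_assoc, ← mul_pow, h1, mul_pow, map_mul]
    refine le_trans (le_of_eq ?_) hle
    ac_rfl
  by_cases hnt : ∃ a : B, a ≠ 0 ∧ w (algebraMap B L a) ≠ 1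
  · obtain ⟨cB, hcB', hbB'⟩ := hh (w.comap (algebraMap E L)) hv (by
      obtain ⟨a, ha0, ha⟩ := hnt
      refine ⟨a, ha0, ?_⟩
      rwa [Valuation.comap_apply, ← IsScalarTower.algebraMap_apply]) t ht
    simp only [Valuation.comap_apply, ← IsScalarTower.algebraMap_apply B E L] at hbB'
    have hval : (w.comap (algebraMap E L)).comap (algebraMap B E) = w.comap (algebraMap B L) := by
      ext a
      simp only [Valuation.comap_apply, ← IsScalarTower.algebraMap_apply B E L]
    have hcB2 : LogBasis k (w.comap (algebraMap B L)) cB := hval ▸ hcB'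
    have h2 := (hV w hv t ht cB _ hlog hcB2).1 hnt
    refine hfin hcB'.tb ?_
    have h3 := mul_le_mul' h2 hbB'
    rw [pow_add (w (algebraMap B L (jac hcB'.tb x)) * ∏ j, w (algebraMap B L (cB j))) N n,
      pow_add (w (algebraMap E L t)) N n]
    refine le_trans (le_of_eq ?_) h3
    ac_rfl
  · have htriv : ∀ b : B, b ≠ 0 → w (algebraMap B L b) = 1 := by
      intro b hb
      by_contra h
      exact hnt ⟨b, hb, h⟩
    have hB : LogBasis k (w.comap (algebraMap B L)) x := LogBasis.of_trivial htriv hx
    have h2 := (hV w hv t ht x _ hlog hB).2 htriv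
    refine hfin hx ?_
    have e1 : w (algebraMap B L (jac hx x)) = 1 := by rw [jac_self, map_one, map_one]
    have e2 : ∏ j, w (algebraMap B L (x j)) = 1 :=
      Finset.prod_eq_one fun j _ => htriv _ (hx.1.ne_zero j)
    have e3 : w (algebraMap B L h) ≤ 1 := by
      rcases eq_or_ne h 0 with h0 | h0
      · rw [h0, map_zero, map_zero]
        exact zero_le_one
      · exact (htriv h h0).le
    rw [e1, e2, mul_one, one_pow, mul_one]
    calc _ ≤ 1 * w (algebraMap E L t) ^ (N + n) := mul_le_mul' e3 h2
      _ = _ := one_mul _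

end Pf72953.Pow
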