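import Mathlib
import Pool.Agent.Lib.Pf72953p.Defs

/-!
MODULE Pf72953p.KeyP: the main estimate.

PROOF of `NumH.mul`, `NumH.pow`, `NumH.coeff`: as `NumT.mul`, `NumT.pow`, `NumT.coeff` (Pf72953c/KeyC.lean).
PROOF of `key` (compare `key`, Pf72953c/KeyC.lean).  `μ = relvol ≤ 1`, `gn = w (A.gen i)`, `J = w (jac (M.tb i) y)`.  `X := μ ^ C * gn ^ a * σ ^ a * (Q * μ) ^ d * (τ ^ d)⁻¹`.  For all `l`: `X * w (T.c l) ≤ 1`, since by `hC`
`μ ^ C * (w (T.c l) * gn ^ a) ≤ w T.sec * J ^ d` and `w T.sec * J ^ d * σ ^ a * (Q * μ) ^ d ≤ τ ^ d` (`hσ`, `mul_pow`), `τ ≠ 0`.  So `X ^ q * w ν ≤ 1` (`hν`).  `hg`: `w g * J ^ (d * q + δ * (q + p)) ≤ gn ^ (a * q)` (as `hgf'` there).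
`(d + δ) * (q + p) = (d * q + δ * (q + p)) + d * p`; so the left hand side is at most
`gn ^ (a q) * w ν * σ ^ (a q) * Q ^ (d q) * μ ^ (d q) * (w T.sec * σ ^ a * (Q * (μ * J)) ^ d) ^ p * μ ^ (δ (q + p))`
`≤ (X ^ q * w ν) * τ ^ (d q) * τ ^ (d p) * μ ^ (δ (q + p) - C q) ≤ μ ^ (δ (q + p) - C q) * τ ^ (d (q + p))`,
since `μ ^ (δ (q + p)) = μ ^ (C q) * μ ^ (δ (q + p) - C q)` (`hq`) and `X ^ q * τ ^ (d q) = μ ^ (C q) * gn ^ (a q) * σ ^ (a q) * (Q μ) ^ (d q)`.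
PROOF of `key2` (compare `key2`, Pf72953c/KeyC.lean).  `w ν ≤ 1` (`hν w 1`), `w T.sec * J ^ d ≤ gn ^ a` (each term: `T.s_mem`, `w (T.c l) ≤ 1`; `Valuation.map_sum_le`), `hg` as before:
the left hand side is at most `gn ^ (a q) * 1 * (gn ^ a) ^ p * α ^ (a (q + p))`.
-/

set_option autoImplicit false
set_option linter.style.haveILetI false
set_option linter.unusedSectionVars false

open scoped WithZero
open Pf72953 Pf72953.Mov Pf72953.Can

namespace Pf72953.Pow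

variable {k B Y P : Type*} [Field k] [CharZero k] [Field B] [Field Y] [Field P] [Algebra k B]
  [Algebra k Y] [Algebra k P] [Algebra B P] [Algebra Y P] [IsScalarTower k B P]
  [IsScalarTower k Y P] {M : SmoothModel k Y} {A : LineBundle M} {y : Fin (dimension k Y) → Y}
  {d a : ℕ}

theorem NumH.mul {T : HSec M A y d a B P} {p q : ℕ} {μ ν : P} (hμ : μ ∈ NumH T p)
    (hν : ν ∈ NumH T q) : μ * ν ∈ NumH T (p + q) := by
  intro w X h
  have h1 := hμ w X h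
  have h2 := hν w X h
  calc X ^ (p + q) * w (μ * ν) = (X ^ p * w μ) * (X ^ q * w ν) := by
        rw [map_mul, pow_add]
        simp only [mul_comm, mul_left_comm, mul_assoc]
    _ ≤ 1 * 1 := mul_le_mul' h1 h2
    _ = 1 := one_mul _

theorem NumH.pow {T : HSec M A y d a B P} {p : ℕ} {μ : P} (hμ : μ ∈ NumH T p) (n : ℕ) :
    μ ^ n ∈ NumH T (p * n) := by
  intro w X h
  have h1 := hμ w X h
  rw [map_pow, pow_mul, ← mul_pow]
  exact pow_le_one' h1 n

theorem NumH.coeff (T : HSec M A y d a B P) (l : Fin T.r) : T.c l ∈ NumH T 1 := by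
  intro w X h
  rw [pow_one]
  exact h l

theorem key {T : HSec M A y d a B P} {C : ℕ} (hC : HCost T C) {δ q p : ℕ}
    (hq : C * q ≤ δ * (q + p)) {g : Y}
    (hg : g ∈ CoefSec M (fun _ : Unit => A) y (d * q + δ * (q + p)) (fun _ => a * q)) {ν : P}
    (hν : ν ∈ NumH T q) {i : M.I} {cB : Fin (dimension k B) → B}
    (hcB : IsTranscendenceBasis k cB) (hz : IsTranscendenceBasis k (zfam (L := P) M i cB))
    {w : Valuation P ℤᵐ⁰} (hA : ∀ f ∈ M.A i, w (algebraMap Y P f) ≤ 1)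
    {c : Fin (dimension k B) ⊕ Fin (dimension k Y) → P} (hc : LogBasis k w c) {σ τ Q : ℤᵐ⁰}
    (hτ : τ ≠ 0)
    (hσ : w T.sec * σ ^ a * (Q * (relvol M i cB hc * w (algebraMap Y P (jac (M.tb i) y)))) ^ d ≤
      τ ^ d) :
    w (algebraMap Y P g) * w (ν * T.sec ^ p) * σ ^ (a * (q + p)) * Q ^ (d * (q + p)) *
        (relvol M i cB hc * w (algebraMap Y P (jac (M.tb i) y))) ^ ((d + δ) * (q + p)) ≤
      relvol M i cB hc ^ (δ * (q + p) - C * q) * τ ^ (d * (q + p)) := by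
  classical
  set μ := relvol M i cB hc with hμ
  have hμ1 : μ ≤ 1 := relvol_le_one hcB hA hc
  set gn := w (algebraMap Y P (A.gen i)) with hgn
  set J := w (algebraMap Y P (jac (M.tb i) y)) with hJ
  have hτd : τ ^ d ≠ 0 := pow_ne_zero _ hτ
  have hT : ∀ l, (μ ^ C * gn ^ a * σ ^ a * (Q * μ) ^ d * (τ ^ d)⁻¹) * w (T.c l) ≤ 1 := by
    intro l
    have h1 := hC i cB hcB hz w hA c hc l
    calc (μ ^ C * gn ^ a * σ ^ a * (Q * μ) ^ d * (τ ^ d)⁻¹) * w (T.c l)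
        = (μ ^ C * (w (T.c l) * gn ^ a)) * (σ ^ a * (Q * μ) ^ d) * (τ ^ d)⁻¹ := by
          simp only [mul_comm, mul_left_comm, mul_assoc]
      _ ≤ (w T.sec * J ^ d) * (σ ^ a * (Q * μ) ^ d) * (τ ^ d)⁻¹ := by gcongr
      _ = (w T.sec * σ ^ a * (Q * (μ * J)) ^ d) * (τ ^ d)⁻¹ := by
          simp only [mul_pow]
          simp only [mul_comm, mul_left_comm, mul_assoc]
      _ ≤ τ ^ d * (τ ^ d)⁻¹ := by gcongr
      _ = 1 := mul_inv_cancel₀ hτd
  have hνb := hν w _ hT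
  obtain ⟨f, hf, hgf⟩ := hg i
  have hgf' : w (algebraMap Y P g) * J ^ (d * q + δ * (q + p)) ≤ gn ^ (a * q) := by
    rw [hJ, hgn, ← map_pow, ← map_pow, ← map_mul, ← map_mul, hgf, map_mul, map_mul,
      Fintype.prod_unique, map_pow, map_pow]
    exact mul_le_of_le_one_left' (hA f hf)
  have hμm : μ ^ (δ * (q + p)) = μ ^ (δ * (q + p) - C * q) * (μ ^ C) ^ q := by
    rw [← pow_mul, ← pow_add]
    congr 1
    omega
  set R := μ ^ (δ * (q + p) - C * q) with hR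
  have e1 : (d + δ) * (q + p) = (d * q + δ * (q + p)) + d * p := by ring
  have e2 : (d + δ) * (q + p) = d * q + d * p + δ * (q + p) := by ring
  have e3 : a * (q + p) = a * q + a * p := by ring
  have e4 : d * (q + p) = d * q + d * p := by ring
  have hJs : J ^ ((d + δ) * (q + p)) = J ^ (d * q + δ * (q + p)) * (J ^ d) ^ p := by
    rw [e1, pow_add J (d * q + δ * (q + p)) (d * p), pow_mul J d p]
  have hμs : μ ^ ((d + δ) * (q + p)) = (μ ^ d) ^ q * (μ ^ d) ^ p * (R * (μ ^ C) ^ q) := by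
    rw [e2, pow_add, pow_add, hμm, pow_mul μ d q, pow_mul μ d p]
  calc w (algebraMap Y P g) * w (ν * T.sec ^ p) * σ ^ (a * (q + p)) * Q ^ (d * (q + p)) *
        (μ * J) ^ ((d + δ) * (q + p))
      = (w (algebraMap Y P g) * J ^ (d * q + δ * (q + p))) * (w ν * (σ ^ a) ^ q * (Q ^ d) ^ q *
          (μ ^ d) ^ q * (μ ^ C) ^ q) *
          (w T.sec ^ p * (σ ^ a) ^ p * ((Q ^ d) ^ p * ((μ ^ d) ^ p * (J ^ d) ^ p))) * R := by
        rw [mul_pow, hJs, hμs, e3, e4, pow_add σ, pow_add Q, pow_mul σ, pow_mul σ, pow_mul Q,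
          pow_mul Q, map_mul, map_pow]
        simp only [mul_comm, mul_left_comm, mul_assoc]
    _ ≤ gn ^ (a * q) * (w ν * (σ ^ a) ^ q * (Q ^ d) ^ q *
          (μ ^ d) ^ q * (μ ^ C) ^ q) *
          (w T.sec ^ p * (σ ^ a) ^ p * ((Q ^ d) ^ p * ((μ ^ d) ^ p * (J ^ d) ^ p))) * R := by
        gcongr
    _ = ((μ ^ C * gn ^ a * σ ^ a * (Q * μ) ^ d * (τ ^ d)⁻¹) ^ q * w ν) * (τ ^ d) ^ q *
          (w T.sec * σ ^ a * (Q * (μ * J)) ^ d) ^ p * R := by
        have h5 : ((τ ^ d)⁻¹) ^ q * (τ ^ d) ^ q = 1 := by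
          rw [← mul_pow, inv_mul_cancel₀ hτd, one_pow]
        have h6 : ((μ ^ C * gn ^ a * σ ^ a * (Q * μ) ^ d * (τ ^ d)⁻¹) ^ q * w ν) * (τ ^ d) ^ q =
            (μ ^ C * gn ^ a * σ ^ a * (Q * μ) ^ d) ^ q * w ν * (((τ ^ d)⁻¹) ^ q * (τ ^ d) ^ q) := by
          rw [mul_pow _ ((τ ^ d)⁻¹) q]
          generalize ((τ ^ d)⁻¹) ^ q = u1
          generalize (τ ^ d) ^ q = u2
          generalize (μ ^ C * gn ^ a * σ ^ a * (Q * μ) ^ d) ^ q = u3
          ac_rfl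
        rw [h6, h5, mul_one, pow_mul gn a q]
        simp only [mul_pow]
        simp only [mul_comm, mul_left_comm, mul_assoc]
    _ ≤ 1 * (τ ^ d) ^ q * (τ ^ d) ^ p * R := by
        gcongr
    _ = R * τ ^ (d * (q + p)) := by
        rw [e4, pow_add, pow_mul, pow_mul, one_mul, mul_comm]

theorem key2 {T : HSec M A y d a B P} {δ q p : ℕ} {g : Y}
    (hg : g ∈ CoefSec M (fun _ : Unit => A) y (d * q + δ * (q + p)) (fun _ => a * q)) {ν : P}
    (hν : ν ∈ NumH T q) {i : M.I} {w : Valuation P ℤᵐ⁰}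
    (hA : ∀ f ∈ M.A i, w (algebraMap Y P f) ≤ 1) (ha : ∀ l, w (T.c l) ≤ 1) (α : ℤᵐ⁰) :
    w (algebraMap Y P g) * w (ν * T.sec ^ p) * α ^ (a * (q + p)) *
        w (algebraMap Y P (jac (M.tb i) y)) ^ ((d + δ) * (q + p)) ≤
      (w (algebraMap Y P (A.gen i)) * α) ^ (a * (q + p)) := by
  classical
  set gn := w (algebraMap Y P (A.gen i)) with hgn
  set J := w (algebraMap Y P (jac (M.tb i) y)) with hJ
  have hνb : w ν ≤ 1 := by
    have h1 := hν w 1 (fun l => by rw [one_mul]; exact ha l)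
    rwa [one_pow, one_mul] at h1
  have hs : w T.sec * J ^ d ≤ gn ^ a := by
    rw [hJ, ← map_pow, ← map_mul, HSec.sec, Finset.sum_mul]
    refine Valuation.map_sum_le _ fun l _ => ?_
    obtain ⟨f, hf, hsf⟩ := T.s_mem l i
    rw [mul_assoc, ← map_pow, ← map_mul, hsf, map_mul, map_mul, map_mul, Fintype.prod_unique,
      map_pow, map_pow]
    exact mul_le_of_le_one_of_le (ha l) (mul_le_of_le_one_left' (hA f hf))
  obtain ⟨f, hf, hgf⟩ := hg i
  have hgf' : w (algebraMap Y P g) * J ^ (d * q + δ * (q + p)) ≤ gn ^ (a * q) := by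
    rw [hJ, hgn, ← map_pow, ← map_pow, ← map_mul, ← map_mul, hgf, map_mul, map_mul,
      Fintype.prod_unique, map_pow, map_pow]
    exact mul_le_of_le_one_left' (hA f hf)
  have e1 : (d + δ) * (q + p) = (d * q + δ * (q + p)) + d * p := by ring
  have hJs : J ^ ((d + δ) * (q + p)) = J ^ (d * q + δ * (q + p)) * (J ^ d) ^ p := by
    rw [e1, pow_add J (d * q + δ * (q + p)) (d * p), pow_mul J d p]
  calc w (algebraMap Y P g) * w (ν * T.sec ^ p) * α ^ (a * (q + p)) * J ^ ((d + δ) * (q + p))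
      = (w (algebraMap Y P g) * J ^ (d * q + δ * (q + p))) * w ν * (w T.sec * J ^ d) ^ p *
          α ^ (a * (q + p)) := by
        rw [hJs, map_mul, map_pow, mul_pow (w T.sec)]
        simp only [mul_comm, mul_left_comm, mul_assoc]
    _ ≤ gn ^ (a * q) * 1 * (gn ^ a) ^ p * α ^ (a * (q + p)) := by gcongr
    _ = (gn * α) ^ (a * (q + p)) := by
        rw [mul_one, mul_pow, ← pow_mul, ← pow_add, ← mul_add]

end Pf72953.Pow
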