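import Mathlib
import Pool.Agent.Lib.Pf72953p.Defs

/-!
MODULE Pf72953p.QEqP: the logarithmic norm of `d(x, y)` on `P`.

PROOF.  `jac hcP.tb (x, y) = jac hcP.tb (zfam M i cB) * (jac hcB x * jac (M.tb i) y)` (`jac_chain hz hcP.tb`, `jac_sum hcB (M.tb i) hz x y`: as `hchain` in the proof of `mem_GoodL`, Pf72953m/Est.lean), and
`relvol M i cB hcP = w (jac hcP.tb (zfam M i cB)) * ∏ w (cP) * (∏ w (cB))⁻¹` with `∏ w (cB) ≠ 0` (`prod_cB_ne_zero`).
-/

set_option autoImplicit false
set_option linter.style.haveILetI false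
set_option linter.unusedSectionVars false

open scoped WithZero
open Pf72953 Pf72953.Mov Pf72953.Can

namespace Pf72953.Pow

variable {k B Y P : Type*} [Field k] [CharZero k] [Field B] [Field Y] [Field P]
  [Algebra k B] [Algebra k Y] [Algebra k P] [Algebra B P] [Algebra Y P] [IsScalarTower k B P]
  [IsScalarTower k Y P] {M : SmoothModel k Y}

theorem qeq {i : M.I} {cB : Fin (dimension k B) → B} (hcB : IsTranscendenceBasis k cB)
    (hz : IsTranscendenceBasis k (zfam (L := P) M i cB)) {w : Valuation P ℤᵐ⁰}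
    {cP : Fin (dimension k B) ⊕ Fin (dimension k Y) → P} (hcP : LogBasis k w cP)
    (x : Fin (dimension k B) → B) (y : Fin (dimension k Y) → Y) :
    w (jac hcP.tb (Sum.elim (fun j => algebraMap B P (x j)) (fun j => algebraMap Y P (y j)))) *
        ∏ j, w (cP j) =
      (w (algebraMap B P (jac hcB x)) * ∏ j, w (algebraMap B P (cB j))) *
        (relvol M i cB hcP * w (algebraMap Y P (jac (M.tb i) y))) := by
  have hchain : jac hcP.tb (Sum.elim (fun j => algebraMap B P (x j))
      (fun j => algebraMap Y P (y j))) =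
      jac hcP.tb (zfam M i cB) * (algebraMap B P (jac hcB x) * algebraMap Y P (jac (M.tb i) y)) := by
    rw [jac_chain hz hcP.tb]
    congr 1
    exact jac_sum hcB (M.tb i) hz x y
  have hP0 : ∏ j, w (algebraMap B P (cB j)) ≠ 0 := prod_cB_ne_zero hcB w
  have h1 : relvol M i cB hcP * ∏ j, w (algebraMap B P (cB j)) =
      w (jac hcP.tb (zfam M i cB)) * ∏ j, w (cP j) := by
    rw [relvol, mul_assoc, inv_mul_cancel₀ hP0, mul_one]
  rw [hchain, map_mul, map_mul]
  calc _ = (w (jac hcP.tb (zfam M i cB)) * ∏ j, w (cP j)) *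
        (w (algebraMap B P (jac hcB x)) * w (algebraMap Y P (jac (M.tb i) y))) := by
        simp only [mul_comm, mul_left_comm, mul_assoc]
    _ = _ := by
        rw [← h1]
        simp only [mul_comm, mul_left_comm, mul_assoc]

end Pf72953.Pow
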