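import Mathlib
import Pool.Agent.Lib.Pf72953c.MemC
import Pool.Agent.Lib.Pf72953p.QEqP
import Pool.Agent.Lib.Pf72953p.KeyP

/-!
MODULE Pf72953p.MemP: the forms on `L` obtained from the restriction to the diagonal.

PROOF.  Copy the proof of `mem_relGood` (Pf72953c/MemC.lean).  `D = e * a * (q + p) = (d + δ) * (q + p)`, `N = d * (q + p)`.  Given `w, hv, t, ht, cB, c, hc, hcB` (definition of `HGood`), choose the chart `i`, `wP`, the log bases `cP` of `P` and `c₂` of `L` as there;
`ρ = relS cP hc₂ s`, `σ = w G * ρ ^ e`, `μ = relvol M i cB hcP`, `J = w (jac (M.tb i) y)`, `q_B = w (jac hcB.tb x) * ∏ w (cB)`; `norm_eq`: `relS cB hc (y, s) = ρ * (μ * J)`.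
The value of the form (as `hval` there): `w V * relS cB hc (y, s) ^ D = w g * w (ν h ^ p) * σ ^ (a (q + p)) * (μ * J) ^ D` (`D = e * (a * (q + p))`).
(A) If `w` is nontrivial on `P`: `hpow w hv t ht ..` and `qeq hcB.tb ..` (for `w.comap (algebraMap P L)`) give `w h * σ ^ a * (q_B * (μ * J)) ^ d ≤ w t ^ d`, which is `hσ` of `key` (KeyP.lean, with `Q := q_B`, `τ := w t`, `T.sec = h`), so
`w V * q_B ^ N * relS cB hc (y, s) ^ D ≤ μ ^ (δ (q + p) - C q) * w t ^ N` (`key`; `C q ≤ δ (q + p)` from `hq`), and `μ ≤ 1` (`relvol_le_one`).  This proves the first part (if `w` is nontrivial on `B` it is nontrivial on `P`).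
(B) `w` trivial on `B`: `q_B = 1` (`LogBasis.vol_eq` with the log basis `x`, `LogBasis.of_trivial`; `jac_self`), `w (T.c l) ≤ 1` (algebraic over `B`: `halgone` there), `hτ : IsUnif w (algebraMap E L t)` by `hunr` as there.
 (B1) `Br.PrimeAt M B Z i w` (this includes the case that `w` is trivial on `Z`): as `hgood` there, with `key2` (KeyP.lean, `α = w G * J₃ ^ e`) in place of the old `key2`: `σ ^ (a (q + p)) * μ ^ D = (w G * J₃ ^ e) ^ (a (q + p)) * w t₃ ^ D`
 (`ρ μ = J₃ w t₃`), `w gen * (w G * J₃ ^ e) ≤ 1` by `hreg`, `w t₃ ≤ w t`.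
 (B2) `w` nontrivial on `Z` and not `PrimeAt`: `μ ≤ w t ^ 2` (`relvol_le_sq`, as there), `w` is nontrivial on `P`, so by (A) the value is at most `(w t ^ 2) ^ (δ (q + p) - C q) * w t ^ N ≤ w t ^ D`, since `2 * (δ (q + p) - C q) + N ≥ D` (`hq`) and `w t ≤ 1`.
-/

set_option autoImplicit false
set_option linter.style.haveILetI false
set_option linter.unusedSectionVars false

open scoped WithZero
open Pf72953 Pf72953.Var Pf72953.Mov Pf72953.Ell Pf72953.Can

namespace Pf72953.Pow

variable {k B E Y Z P L : Type*} [Field k] [CharZero k] [IsAlgClosed k] [Field B] [Field E]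
  [Field Y] [Field Z] [Field P] [Field L]
  [Algebra k B] [Algebra k E] [Algebra k Y] [Algebra k Z] [Algebra k P] [Algebra k L]
  [Algebra B E] [Algebra B Z] [Algebra B P] [Algebra B L] [Algebra E L] [Algebra Y Z]
  [Algebra Y P] [Algebra Y L] [Algebra Z P] [Algebra Z L] [Algebra P L]
  [IsScalarTower k B E] [IsScalarTower k B Z] [IsScalarTower k B P] [IsScalarTower k B L]
  [IsScalarTower k E L] [IsScalarTower k Y Z] [IsScalarTower k Y P] [IsScalarTower k Y L]
  [IsScalarTower k Z P] [IsScalarTower k Z L] [IsScalarTower k P L] [IsScalarTower B E L]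
  [IsScalarTower B Z P] [IsScalarTower B Z L] [IsScalarTower B P L] [IsScalarTower Y Z P]
  [IsScalarTower Y Z L] [IsScalarTower Y P L] [IsScalarTower Z P L]
  [Algebra.EssFiniteType k B] [Algebra.EssFiniteType k Y] [Algebra.EssFiniteType k E]
  [FiniteDimensional E L] [FiniteDimensional Z P]
  {M : SmoothModel k Y} {A : LineBundle M}

theorem mem_hgood {r : ℕ} (hcomp : Twr.IsCompositum k B Y Z)
    (hdim : dimension k B + dimension k Y + r = dimension k E) (hunr : Unramified k B E L)
    {s : Fin r → L} (hs : IsTranscendenceBasis Z s) {e : ℕ} {G : L}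
    (hreg : RegularOver k B Z A s e G) {x : Fin (dimension k B) → B}
    (hx : IsTranscendenceBasis k x) {y : Fin (dimension k Y) → Y}
    (hy : IsTranscendenceBasis k y) {a d δ : ℕ} (hea : e * a = d + δ) {h : P}
    (hpow : PowBd k E s e G
      (Sum.elim (fun j => algebraMap B P (x j)) (fun j => algebraMap Y P (y j))) a d h)
    {T : HSec M A y d a B P} (hT : T.sec = h) {C : ℕ} (hC : HCost T C) {q p : ℕ}
    (hq : 2 * (C * q) ≤ δ * (q + p)) {g : Y}
    (hg : g ∈ CoefSec M (fun _ : Unit => A) y (d * q + δ * (q + p)) (fun _ => a * q)) {ν : P}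
    (hν : ν ∈ NumH T q) :
    algebraMap Y L g * algebraMap P L (ν * h ^ p) * G ^ (a * (q + p)) ∈
      HGood k B E x (Sum.elim (fun j => algebraMap Y L (y j)) s) (d * (q + p))
        (d * (q + p) + δ * (q + p)) := by
  classical
  haveI : CharZero B := charZero_of_injective_algebraMap (algebraMap k B).injective
  haveI : CharZero P := charZero_of_injective_algebraMap (algebraMap k P).injective
  haveI : Algebra.EssFiniteType k L := Algebra.EssFiniteType.comp k E L
  haveI : Algebra.EssFiniteType k Z := essFinite_Z hcomp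
  haveI : Algebra.EssFiniteType k P := Algebra.EssFiniteType.comp k Z P
  obtain ⟨hZdim, hPdim, hLdim, hZ, hZP, hPL, hBYL⟩ := basesC (P := P) (E := E) hcomp hdim hs
  obtain ⟨D, hD⟩ : ∃ D : ℕ, D = d * (q + p) + δ * (q + p) := ⟨_, rfl⟩
  have hDe : D = e * (a * (q + p)) := by rw [hD, ← mul_assoc, hea, add_mul]
  have hDd : D = (d + δ) * (q + p) := by rw [hD, add_mul]
  have hCq : C * q ≤ δ * (q + p) := by omega
  rw [← hD]
  intro w hv t ht cB c hc hcB
  have hw : IsDivisorial k L w := IsDivisorial.of_comap hLdim hv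
  -- the chart
  obtain ⟨i, hi⟩ := M.cover (w.comap (algebraMap Y L)) (fun κ hκ => by
    rw [Valuation.comap_apply, ← IsScalarTower.algebraMap_apply k Y L]
    exact hw.const κ hκ)
  have hA : ∀ f ∈ M.A i, w (algebraMap Y L f) ≤ 1 := hi
  set wP := w.comap (algebraMap P L) with hwP
  have hwPB : ∀ z : B, wP (algebraMap B P z) = w (algebraMap B L z) := fun z => by
    rw [hwP, Valuation.comap_apply, ← IsScalarTower.algebraMap_apply B P L]
  have hwPY : ∀ z : Y, wP (algebraMap Y P z) = w (algebraMap Y L z) := fun z => by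
    rw [hwP, Valuation.comap_apply, ← IsScalarTower.algebraMap_apply Y P L]
  have hwPZ : ∀ z : Z, wP (algebraMap Z P z) = w (algebraMap Z L z) := fun z => by
    rw [hwP, Valuation.comap_apply, ← IsScalarTower.algebraMap_apply Z P L]
  have hAP : ∀ f ∈ M.A i, wP (algebraMap Y P f) ≤ 1 := fun f hf => by
    rw [hwPY]; exact hA f hf
  -- a log basis of `P`
  have hcardP : Fintype.card (Fin (dimension k B) ⊕ Fin (dimension k Y)) = dimension k P := by
    rw [hPdim, hZdim]; simp
  obtain ⟨cP, hcP⟩ : ∃ cP : Fin (dimension k B) ⊕ Fin (dimension k Y) → P,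
      LogBasis k wP cP := by
    by_cases hnt : ∃ a : P, a ≠ 0 ∧ w (algebraMap P L a) ≠ 1
    · obtain ⟨c', t', ht', hc'⟩ := (hw.restrict hnt).exists_adapted hcardP
      exact ⟨c', hc'.logBasis hcardP⟩
    · push Not at hnt
      exact ⟨zfam M i cB, LogBasis.of_trivial hnt (hZP hcB.tb (M.tb i))⟩
  have hzP := hPL hcP.tb
  -- a log basis of `L`
  have hcard₂ : Fintype.card ((Fin (dimension k B) ⊕ Fin (dimension k Y)) ⊕ Fin r) =
      dimension k L := by
    rw [hLdim, ← hdim]; simp
  obtain ⟨c₂, t₂, ht₂, hc₂'⟩ := hw.exists_adapted hcard₂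
  have hc₂ : LogBasis k w c₂ := hc₂'.logBasis hcard₂
  set ρ := relS cP hc₂ s with hρdef
  set μ := relvol M i cB hcP with hμdef
  have hnorm := norm_eq hcB.tb (hZP hcB.tb (M.tb i)) hcP hc hc₂ hzP y
  rw [← hρdef, ← hμdef] at hnorm
  -- the value of the form
  have hval : w (algebraMap Y L g * algebraMap P L (ν * h ^ p) * G ^ (a * (q + p))) *
      relS cB hc (Sum.elim (fun j => algebraMap Y L (y j)) s) ^ D =
      wP (algebraMap Y P g) * wP (ν * T.sec ^ p) * (w G * ρ ^ e) ^ (a * (q + p)) *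
        (μ * wP (algebraMap Y P (jac (M.tb i) y))) ^ D := by
    have h1 : w (algebraMap P L (ν * h ^ p)) = wP (ν * T.sec ^ p) := by rw [hT]; rfl
    rw [map_mul w, map_mul w, map_pow w, hnorm, hwPY, hwPY, h1, mul_pow ρ, mul_pow (w G),
      ← pow_mul, ← hDe]
    simp only [mul_assoc]
  obtain ⟨Q, hQdef⟩ : ∃ Q : ℤᵐ⁰, Q = w (algebraMap B L (jac hcB.tb x)) *
      ∏ j, w (algebraMap B L (cB j)) := ⟨_, rfl⟩
  have hτ0 : w (algebraMap E L t) ≠ 0 := by
    rw [Valuation.ne_zero_iff]
    simpa using ht.ne_zero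
  have hμone : μ ≤ 1 := relvol_le_one hcB.tb hAP hcP
  -- the main estimate
  have hkey : (∃ z : P, z ≠ 0 ∧ w (algebraMap P L z) ≠ 1) →
      wP (algebraMap Y P g) * wP (ν * T.sec ^ p) * (w G * ρ ^ e) ^ (a * (q + p)) *
        Q ^ (d * (q + p)) * (μ * wP (algebraMap Y P (jac (M.tb i) y))) ^ D ≤
        μ ^ (δ * (q + p) - C * q) * w (algebraMap E L t) ^ (d * (q + p)) := by
    intro hnt
    have h1 := hpow w hv t ht hnt cP hcP c₂ hc₂
    rw [← hρdef] at h1
    have h2 := qeq hcB.tb (hZP hcB.tb (M.tb i)) hcP x y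
    rw [← hμdef] at h2
    have h3 : wP (algebraMap B P (jac hcB.tb x)) * ∏ j, wP (algebraMap B P (cB j)) = Q := by
      rw [hQdef, hwPB]
      congr 1
      exact Finset.prod_congr rfl fun j _ => hwPB _
    rw [h3] at h2
    have h4 : wP T.sec * (w G * ρ ^ e) ^ a *
        (Q * (μ * wP (algebraMap Y P (jac (M.tb i) y)))) ^ d ≤ w (algebraMap E L t) ^ d := by
      rw [← h2, hT]
      exact h1
    have h5 := key hC hCq hg hν hcB.tb (hZP hcB.tb (M.tb i)) hAP hcP hτ0 h4
    rw [← hμdef, ← hDd] at h5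
    exact h5
  refine ⟨fun hntB => ?_, fun htriv => ?_⟩
  · -- `w` not trivial on `B`
    obtain ⟨b, hb0, hb1⟩ := hntB
    have h1 := hkey ⟨algebraMap B P b, by simpa using hb0, by
      rw [← IsScalarTower.algebraMap_apply B P L]; exact hb1⟩
    rw [← hQdef]
    calc _ = w (algebraMap Y L g * algebraMap P L (ν * h ^ p) * G ^ (a * (q + p))) *
          relS cB hc (Sum.elim (fun j => algebraMap Y L (y j)) s) ^ D * Q ^ (d * (q + p)) := by
          rw [mul_right_comm]
      _ = wP (algebraMap Y P g) * wP (ν * T.sec ^ p) * (w G * ρ ^ e) ^ (a * (q + p)) *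
        Q ^ (d * (q + p)) * (μ * wP (algebraMap Y P (jac (M.tb i) y))) ^ D := by
          rw [hval, mul_right_comm]
      _ ≤ μ ^ (δ * (q + p) - C * q) * w (algebraMap E L t) ^ (d * (q + p)) := h1
      _ ≤ 1 * w (algebraMap E L t) ^ (d * (q + p)) := by
          gcongr
          exact pow_le_one' hμone _
      _ = w (algebraMap E L t) ^ (d * (q + p)) := one_mul _
  rw [hval]
  -- `w` trivial on `B`
  have htrivP : ∀ b : B, b ≠ 0 → wP (algebraMap B P b) = 1 := fun b hb => by
    rw [hwPB]; exact htriv b hb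
  have halgone : ∀ z : P, IsAlgebraic B z → wP z ≤ 1 := fun z hz => by
    rcases eq_or_ne z 0 with h0 | h0
    · rw [h0]; simp
    · exact (val_eq_one_of_isIntegral htrivP h0 hz.isIntegral).le
  have hQ1 : Q = 1 := by
    have h1 : LogBasis k (w.comap (algebraMap B L)) x := LogBasis.of_trivial htriv hx
    have h2 := hcB.vol_eq h1 x
    rw [jac_self, map_one, one_mul] at h2
    rw [hQdef]
    refine h2.trans ?_
    exact Finset.prod_eq_one fun j _ => htriv _ (hx.1.ne_zero j)
  -- the uniformizer of `L`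
  have hτ : IsUnif w (algebraMap E L t) := by
    refine ⟨by simpa using ht.ne_zero, ht.lt_one, fun z hz => ?_⟩
    obtain ⟨t', ht', hzt'⟩ := hunr w hw htriv z hz
    exact hzt'.trans (ht.le t' ht')
  -- prime divisors of `M` over `B`
  have hgood : Br.PrimeAt M B Z i w →
      wP (algebraMap Y P g) * wP (ν * T.sec ^ p) * (w G * ρ ^ e) ^ (a * (q + p)) *
        (μ * wP (algebraMap Y P (jac (M.tb i) y))) ^ D ≤ w (algebraMap E L t) ^ D := by
    intro hprime
    have hcard₃ : Fintype.card (Fin (dimension k B) ⊕ (Fin (dimension k Y) ⊕ Fin r)) =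
        dimension k L := by
      rw [hLdim, ← hdim]; simp [add_assoc]
    obtain ⟨c₃, t₃, ht₃, hc₃⟩ := hw.exists_adapted hcard₃
    have hlog₃ : LogBasis k w c₃ := hc₃.logBasis hcard₃
    have hreg₃ : RegBasis k w c₃ := hc₃.regBasis hcard₃ ht₃
    have hzξ := hBYL hcB.tb (M.tb i)
    obtain ⟨d', hd', hdet⟩ := exists_regDer hcB.tb hzξ hw htriv hreg₃
    have hle := hreg i w hw htriv hprime d' hd'
    have hξ := norm_eq hcB.tb (hZP hcB.tb (M.tb i)) hcP hc hc₂ hzP (M.x i)
    rw [← hρdef, ← hμdef, jac_self, map_one, map_one, mul_one] at hξ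
    have hprodB : ∏ j, w (algebraMap B L (cB j)) = 1 :=
      Finset.prod_eq_one fun j _ => htriv _ (hcB.tb.1.ne_zero j)
    have hξ' : relS cB hc (Sum.elim (fun j => algebraMap Y L (M.x i j)) s) =
        w (jac hreg₃.tb (Sum.elim (fun i => algebraMap B L (cB i))
          (Sum.elim (fun j => algebraMap Y L (M.x i j)) s))) * w t₃ := by
      rw [relS, hprodB, inv_one, mul_one, hc.vol_eq hlog₃, hc₃.prod]
    set J₃ := w (jac hreg₃.tb (Sum.elim (fun i => algebraMap B L (cB i))
          (Sum.elim (fun j => algebraMap Y L (M.x i j)) s))) with hJ₃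
    have hρμ : ρ * μ = J₃ * w t₃ := by rw [← hξ, hξ']
    have hα : wP (algebraMap Y P (A.gen i)) * (w G * J₃ ^ e) ≤ 1 := by
      refine le_trans ?_ hle
      rw [map_mul w, map_mul w, map_pow w, hwPY, mul_assoc]
      gcongr
      exact hdet
    have hkey2 := key2 hg hν hAP (fun l => halgone _ (T.c_alg l)) (w G * J₃ ^ e)
    rw [← hDd] at hkey2
    calc _ = wP (algebraMap Y P g) * wP (ν * T.sec ^ p) * (w G * J₃ ^ e) ^ (a * (q + p)) *
          wP (algebraMap Y P (jac (M.tb i) y)) ^ D * w t₃ ^ D := by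
          have h1 : (w G * ρ ^ e) ^ (a * (q + p)) *
              (μ * wP (algebraMap Y P (jac (M.tb i) y))) ^ D =
              (w G * J₃ ^ e) ^ (a * (q + p)) * wP (algebraMap Y P (jac (M.tb i) y)) ^ D *
                w t₃ ^ D := by
            rw [mul_pow (w G), mul_pow (w G), ← pow_mul, ← pow_mul, ← hDe, mul_pow μ]
            calc _ = w G ^ (a * (q + p)) * (ρ * μ) ^ D *
                  wP (algebraMap Y P (jac (M.tb i) y)) ^ D := by
                  rw [mul_pow ρ]
                  simp only [mul_assoc]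
              _ = _ := by
                  rw [hρμ, mul_pow J₃]
                  simp only [mul_comm, mul_left_comm]
          rw [mul_assoc, h1]
          simp only [mul_assoc]
      _ ≤ (wP (algebraMap Y P (A.gen i)) * (w G * J₃ ^ e)) ^ (a * (q + p)) * w t₃ ^ D := by
          gcongr
      _ ≤ 1 * w t₃ ^ D := by
          gcongr
          exact pow_le_one' hα _
      _ = w t₃ ^ D := one_mul _
      _ ≤ w (algebraMap E L t) ^ D := pow_le_pow_left' (hτ.le _ ht₃.lt_one) D
  by_cases hntZ : ∃ s : Z, s ≠ 0 ∧ w (algebraMap Z L s) ≠ 1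
  · by_cases hprime : Br.PrimeAt M B Z i wP
    · refine hgood ⟨hA, fun d₁ h1 z hz => ?_⟩
      have h2 := hprime.der d₁ (fun a => by rw [hwPZ]; exact h1 a) z (by rw [hwPZ]; exact hz)
      rwa [hwPZ] at h2
    · have h1 := relvol_le_sq (P := P) (L := L) (N := L) hZ hw htriv hntZ hA
        (τ := algebraMap E L t) (by
          rw [Algebra.algebraMap_self]
          exact hτ) hcB.tb hcP (Or.inr hprime)
      rw [Algebra.algebraMap_self_apply] at h1
      obtain ⟨z, hz0, hz1⟩ := hntZ
      have h2 := hkey ⟨algebraMap Z P z, by simpa using hz0, by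
        rw [← IsScalarTower.algebraMap_apply Z P L]; exact hz1⟩
      rw [hQ1, one_pow, mul_one] at h2
      refine h2.trans ?_
      calc μ ^ (δ * (q + p) - C * q) * w (algebraMap E L t) ^ (d * (q + p)) ≤
            (w (algebraMap E L t) ^ 2) ^ (δ * (q + p) - C * q) *
              w (algebraMap E L t) ^ (d * (q + p)) := by
            gcongr
        _ = w (algebraMap E L t) ^ (2 * (δ * (q + p) - C * q) + d * (q + p)) := by
            rw [← pow_mul, ← pow_add]
        _ ≤ w (algebraMap E L t) ^ D :=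
          pow_le_pow_right_of_le_one' hτ.lt_one.le (by omega)
  · -- `w` trivial on `Z`
    push Not at hntZ
    refine hgood ⟨hA, fun d₁ _ z _ => ?_⟩
    rcases eq_or_ne (d₁ z) 0 with h0 | h0
    · rw [h0]; simp
    · exact (hntZ _ h0).le

end Pf72953.Pow
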