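import Mathlib
import Pool.Agent.Lib.Pf72953b.PosKod
import Pool.Agent.Lib.Pf72953t.GoodUp
import Pool.Agent.Lib.Pf72953v.Factor
import Pool.Agent.Lib.Pf72953v.CoreV
import Pool.Agent.Lib.Pf72953c.IndC
import Pool.Agent.Lib.Pf72953p.MemP
import Pool.Agent.Lib.Pf72953p.CertP
import Pool.Agent.Lib.Pf72953p.GoodP

/-!
MODULE Pf72953p.CoreP: the Kodaira dimension of the total space (lower bound).

PROOF.  Adapt `coreC` (Pf72953c/CoreC.lean; copy it).  `C` from `exists_hcost hy T` (CertP.lean).  `T.sec = h ≠ 0`, so some `β₀ = T.c l₀ ≠ 0`.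
Forms on `M`: `m₀ ≥ 1`, `g₀ ≠ 0`, `g₀ ∈ CoefSec M (fun _ => A) y m₀ (fun _ => 0)` from `hM` as in `coreC` (`Br.pos_of_kodaira`); `hb` gives `m₂ ≥ 1`, `g₂ ≠ 0`, `φ_i`, with `g₂, φ_i g₂ ∈ CoefSec M (fun _ => A) y (e * m₂) (fun _ => m₂)` (`mem_pluriSections_iff`).
Weights: `q = m₂`, `p' = 2 * C * m₂`, `p = m₀ * p'`, so `2 * (C * q) ≤ δ * (q + p)` (`δ ≥ 1`, `m₀ ≥ 1`).  `g = g₀ ^ (δ * p') * g₂ ^ a ∈ CoefSec M _ y (d * q + δ * (q + p)) (fun _ => a * q)`: the weights are `δ p' m₀ + a e m₂ = δ p + (d + δ) q` and `a m₂`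
(`CoefSec.mul`, `CoefSec.pow`, congruence of the weights as `coefSec_congr` in CoreC.lean).  `a = a' + 1`: replace `g₂ ^ a` by `g₂ ^ a' * (φ_i g₂)` for the ratios `φ_i`.
`V g ν = g * (ν h ^ p) * G ^ (a (q + p)) ∈ HGood k B E x ζ (d n) (d n + δ n)`, `n = q + p ≥ 1` (`mem_hgood`, MemP.lean), `ζ = (y, s)`.
Two factors (`mem_ratios_of_factor`, `Φ = Bool`): `𝒲 false m = {W | ∃ n, m = (d + δ) * n ∧ W ∈ algebraMap B L '' WOrb k E x (δ * n)}`, `𝒲 true m = {W | ∃ n, m = (d + δ) * n ∧ W ∈ HGood k B E x ζ (d * n) (d * n + δ * n)}`: closed under products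
(`WOrb.mul'`, `HGood.mul`; `n + n'`); the product of elements of both (same `m`, so the same `n` since `d + δ ≥ 1`) is in `GoodL k E fam m` by `mul_hgood` (`m = d n + δ n`).  Nonzero elements: `h₀ ^ δ ∈ WOrb k E x (δ * m₁)` (`WOrb.pow`), `n = m₁`, and `V g (β₀ ^ q)`.
Ratios: `f ∈ B` with `f h', h' ∈ WOrb k E x m'`, `h' ≠ 0`, `m' ≥ 1`: `W = h' ^ δ`, `f W = (f h') h' ^ (δ - 1)`; `φ_i` (see above); `T.c l / T.c l'`: if `T.c l' = 0` it is `0` (`ratios_zero`), otherwise `ν = (T.c l') ^ q` and `(T.c l) (T.c l') ^ (q - 1)`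
(`NumH.coeff`, `NumH.mul`, `NumH.pow`).
Independence: `indC` with `ξ`, `φ` and the empty family `ψ : Fin 0 → L` (`algebraicIndependent_empty_type`).  Conclude by `Twr.of_good'` as in `coreC`.
-/

set_option autoImplicit false
set_option linter.style.haveILetI false
set_option linter.unusedSectionVars false

open scoped WithZero
open Pf72953 Pf72953.Var Pf72953.Mov Pf72953.Ell Pf72953.Can

namespace Pf72953.Pow

namespace CorePAux

section ratios

variable {k E L ι : Type*} [Field k] [CharZero k] [Field E] [Field L] [Algebra k E] [Algebra k L]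
  [Algebra E L] [Fintype ι] [DecidableEq ι]

theorem ratios_zero {a : ι → L} (h : (1 : L) ∈ Ratios k E a) : (0 : L) ∈ Ratios k E a := by
  obtain ⟨m', hm', V, hV, hVne, -⟩ := h
  refine ⟨m', hm', V, hV, hVne, ?_⟩
  rw [zero_mul]
  intro w _ c t _ _ htb
  simp

end ratios

theorem coefSec_congr {k Y J : Type*} [Field k] [CharZero k] [Field Y] [Algebra k Y] [Fintype J]
    {M : SmoothModel k Y} {S : J → LineBundle M} {y : Fin (dimension k Y) → Y} {m m' : ℕ}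
    {q q' : J → ℕ} {g g' : Y} (h : g ∈ CoefSec M S y m q) (hm : m = m') (hq : ∀ j, q j = q' j)
    (hg : g = g') : g' ∈ CoefSec M S y m' q' := by
  obtain rfl : q = q' := funext hq
  subst hm hg
  exact h

end CorePAux

open CorePAux

variable {k B E Y Z P L : Type*} [Field k] [CharZero k] [IsAlgClosed k] [Field B] [Field E]
  [Field Y] [Field Z] [Field P] [Field L]
  [Algebra k B] [Algebra k E] [Algebra k Y] [Algebra k Z] [Algebra k P] [Algebra k L]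
  [Algebra B E] [Algebra B Z] [Algebra B P] [Algebra B L] [Algebra E L] [Algebra Y Z]
  [Algebra Y P] [Algebra Y L] [Algebra Z P] [Algebra Z L] [Algebra P L]
  [IsScalarTower k B E] [IsScalarTower k B Z] [IsScalarTower k B P] [IsScalarTower k B L]
  [IsScalarTower k E L] [IsScalarTower k Y Z] [IsScalarTower k Y P] [IsScalarTower k Y L]
  [IsScalarTower k Z P] [IsScalarTower k Z L] [IsScalarTower k P L] [IsScalarTower B E L]
  [IsScalarTower B Z P] [IsScalarTower B Z L] [IsScalarTower B P L] [IsScalarTower Y Z P]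
  [IsScalarTower Y Z L] [IsScalarTower Y P L] [IsScalarTower Z P L]
  [Algebra.EssFiniteType k B] [Algebra.EssFiniteType k Y] [Algebra.EssFiniteType k E]
  [FiniteDimensional E L] [FiniteDimensional Z P]
  {M : SmoothModel k Y} {A : LineBundle M}

theorem coreP {r : ℕ} (hcomp : Twr.IsCompositum k B Y Z)
    (hdim : dimension k B + dimension k Y + r = dimension k E) (hunr : Unramified k B E L)
    {s : Fin r → L} (hs : IsTranscendenceBasis Z s) {e : ℕ} {G : L} (hG : G ≠ 0)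
    (hreg : RegularOver k B Z A s e G) {x : Fin (dimension k B) → B}
    (hx : IsTranscendenceBasis k x) {y : Fin (dimension k Y) → Y}
    (hy : IsTranscendenceBasis k y) {a d δ : ℕ} (ha : 1 ≤ a) (hδ : 1 ≤ δ) (hea : e * a = d + δ)
    {h : P} (hh : h ≠ 0) (hpow : PowBd k E s e G
      (Sum.elim (fun j => algebraMap B P (x j)) (fun j => algebraMap Y P (y j))) a d h)
    {T : HSec M A y d a B P} (hT : T.sec = h) (hM : KodairaGE k Y 0) {m₁ : ℕ} (hm₁ : 1 ≤ m₁)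
    {h₀ : B} (hh₀ : h₀ ∈ WOrb k E x m₁) (hh₀ne : h₀ ≠ 0) {c₁ c₂ : ℕ} {ξ : Fin c₁ → P}
    (hξ : AlgebraicIndependent k ξ)
    (hξ' : ∀ i, (∃ f : B, ξ i = algebraMap B P f ∧ ∃ m : ℕ, 1 ≤ m ∧ ∃ h ∈ WOrb k E x m,
      h ≠ 0 ∧ f * h ∈ WOrb k E x m) ∨ ∃ l l', ξ i = T.c l / T.c l')
    (hb : AdjKodairaGE M A e c₂) : KodairaGE k E (c₁ + c₂) := by
  classical
  haveI : Algebra.EssFiniteType k Z := essFinite_Z hcomp
  haveI : Algebra.EssFiniteType k P := Algebra.EssFiniteType.comp k Z P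
  haveI : Algebra.EssFiniteType k L := Algebra.EssFiniteType.comp k E L
  obtain ⟨hdZ, hdP, hdL, hbZ, hbP, hbPL, hbL⟩ := basesC (P := P) hcomp hdim hs
  set ζ : Fin (dimension k Y) ⊕ Fin r → L := Sum.elim (fun j => algebraMap Y L (y j)) s with hζ
  have hzB : ∀ cB : Fin (dimension k B) → B, IsTranscendenceBasis k cB →
      IsTranscendenceBasis k (Sum.elim (fun i => algebraMap B L (cB i)) ζ) := fun cB hcB =>
    hbL hcB hy
  set fam : Fin (dimension k B) ⊕ (Fin (dimension k Y) ⊕ Fin r) → L :=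
    Sum.elim (fun i => algebraMap B L (x i)) ζ with hfam
  have hfamtb : IsTranscendenceBasis k fam := hzB x hx
  -- the forms on `M`
  obtain ⟨m₀, hm₀, ω₀, hω₀, hω₀ne⟩ := Br.pos_of_kodaira M (fun _ : Unit => A) hM
  obtain ⟨m₂, hm₂, η₀, hη₀, hη₀ne, φ, hφ, hφη⟩ := hb
  set g₀ := coef hy m₀ ω₀ with hg₀
  set g₂ := coef hy (e * m₂) η₀ with hg₂
  have hg₀mem := (mem_pluriSections_iff hy ω₀).mp hω₀
  have hg₂mem := (mem_pluriSections_iff hy η₀).mp hη₀
  rw [← hg₀] at hg₀mem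
  rw [← hg₂] at hg₂mem
  have hg₀ne : g₀ ≠ 0 := fun h0 => hω₀ne (by rw [eq_coef_smul hy m₀ ω₀, ← hg₀, h0, zero_smul])
  have hg₂ne : g₂ ≠ 0 := fun h0 =>
    hη₀ne (by rw [eq_coef_smul hy (e * m₂) η₀, ← hg₂, h0, zero_smul])
  have hφmem : ∀ i, φ i * g₂ ∈ CoefSec M (fun _ : Unit => A) y (e * m₂) (fun _ => m₂) :=
    fun i => by
    have := (mem_pluriSections_iff hy _).mp (hφη i)
    rwa [map_smul, smul_eq_mul] at this
  -- the certificate
  obtain ⟨C, hC⟩ := exists_hcost hy T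
  obtain ⟨l₀, hl₀⟩ : ∃ l, T.c l ≠ 0 := by
    by_contra hcon
    push Not at hcon
    apply hh
    rw [← hT]
    simp [HSec.sec, hcon]
  set β₀ : P := T.c l₀ with hβ₀
  -- the weights
  obtain ⟨p', hp'⟩ : ∃ p', p' = 2 * C * m₂ := ⟨_, rfl⟩
  obtain ⟨q, hq⟩ : ∃ q, q = m₂ := ⟨_, rfl⟩
  obtain ⟨p, hp⟩ : ∃ p, p = m₀ * p' := ⟨_, rfl⟩
  obtain ⟨n₀, hn₀⟩ : ∃ n₀, n₀ = q + p := ⟨_, rfl⟩
  have hq1 : 1 ≤ q := by omega
  have hn1 : 1 ≤ n₀ := by omega
  have hqm : 2 * (C * q) ≤ δ * (q + p) := by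
    have h1 : 2 * (C * q) = p' := by rw [hq, hp']; ring
    have h2 : p' ≤ m₀ * p' := Nat.le_mul_of_pos_left _ (by omega)
    have h3 : q + p ≤ δ * (q + p) := Nat.le_mul_of_pos_left _ (by omega)
    omega
  have hg : g₀ ^ (δ * p') * g₂ ^ a ∈
      CoefSec M (fun _ : Unit => A) y (d * q + δ * (q + p)) (fun _ => a * q) :=
    coefSec_congr (CoefSec.mul (CoefSec.pow hg₀mem (δ * p')) (CoefSec.pow hg₂mem a))
      (by
        have h1 : a * (e * m₂) = (d + δ) * m₂ := by rw [← hea]; ring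
        rw [h1, hq, hp]
        ring) (fun _ => by rw [hq]; ring) rfl
  obtain ⟨a', ha'⟩ : ∃ a', a = a' + 1 := ⟨a - 1, by omega⟩
  have hgφ : ∀ i, g₀ ^ (δ * p') * (g₂ ^ a' * (φ i * g₂)) ∈
      CoefSec M (fun _ : Unit => A) y (d * q + δ * (q + p)) (fun _ => a * q) := fun i =>
    coefSec_congr (CoefSec.mul (CoefSec.pow hg₀mem (δ * p'))
      (CoefSec.mul (CoefSec.pow hg₂mem a') (hφmem i)))
      (by
        have h1 : a' * (e * m₂) + e * m₂ = (d + δ) * m₂ := by rw [← hea, ha']; ring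
        rw [h1, hq, hp]
        ring) (fun _ => by rw [hq, ha']; ring) rfl
  -- the forms of the second factor
  set V : Y → P → L := fun g ν => algebraMap Y L g *
    algebraMap P L (ν * h ^ p) * G ^ (a * (q + p)) with hV
  have key : ∀ {g : Y}, g ∈ CoefSec M (fun _ : Unit => A) y (d * q + δ * (q + p))
      (fun _ => a * q) → ∀ {ν : P}, ν ∈ NumH T q →
      V g ν ∈ HGood k B E x ζ (d * n₀) (d * n₀ + δ * n₀) := by
    intro g hg ν hν
    rw [hn₀]
    exact mem_hgood hcomp hdim hunr hs hreg hx hy hea hpow hT hC hqm hg hν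
  have hVne : ∀ {g : Y} {ν : P}, g ≠ 0 → ν ≠ 0 → V g ν ≠ 0 := by
    intro g ν hg hν
    refine mul_ne_zero (mul_ne_zero (by simpa using hg) ?_) (pow_ne_zero _ hG)
    rw [Ne, map_eq_zero]
    exact mul_ne_zero hν (pow_ne_zero _ hh)
  have hG₀ne : g₀ ^ (δ * p') * g₂ ^ a ≠ 0 :=
    mul_ne_zero (pow_ne_zero _ hg₀ne) (pow_ne_zero _ hg₂ne)
  have hnum : ∀ (l : Fin T.r), T.c l ^ q ∈ NumH T q := fun l => by
    have := NumH.pow (NumH.coeff T l) q
    rwa [one_mul] at this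
  -- the two factors
  set 𝒲 : Bool → ℕ → Set L := fun f m => match f with
    | false => {W | ∃ n, m = (d + δ) * n ∧ W ∈ algebraMap B L '' WOrb k E x (δ * n)}
    | true => {W | ∃ n, m = (d + δ) * n ∧ W ∈ HGood k B E x ζ (d * n) (d * n + δ * n)} with h𝒲
  have hmul : ∀ f m m', ∀ W ∈ 𝒲 f m, ∀ W' ∈ 𝒲 f m', W * W' ∈ 𝒲 f (m + m') := by
    intro f m m' W hW W' hW'
    rcases f with _ | _
    · obtain ⟨n, hn, h₁, hh₁, rfl⟩ := hW
      obtain ⟨n', hn', h₂, hh₂, rfl⟩ := hW'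
      refine ⟨n + n', by rw [hn, hn']; ring, h₁ * h₂, ?_, map_mul _ _ _⟩
      rw [Nat.mul_add]
      exact WOrb.mul' hh₁ hh₂
    · obtain ⟨n, hn, hn2⟩ := hW
      obtain ⟨n', hn', hn2'⟩ := hW'
      refine ⟨n + n', by rw [hn, hn']; ring, ?_⟩
      have h1 := HGood.mul hn2 hn2'
      have h2 : d * n + δ * n + (d * n' + δ * n') = d * (n + n') + δ * (n + n') := by ring
      rwa [← Nat.mul_add, h2] at h1
  have hprod : ∀ m : ℕ, ∀ W : Bool → L, (∀ f, W f ∈ 𝒲 f m) → ∏ f, W f ∈ GoodL k E fam m := by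
    intro m W hW
    obtain ⟨n, hn, h₁, hh₁, hhW⟩ := hW false
    obtain ⟨n', hn', hW'⟩ := hW true
    have hnn : n = n' := by
      have h1 : (d + δ) * n = (d + δ) * n' := by rw [← hn, ← hn']
      exact Nat.eq_of_mul_eq_mul_left (by omega) h1
    subst hnn
    have h1 : ∏ f, W f = algebraMap B L h₁ * W true := by
      rw [Fintype.prod_bool, ← hhW, mul_comm]
    rw [h1, hn, Nat.add_mul]
    exact mul_hgood hx hzB hh₁ hW'
  have hdδ : ∀ n : ℕ, 1 ≤ n → 1 ≤ (d + δ) * n := fun n hn => Nat.mul_pos (by omega) hn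
  have hW0 : ∀ (m' : ℕ) (h' : B), h' ∈ WOrb k E x m' → h' ^ δ ∈ WOrb k E x (δ * m') := by
    intro m' h' hh'
    have := WOrb.pow hh' δ
    rwa [mul_comm m' δ] at this
  have hne : ∀ f, ∃ m : ℕ, 1 ≤ m ∧ ∃ W ∈ 𝒲 f m, W ≠ 0 := by
    intro f
    rcases f with _ | _
    · exact ⟨(d + δ) * m₁, hdδ _ hm₁, algebraMap B L (h₀ ^ δ),
        ⟨m₁, rfl, h₀ ^ δ, hW0 _ _ hh₀, rfl⟩, by simpa using pow_ne_zero _ hh₀ne⟩
    · exact ⟨(d + δ) * n₀, hdδ _ hn1, V (g₀ ^ (δ * p') * g₂ ^ a) (β₀ ^ q),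
        ⟨n₀, rfl, key hg (hnum l₀)⟩, hVne hG₀ne (pow_ne_zero _ hl₀)⟩
  have hfac := mem_ratios_of_factor (k := k) (E := E) (a := fam) 𝒲 hmul hprod hne
  -- the ratios
  have hR1 : (1 : L) ∈ Ratios k E fam :=
    hfac true 1 ⟨(d + δ) * n₀, hdδ _ hn1, V (g₀ ^ (δ * p') * g₂ ^ a) (β₀ ^ q),
      ⟨n₀, rfl, key hg (hnum l₀)⟩, hVne hG₀ne (pow_ne_zero _ hl₀),
      ⟨n₀, rfl, by rw [one_mul]; exact key hg (hnum l₀)⟩⟩
  obtain ⟨δ', hδ'⟩ : ∃ δ', δ = δ' + 1 := ⟨δ - 1, by omega⟩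
  have hRB : ∀ f : B, (∃ m : ℕ, 1 ≤ m ∧ ∃ h ∈ WOrb k E x m, h ≠ 0 ∧ f * h ∈ WOrb k E x m) →
      algebraMap B L f ∈ Ratios k E fam := by
    rintro f ⟨m', hm', h', hh', hne', hfh⟩
    refine hfac false _ ⟨(d + δ) * m', hdδ _ hm', algebraMap B L (h' ^ δ),
      ⟨m', rfl, h' ^ δ, hW0 _ _ hh', rfl⟩, by simpa using pow_ne_zero _ hne',
      ⟨m', rfl, f * h' * h' ^ δ', ?_, ?_⟩⟩
    · have h1 := WOrb.mul' hfh (WOrb.pow hh' δ')
      have h2 : m' + m' * δ' = δ * m' := by rw [hδ']; ring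
      rwa [h2] at h1
    · rw [← map_mul]
      congr 1
      rw [hδ', pow_succ]
      ring
  have hRY : ∀ i, algebraMap Y L (φ i) ∈ Ratios k E fam := by
    intro i
    refine hfac true _ ⟨(d + δ) * n₀, hdδ _ hn1, V (g₀ ^ (δ * p') * g₂ ^ a) (β₀ ^ q),
      ⟨n₀, rfl, key hg (hnum l₀)⟩, hVne hG₀ne (pow_ne_zero _ hl₀), ⟨n₀, rfl, ?_⟩⟩
    have h2 : algebraMap Y L (φ i) * V (g₀ ^ (δ * p') * g₂ ^ a) (β₀ ^ q) =
        V (g₀ ^ (δ * p') * (g₂ ^ a' * (φ i * g₂))) (β₀ ^ q) := by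
      have h3 : g₀ ^ (δ * p') * (g₂ ^ a' * (φ i * g₂)) = φ i * (g₀ ^ (δ * p') * g₂ ^ a) := by
        have h4 : g₂ ^ a = g₂ ^ a' * g₂ := by rw [ha', pow_succ]
        rw [h4]
        ring
      rw [h3, hV]
      simp only
      rw [map_mul (algebraMap Y L) (φ i)]
      ring
    rw [h2]
    exact key (hgφ i) (hnum l₀)
  have hRT : ∀ l l', algebraMap P L (T.c l / T.c l') ∈ Ratios k E fam := by
    intro l l'
    by_cases hβ0 : T.c l' = 0
    · rw [hβ0, div_zero, map_zero]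
      exact ratios_zero hR1
    · obtain ⟨q', hq'⟩ : ∃ q', q = q' + 1 := ⟨q - 1, by omega⟩
      have hn : ∀ (l₁ : Fin T.r), T.c l₁ * T.c l' ^ q' ∈ NumH T q := by
        intro l₁
        have h1 := NumH.mul (NumH.coeff T l₁) (NumH.pow (NumH.coeff T l') q')
        rwa [one_mul, add_comm, ← hq'] at h1
      refine hfac true _ ⟨(d + δ) * n₀, hdδ _ hn1,
        V (g₀ ^ (δ * p') * g₂ ^ a) (T.c l' * T.c l' ^ q'),
        ⟨n₀, rfl, key hg (hn l')⟩, hVne hG₀ne (mul_ne_zero hβ0 (pow_ne_zero _ hβ0)),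
        ⟨n₀, rfl, ?_⟩⟩
      have h2 : algebraMap P L (T.c l / T.c l') *
          V (g₀ ^ (δ * p') * g₂ ^ a) (T.c l' * T.c l' ^ q') =
          V (g₀ ^ (δ * p') * g₂ ^ a) (T.c l * T.c l' ^ q') := by
        have h3 : T.c l * T.c l' ^ q' = (T.c l / T.c l') * (T.c l' * T.c l' ^ q') := by
          field_simp
        rw [h3, hV]
        simp only [map_mul]
        ring
      rw [h2]
      exact key hg (hn l)
  -- the algebraically independent family
  have hξL : AlgebraicIndependent k (fun i => algebraMap P L (ξ i)) :=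
    hξ.map' (f := IsScalarTower.toAlgHom k P L) (algebraMap P L).injective
  have hξB : ∀ i, IsAlgebraic B (algebraMap P L (ξ i)) := by
    intro i
    refine IsAlgebraic.algebraMap ?_
    rcases hξ' i with ⟨f, hf, -⟩ | ⟨l, l', hi⟩
    · rw [hf]
      exact isAlgebraic_algebraMap f
    · rw [hi, div_eq_mul_inv]
      exact (T.c_alg l).mul (T.c_alg l').inv
  have hind := indC (ψ := (Fin.elim0 : Fin 0 → L)) hcomp hdZ hξL hξB hφ (by
    rw [algebraicIndependent_empty_type_iff]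
    exact (algebraMap Z L).injective)
  let eq : (Fin c₁ ⊕ Fin c₂) ⊕ Fin 0 ≃ Fin (c₁ + c₂) :=
    (Equiv.sumEmpty _ _).trans finSumFinEquiv
  have hθind := hind.comp _ eq.symm.injective
  refine Twr.of_good' (a := fam) hfamtb hθind (fun i => ?_) hR1
  simp only [Function.comp_apply]
  rcases eq.symm i with (i' | i') | i'
  · simp only [Sum.elim_inl]
    rcases hξ' i' with ⟨f, hf, hfm⟩ | ⟨l, l', hi⟩
    · rw [hf, ← IsScalarTower.algebraMap_apply B P L]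
      exact hRB f hfm
    · rw [hi]
      exact hRT l l'
  · simp only [Sum.elim_inl, Sum.elim_inr]
    exact hRY i'
  · exact i'.elim0

end Pf72953.Pow
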