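import Mathlib
import Pool.Agent.Lib.Pf72953c.CountN
import Pool.Agent.Lib.Pf72953p.Defs

/-!
MODULE Pf72953p.DescP: functions on `M` over `κ` with the local bounds are combinations `∑ c_l s_l` of sections of `d K_M + a A`.

PROOF.  This is the descent part of `Pf72953c/CountN.lean` without the norm (`K = P`).
`locH_expand`: for every chart `i`, `F ∈ bc κ P (M.A i) · u_i`, `u_i = A.gen i ^ a * (jac (M.tb i) y ^ d)⁻¹`: otherwise Hartogs' theorem (`((chart_of_model M i).baseChange hxP hgen).hartogs`, exactly as in `CountNAux.locBdN_mem`, with `K := P`) gives a divisorial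
valuation `v` of `P/κ` with `RegBasis κ v x_i`, `v ≤ 1` on `bc κ P (M.A i)` and `v (F / u_i) > 1`, which contradicts `F ∈ LocH`.  Then `descent b hlin M.A u` (Pf72953u/BaseCh.lean; `hlin` = `linearIndependent_const`, as in `countN_aux`) gives the expansion
`F = ∑ b_g p_g` with `p_g ∈ M.A i * u_i` for all `i`, i.e. `p_g ∈ CoefSec` (as `hVu` there).
`exists_hsec`: `b := Module.Basis.ofVectorSpace k κ`, `F = ∑_{g ∈ supp} b_g p_g` (a finite sum).  `CoefSec M (fun _ => A) y d (fun _ => a)` is closed under `k`-linear combinations (`f + f'`, `c f` in the subalgebra `M.A i`).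
Let `W` be the `k`-span of the finitely many `p_g`, `s : Fin r → Y` a basis of `W` (`Module.finBasis`, or `exists_linearIndependent`), `p_g = ∑_l c_{gl} s_l` with `c_{gl} ∈ k`; `c_l := algebraMap κ P (∑_g c_{gl} b_g)`, algebraic over `B`
(`Algebra.IsAlgebraic B κ`, `IsAlgebraic.algebraMap`).  Exchange the two sums.
-/

set_option autoImplicit false
set_option linter.style.haveILetI false
set_option linter.unusedSectionVars false

open scoped WithZero
open Pf72953 Pf72953.Mov Pf72953.Up Pf72953.Can

namespace Pf72953.Pow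

variable {k κ Y P : Type*} [Field k] [CharZero k] [IsAlgClosed k] [Field κ] [CharZero κ]
  [Field Y] [Field P] [Algebra k κ] [Algebra k Y] [Algebra k P] [Algebra κ P] [Algebra Y P]
  [IsScalarTower k κ P] [IsScalarTower k Y P] [Algebra.EssFiniteType k Y]
  [Algebra.EssFiniteType κ P] {M : SmoothModel k Y} {A : LineBundle M}

theorem locH_expand [Nonempty M.I] {β : Type*} (b : Module.Basis β k κ)
    (htb : ∀ y : Fin (dimension k Y) → Y, IsTranscendenceBasis k y →
      IsTranscendenceBasis κ (fun i => algebraMap Y P (y i)))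
    (hgen : ∀ z : P, z ∈ IntermediateField.adjoin κ (Set.range (algebraMap Y P)))
    {y : Fin (dimension k Y) → Y} (hy : IsTranscendenceBasis k y) {d a : ℕ} {F : P}
    (hF : F ∈ LocH κ A y d a) :
    ∃ p : β →₀ Y, F = p.sum (fun g z => algebraMap κ P (b g) * algebraMap Y P z) ∧
      ∀ g, p g ∈ CoefSec M (fun _ : Unit => A) y d (fun _ => a) := by
  classical
  have hlin : LinearIndependent Y (fun g => algebraMap κ P (b g)) :=
    linearIndependent_const hy (htb y hy) b.linearIndependent
  set u : M.I → Y := fun i => A.gen i ^ a * (jac (M.tb i) y ^ d)⁻¹ with hu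
  have hmem : ∀ i, ∃ f ∈ bc κ P (M.A i), F = f * algebraMap Y P (u i) := by
    intro i
    have hjac : jac (M.tb i) y ≠ 0 := jac_ne_zero hy (M.tb i)
    have hA0 : A.gen i ≠ 0 := A.ne i
    have hu0 : u i ≠ 0 := mul_ne_zero (pow_ne_zero _ hA0) (inv_ne_zero (pow_ne_zero _ hjac))
    have huP : algebraMap Y P (u i) ≠ 0 := by simpa using hu0
    refine ⟨F / algebraMap Y P (u i), ?_, by rw [div_mul_cancel₀ _ huP]⟩
    by_contra hcon
    have hxP := htb _ (M.tb i)
    obtain ⟨v, hv, hvx, hvA, hvF⟩ := ((chart_of_model M i).baseChange hxP hgen).hartogs hcon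
    refine absurd hvF (not_lt.mpr ?_)
    have h1 := hF v hv i hvx hvA
    have hjP : algebraMap Y P (jac (M.tb i) y) ≠ 0 := by simpa using hjac
    have hAP : algebraMap Y P (A.gen i) ≠ 0 := by simpa using hA0
    have h2 : F / algebraMap Y P (u i) = F * algebraMap Y P (jac (M.tb i) y) ^ d /
        algebraMap Y P (A.gen i) ^ a := by
      rw [div_eq_iff huP, hu]
      simp only [map_mul, map_inv₀, map_pow]
      field_simp
    rw [h2, map_div₀, map_pow v (algebraMap Y P (A.gen i))]
    exact div_le_one_of_le₀ h1 zero_le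
  obtain ⟨p, hp, hpu⟩ := descent b hlin M.A u hmem
  refine ⟨p, hp, fun g i => ?_⟩
  obtain ⟨f, hf, h⟩ := hpu i g
  refine ⟨f, hf, ?_⟩
  have hjac : jac (M.tb i) y ≠ 0 := jac_ne_zero hy (M.tb i)
  rw [h, hu, Fintype.prod_unique]
  field_simp

namespace DescPAux

/-- the space of the coefficients of the sections -/
def coefSub (A : LineBundle M) (y : Fin (dimension k Y) → Y) (d a : ℕ) : Submodule k Y where
  carrier := CoefSec M (fun _ : Unit => A) y d (fun _ => a)
  add_mem' := by
    intro f g hf hg i
    obtain ⟨f', hf', h1⟩ := hf i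
    obtain ⟨g', hg', h2⟩ := hg i
    refine ⟨f' + g', (M.A i).add_mem hf' hg', ?_⟩
    rw [add_mul, h1, h2, add_mul]
  zero_mem' := by
    intro i
    exact ⟨0, (M.A i).zero_mem, by rw [zero_mul, zero_mul]⟩
  smul_mem' := by
    intro c g hg i
    obtain ⟨g', hg', h2⟩ := hg i
    refine ⟨c • g', (M.A i).smul_mem hg' c, ?_⟩
    rw [smul_mul_assoc, h2, smul_mul_assoc]

end DescPAux

open DescPAux

theorem exists_hsec [Nonempty M.I] {B : Type*} [Field B] [Algebra B κ] [Algebra B P]
    [IsScalarTower B κ P] [Algebra.IsAlgebraic B κ]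
    (htb : ∀ y : Fin (dimension k Y) → Y, IsTranscendenceBasis k y →
      IsTranscendenceBasis κ (fun i => algebraMap Y P (y i)))
    (hgen : ∀ z : P, z ∈ IntermediateField.adjoin κ (Set.range (algebraMap Y P)))
    {y : Fin (dimension k Y) → Y} (hy : IsTranscendenceBasis k y) {d a : ℕ} {F : P}
    (hF : F ∈ LocH κ A y d a) : ∃ T : HSec M A y d a B P, T.sec = F := by
  classical
  let b := Module.Basis.ofVectorSpace k κ
  obtain ⟨p, hp, hpV⟩ := locH_expand b htb hgen hy hF
  let W : Submodule k Y := Submodule.span k ((fun g => p g) '' (p.support : Set _))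
  have hWV : W ≤ coefSub A y d a := by
    rw [Submodule.span_le]
    rintro _ ⟨g, -, rfl⟩
    exact hpV g
  haveI : Module.Finite k W :=
    Module.Finite.span_of_finite k (p.support.finite_toSet.image _)
  have hpW : ∀ g, p g ∈ W := by
    intro g
    by_cases hg : g ∈ p.support
    · exact Submodule.subset_span ⟨g, hg, rfl⟩
    · rw [Finsupp.notMem_support_iff.mp hg]
      exact W.zero_mem
  let s' := Module.finBasis k W
  let c : Fin (Module.finrank k W) → _ → k := fun l g => s'.repr ⟨p g, hpW g⟩ l
  have hpc : ∀ g, p g = ∑ l, c l g • (s' l : Y) := by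
    intro g
    have h1 := congrArg Subtype.val (s'.sum_repr ⟨p g, hpW g⟩)
    rw [Submodule.coe_sum] at h1
    exact h1.symm
  refine ⟨{ r := Module.finrank k W
            s := fun l => (s' l : Y)
            c := fun l => algebraMap κ P (∑ g ∈ p.support, algebraMap k κ (c l g) * b g)
            s_mem := fun l => hWV (s' l).2
            s_indep := s'.linearIndependent.map' W.subtype W.ker_subtype
            c_alg := fun l => (Algebra.IsAlgebraic.isAlgebraic (R := B) _).algebraMap }, ?_⟩
  change ∑ l, algebraMap κ P (∑ g ∈ p.support, algebraMap k κ (c l g) * b g) *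
    algebraMap Y P (s' l : Y) = F
  rw [hp, Finsupp.sum]
  have h2 : ∀ g ∈ p.support, algebraMap κ P (b g) * algebraMap Y P (p g) =
      ∑ l, algebraMap κ P (b g) * (algebraMap k P (c l g) * algebraMap Y P (s' l : Y)) := by
    intro g _
    rw [hpc g, map_sum, Finset.mul_sum]
    refine Finset.sum_congr rfl fun l _ => ?_
    rw [Algebra.smul_def, map_mul, ← IsScalarTower.algebraMap_apply k Y P]
  rw [Finset.sum_congr rfl h2, Finset.sum_comm]
  refine Finset.sum_congr rfl fun l _ => ?_
  rw [map_sum, Finset.sum_mul]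
  refine Finset.sum_congr rfl fun g _ => ?_
  rw [map_mul, ← IsScalarTower.algebraMap_apply k κ P]
  ring

end Pf72953.Pow
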