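import Mathlib
import Pool.Agent.Lib.Pf72953c.CountN
import Pool.Agent.Lib.Pf72953p.DescP

/-!
MODULE Pf72953p.CountP: counting sections of `e K_M + A` over the field `κ` of constants (`P = κ·Y`).

PROOF.  As `countN_aux` (Pf72953c/CountN.lean) without the norm: `V = CoefSec M (fun _ => A) y (e * m) (fun _ => m)`; by `locH_expand` (DescP.lean, `b := Module.Basis.ofVectorSpace k κ`) every `F ∈ LocH κ A y (e * m) m` is `∑ b_g p_g` with `p_g ∈ V`.
`f₀ ≠ 0` gives `v₀ ∈ V`, `v₀ ≠ 0`.  `T = {algebraMap Y P (p / v₀) | p ∈ V} ⊆ P`, `F₀ = IntermediateField.adjoin κ T`; `F / v₀ ∈ F₀` for `F ∈ LocH`; so `f i = (f i * f₀ / v₀) / (f₀ / v₀) ∈ F₀` is algebraic over `Algebra.adjoin κ T`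
(`IntermediateField.isAlgebraic_adjoin_iff`, `isAlgebraic_algebraMap`).  `exists_indep_in_set T _ hf ..` gives `ψ : Fin c → P` algebraically independent over `κ` with values in `T`; `p i / v₀` is algebraically independent over `k` (as `hp'` in `countN_aux`), and
`v₀ • pureForm k (fun _ => y)` is the first form (end of `countN_aux`).
-/

set_option autoImplicit false
set_option linter.style.haveILetI false
set_option linter.unusedSectionVars false

open scoped WithZero
open Pf72953 Pf72953.Mov Pf72953.Up Pf72953.Can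

namespace Pf72953.Pow

variable {k κ Y P : Type*} [Field k] [CharZero k] [IsAlgClosed k] [Field κ] [CharZero κ]
  [Field Y] [Field P] [Algebra k κ] [Algebra k Y] [Algebra k P] [Algebra κ P] [Algebra Y P]
  [IsScalarTower k κ P] [IsScalarTower k Y P] [Algebra.EssFiniteType k Y]
  [Algebra.EssFiniteType κ P] {M : SmoothModel k Y} {A : LineBundle M}

theorem countP [Nonempty M.I]
    (htb : ∀ y : Fin (dimension k Y) → Y, IsTranscendenceBasis k y →
      IsTranscendenceBasis κ (fun i => algebraMap Y P (y i)))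
    (hgen : ∀ z : P, z ∈ IntermediateField.adjoin κ (Set.range (algebraMap Y P)))
    {y : Fin (dimension k Y) → Y} (hy : IsTranscendenceBasis k y) {e m c : ℕ} (hm : 1 ≤ m)
    {f₀ : P} (hf₀ : f₀ ∈ LocH κ A y (e * m) m) (hne : f₀ ≠ 0) {f : Fin c → P}
    (hf : AlgebraicIndependent κ f) (hff : ∀ i, f i * f₀ ∈ LocH κ A y (e * m) m) :
    AdjKodairaGE M A e c := by
  classical
  let b := Module.Basis.ofVectorSpace k κ
  set V : Set Y := CoefSec M (fun _ : Unit => A) y (e * m) (fun _ => m) with hV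
  have hexp : ∀ g ∈ LocH κ A y (e * m) m, ∃ p : _ →₀ Y,
      (g = p.sum fun g z => algebraMap κ P (b g) * algebraMap Y P z) ∧ ∀ g, p g ∈ V :=
    fun g hg => locH_expand b htb hgen hy hg
  -- the base section
  obtain ⟨v₀, hv₀, hv₀ne⟩ : ∃ v₀ ∈ V, v₀ ≠ 0 := by
    obtain ⟨p, hp, hpV⟩ := hexp f₀ hf₀
    by_contra hcon
    push Not at hcon
    apply hne
    rw [hp]
    refine Finset.sum_eq_zero fun g _ => ?_
    change algebraMap κ P (b g) * algebraMap Y P (p g) = 0
    rw [hcon _ (hpV g), map_zero, mul_zero]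
  have hv₀P : algebraMap Y P v₀ ≠ 0 := by simpa using hv₀ne
  -- the ratios of sections
  set T : Set P := {θ | ∃ p ∈ V, θ = algebraMap Y P (p / v₀)} with hT
  set F₀ := IntermediateField.adjoin κ T with hF₀
  have hmemF : ∀ g ∈ LocH κ A y (e * m) m, g / algebraMap Y P v₀ ∈ F₀ := by
    intro g hg
    obtain ⟨p, hp, hpV⟩ := hexp g hg
    rw [hp, Finsupp.sum, Finset.sum_div]
    refine F₀.sum_mem fun q _ => ?_
    rw [mul_div_assoc, ← map_div₀]
    exact F₀.mul_mem (F₀.algebraMap_mem _) (IntermediateField.subset_adjoin κ T ⟨_, hpV q, rfl⟩)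
  have hfF : ∀ i, f i ∈ F₀ := by
    intro i
    have h1 := F₀.div_mem (hmemF _ (hff i)) (hmemF _ hf₀)
    have h2 : f i * f₀ / algebraMap Y P v₀ / (f₀ / algebraMap Y P v₀) = f i := by
      field_simp
    rwa [h2] at h1
  have halg : ∀ i, IsAlgebraic (Algebra.adjoin κ T) (f i) := by
    intro i
    rw [← IntermediateField.isAlgebraic_adjoin_iff]
    exact isAlgebraic_algebraMap (⟨f i, hfF i⟩ : F₀)
  obtain ⟨ψ, hψ, hψT⟩ := exists_indep_in_set T _ hf halg
  choose p hp hpψ using hψT
  have hp' : AlgebraicIndependent k (fun i => p i / v₀) := by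
    have h1 : AlgebraicIndependent k ψ := hψ.restrictScalars (algebraMap k κ).injective
    have h2 : ψ = fun i => (IsScalarTower.toAlgHom k Y P) (p i / v₀) := funext hpψ
    rw [h2] at h1
    exact AlgebraicIndependent.of_comp _ h1
  refine ⟨m, hm, v₀ • pureForm k (fun _ => y), ?_, ?_, fun i => p i / v₀, hp', fun i => ?_⟩
  · rw [mem_pluriSections_iff hy, map_smul, coef_self, smul_eq_mul, mul_one]
    exact hv₀
  · intro h
    have := congrArg (coef hy (e * m)) h
    rw [map_smul, coef_self, smul_eq_mul, mul_one, map_zero] at this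
    exact hv₀ne this
  · rw [mem_pluriSections_iff hy, map_smul, map_smul, coef_self, smul_eq_mul, smul_eq_mul,
      mul_one, div_mul_cancel₀ _ hv₀ne]
    exact hp i

end Pf72953.Pow
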