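import Mathlib
import Pool.Agent.Lib.Pf72953w.Est
import Pool.Agent.Lib.Pf72953r.DiagLib
import Pool.Agent.Lib.Pf72953p.Defs

/-!
MODULE Pf72953p.FormP: a form on the fibre power of `E/V`, `κ(E/V) ≤ 0`, is `b ∏ i_j g`.

PROOF (compare `twDiagGE_of_fibre`, Pf72953w/Main.lean, and `prod_form'`, Pf72953w/Est.lean).
`hQ` gives `m, n, x`, `ω₀ ≠ 0` in `twisted k Q x m n`.  `coord i x s` is a transcendence basis of `Q/k` (`tb_rel hx (h.tb hs)`), reindexed by an equivalence with `Fin (dimension k Q)` (`card_eq_of_isTranscendenceBasis`);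
`f = coef hz m ω₀ ≠ 0` (`eq_coef_smul`) is in `TwReg k x (coord i x s ∘ e) m n` by `mem_twisted_iff`, so in `TwReg k x (coord i x s) m n` by `TwReg.reindex` (with `e.symm`), and in `WReg V (rcoord i s) m` by `TwReg.rel hx (h.tb hs)`.
Then copy the proof of `prod_form'`: if all elements of `WReg V s m` vanish, `kunneth` gives `f = 0`; otherwise take `g ∈ WReg V s m`, `g ≠ 0`, and `f = b ∏ i_j g` (`kunneth`, `ProdForm.prop`); `b ≠ 0` since `f ≠ 0`.
-/

set_option autoImplicit false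
set_option linter.style.haveILetI false
set_option linter.unusedSectionVars false

open scoped WithZero
open Pf72953 Pf72953.Fib

namespace Pf72953.Pow

theorem exists_form {k V E Q : Type*} [Field k] [CharZero k] [Field V] [Field E] [Field Q]
    [Algebra k V] [Algebra k E] [Algebra k Q] [Algebra V E] [Algebra V Q] [IsScalarTower k V E]
    [IsScalarTower k V Q] [CharZero V] [Algebra.EssFiniteType k V] [Algebra.EssFiniteType k E]
    (hV : ClosedIn V E) (hκ : ¬ KodairaGE V E 1) {ρ : ℕ} (hρ : 1 ≤ ρ) {i : Fin ρ → E →ₐ[V] Q}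
    (h : IsFibrePower V E Q i) (hQ : TwKodairaGE k V Q (ρ - 1) 0) {r : ℕ} {s : Fin r → E}
    (hs : IsTranscendenceBasis V s) :
    ∃ (m n : ℕ) (x : Fin (dimension k V) → V) (b : V) (g : E), 1 ≤ m ∧ n < (ρ - 1) * m ∧
      IsTranscendenceBasis k x ∧ b ≠ 0 ∧ g ≠ 0 ∧ g ∈ WReg V s m ∧
      algebraMap V Q b * ∏ j, i j g ∈ TwReg k x (coord i x s) m n := by
  classical
  haveI : Algebra.EssFiniteType V E := Algebra.EssFiniteType.of_comp k V E
  haveI : Algebra.EssFiniteType V Q := h.essFiniteType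
  haveI : Algebra.EssFiniteType k Q := Algebra.EssFiniteType.comp k V Q
  obtain ⟨m, n, x, hm, hn, hx, ω₀, hω₀, hω₀ne, -⟩ := hQ
  have htb : IsTranscendenceBasis k (coord i x s) := tb_rel hx (h.tb hs)
  have hcard : Fintype.card (Fin (dimension k V) ⊕ Fin ρ × Fin r) = dimension k Q :=
    card_eq_of_isTranscendenceBasis htb
  let e : Fin (dimension k Q) ≃ Fin (dimension k V) ⊕ Fin ρ × Fin r :=
    (Fintype.equivFinOfCardEq hcard).symm
  have htb' : IsTranscendenceBasis k (coord i x s ∘ e) := (isTranscendenceBasis_equiv e).mpr htb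
  set f₀ : Q := coef htb' m ω₀ with hf₀def
  have hf₀ : f₀ ∈ TwReg k x (coord i x s ∘ e) m n := (mem_twisted_iff htb' m n ω₀).mp hω₀
  have hf₀ne : f₀ ≠ 0 := by
    intro h0
    apply hω₀ne
    rw [eq_coef_smul htb' m ω₀, ← hf₀def, h0, zero_smul]
  have hf₁ : f₀ ∈ TwReg k x (coord i x s) m n := by
    have h2 := TwReg.reindex hf₀ e.symm
    have h3 : (coord i x s ∘ e) ∘ e.symm = coord i x s := by funext a; simp
    rwa [h3] at h2
  have hrel : f₀ ∈ WReg V (rcoord i s) m := TwReg.rel hx (h.tb hs) hf₁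
  by_cases hzero : ∀ g ∈ WReg V s m, g = 0
  · exfalso
    apply hf₀ne
    obtain ⟨n', c, g, hg, hfg⟩ := h.kunneth hV hs m ρ f₀ hrel
    rw [hfg]
    refine Finset.sum_eq_zero fun a _ => ?_
    have h0 : ∏ j, i j (g a j) = 0 :=
      Finset.prod_eq_zero (Finset.mem_univ (⟨0, hρ⟩ : Fin ρ)) (by rw [hzero _ (hg a _), map_zero])
    rw [h0, mul_zero]
  · push Not at hzero
    obtain ⟨g, hgm, hg0⟩ := hzero
    obtain ⟨n', c, G, hG, hfG⟩ := h.kunneth hV hs m ρ f₀ hrel
    choose lam hlam using fun a j => ProdForm.prop hV hs hκ hm hg0 hgm (hG a j)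
    have hf₀eq : f₀ = algebraMap V Q (∑ a, c a * ∏ j, lam a j) * ∏ j, i j g := by
      rw [hfG, map_sum, Finset.sum_mul]
      refine Finset.sum_congr rfl fun a _ => ?_
      have h1 : ∏ j, i j (G a j) = algebraMap V Q (∏ j, lam a j) * ∏ j, i j g := by
        rw [map_prod, ← Finset.prod_mul_distrib]
        refine Finset.prod_congr rfl fun j _ => ?_
        rw [hlam a j, map_mul, AlgHom.commutes]
      rw [h1, map_mul, mul_assoc]
    refine ⟨m, n, x, ∑ a, c a * ∏ j, lam a j, g, hm, hn, hx, ?_, hg0, hgm, ?_⟩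
    · intro h0
      apply hf₀ne
      rw [hf₀eq, h0, map_zero, zero_mul]
    · rw [← hf₀eq]
      exact hf₁

end Pf72953.Pow
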