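import Mathlib
import Pool.Agent.Lib.Pf72953p.Defs

/-!
MODULE Pf72953p.LiftP: the bounds on `E`, relative to `V`, lift to bounds on `L ⊇ E` relative to the algebraic extension `P` of `V`.

PROOF.  `L/E` finite, `P/V` algebraic.  Let `ε : ι ≃ Fin (dimension k V)` (`card_eq_of_isTranscendenceBasis` for `z` and for `x' = fun i => algebraMap V P (x (ε i))`, a transcendence basis of `P/k`: `IsTranscendenceBasis.algebraMap_comp`;
so `Fintype.card ι = dimension k P = dimension k V`), `J = jac hz x'`, `J ≠ 0` by `jac_ne_zero`.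
Let `w, t, cP, hcP, c, hc` be as in the conclusion, `v = w.comap (algebraMap E L)` (divisorial by hypothesis).  `v` is nontrivial on `V`: otherwise `w` is trivial on `P` by `val_eq_one_of_isIntegral` (Pf72953/Estimate.lean).
Choose a log basis `cV` of `V` for the restriction of `v` and `y : Fin r → E` with `(cV, y)` a log basis of `E` for `v`, such that `cV ∘ ε` (in `P`) is a log basis of `P` for `w.comap (algebraMap P L)` and `(cV ∘ ε, y)` (in `L`) a log basis
of `L` for `w`: as in the proof of `exists_logBasis_ext` (Pf72953c/RelS.lean, with `P := V`, `L := E`): `cV = (tV, ξ)` adapted for the restriction to `V` (`IsDivisorial.restrict`, `exists_adapted`), extended by residually independent elements `y`; adapted systems stay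
adapted in the algebraic extensions `P` and `L` (`Adapted.map`), and adapted systems are log bases (`Adapted.logBasis`).
Then (1) `relS cP hc s' = relS (cV ∘ ε) hc₁ s'` (`relS_eq`, with `hc₁` the log basis `(cV ∘ ε, y)` of `L`, `s' j = algebraMap E L (s j)`) `= relS cV hc₀ s`, `hc₀` the log basis `(cV, y)` of `E`: both are the value of the Jacobian determinant of `(cV, s)` with respect to
`(cV, y)` times `∏ w (y)` (`jac_algebraMap`, Pf72953/DBasis.lean; reindex by `ε` with `jac_reindex`).
(2) `w (jac hcP.tb x') * ∏ w (cP) = v (jac hcV.tb x) * ∏ v (cV)` (`LogBasis.vol_eq` for `hcP` and `cV ∘ ε`, `jac_algebraMap`, `jac_reindex`), and `jac hcP.tb x' = jac hcP.tb z * J` (`jac_chain hz hcP.tb`).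
So the claim is `hbd v ..` for `cV` and `(cV, y)`.
-/

set_option autoImplicit false
set_option linter.style.haveILetI false
set_option linter.unusedSectionVars false

open scoped WithZero
open Pf72953 Pf72953.Can

namespace Pf72953.Pow

namespace LiftAux

/-- Jacobians lift to algebraic extensions, with a reindexing -/
theorem jac_lift {k E L σ τ : Type*} [Field k] [CharZero k] [Field E] [Field L] [Algebra k E]
    [Algebra k L] [Algebra E L] [IsScalarTower k E L] [Fintype σ] [DecidableEq σ] [Fintype τ]
    [DecidableEq τ] (e : τ ≃ σ) {c₀ : σ → E} (h₀ : IsTranscendenceBasis k c₀) {c₁ : τ → L}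
    (h₁ : IsTranscendenceBasis k c₁) (hc : ∀ q, c₁ q = algebraMap E L (c₀ (e q))) (a₀ : σ → E)
    (a₁ : τ → L) (ha : ∀ q, a₁ q = algebraMap E L (a₀ (e q))) :
    jac h₁ a₁ = algebraMap E L (jac h₀ a₀) := by
  obtain rfl : c₁ = fun q => algebraMap E L (c₀ (e q)) := funext hc
  obtain rfl : a₁ = fun q => algebraMap E L (a₀ (e q)) := funext ha
  have h2 : IsTranscendenceBasis k (fun i => algebraMap E L (c₀ i)) :=
    (isTranscendenceBasis_equiv e).mp h₁
  rw [← jac_algebraMap h₀ h2 a₀]
  exact jac_reindex e h2 h₁ (fun i => algebraMap E L (a₀ i))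

theorem swap_tb {k L σ τ : Type*} [Field k] [Field L] [Algebra k L] {a : σ → L} {b : τ → L}
    (h : IsTranscendenceBasis k (Sum.elim b a)) : IsTranscendenceBasis k (Sum.elim a b) := by
  have h1 := (isTranscendenceBasis_equiv (Equiv.sumComm σ τ)).mpr h
  convert h1 using 1
  funext q
  rcases q with q | q <;> rfl

/-- adapted families, reindexed -/
theorem adapted_equiv {k K σ τ : Type*} [Field k] [Field K] [Algebra k K] {w : Valuation K ℤᵐ⁰}
    {c : σ → K} {t : K} (h : Adapted k w c t) (e : τ ≃ σ) {c' : τ → K}
    (hc : ∀ q, c' q = c (e q)) : Adapted k w c' t := by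
  obtain rfl : c' = fun q => c (e q) := funext hc
  obtain ⟨r, e', x, hx, ht0, ht, rfl⟩ := h
  exact ⟨r, e.trans e', x, hx, ht0, ht, rfl⟩

theorem exists_adapted_ext {k V E : Type*} [Field k] [CharZero k] [Field V] [Field E]
    [Algebra k V] [Algebra k E] [Algebra V E] [IsScalarTower k V E] [Algebra.EssFiniteType k V]
    [Algebra.EssFiniteType k E] {r : ℕ} (hdim : dimension k V + r = dimension k E)
    {v : Valuation E ℤᵐ⁰} (hv : IsDivisorial k E v)
    (hnt : ∃ a : V, a ≠ 0 ∧ v (algebraMap V E a) ≠ 1) :
    ∃ (cV : Fin (dimension k V) → V) (y : Fin r → E) (tV : V),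
      Adapted k (v.comap (algebraMap V E)) cV tV ∧
      Adapted k v (Sum.elim (fun i => algebraMap V E (cV i)) y) (algebraMap V E tV) := by
  have hB : IsDivisorial k V (v.comap (algebraMap V E)) := hv.restrict hnt
  obtain ⟨cP, tP, htP, hcP⟩ := hB.exists_adapted (ι := Fin (dimension k V)) (Fintype.card_fin _)
  have hcP' := hcP
  obtain ⟨n, e, ξ, hξ, ht0, ht1, hcPeq⟩ := hcP
  have hr : dimension k V = n + 1 := by
    have := Fintype.card_congr e
    simpa using this
  have hξL : ResIndep k v (fun i => algebraMap V E (ξ i)) := by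
    intro p hp
    have h1 := hξ p hp
    rw [Valuation.comap_apply] at h1
    rw [← h1]
    congr 1
    exact MvPolynomial.aeval_algebraMap_apply _ ξ p
  obtain ⟨y, hy⟩ := RelSAux.exists_ext (τ := Fin r) hv hξL (by
    rw [Fintype.card_fin, Fintype.card_fin]
    omega)
  refine ⟨cP, y, tP, hcP', ?_⟩
  refine RelSAux.adapted_of hy (by simpa using ht0) ht1
    ((Equiv.sumCongr e (Equiv.refl (Fin r))).trans (RelSAux.eqvL (Fin n) (Fin r))) ?_
  rintro (i | j)
  · rw [Sum.elim_inl, hcPeq]
    simp only [Function.comp_apply, Equiv.trans_apply, Equiv.sumCongr_apply, Sum.map_inl]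
    rcases e i with _ | o <;> rfl
  · rfl

end LiftAux

open LiftAux

theorem lift_bound {k V E P L ι : Type*} [Field k] [CharZero k] [Field V] [Field E] [Field P]
    [Field L] [Algebra k V] [Algebra k E] [Algebra k P] [Algebra k L] [Algebra V E] [Algebra V P]
    [Algebra V L] [Algebra E L] [Algebra P L] [IsScalarTower k V E] [IsScalarTower k V P]
    [IsScalarTower k V L] [IsScalarTower k E L] [IsScalarTower k P L] [IsScalarTower V E L]
    [IsScalarTower V P L] [Algebra.EssFiniteType k V] [Algebra.EssFiniteType k E]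
    [Algebra.EssFiniteType k P] [FiniteDimensional E L] [Algebra.IsAlgebraic V P] [Fintype ι]
    [DecidableEq ι] {z : ι → P} (hz : IsTranscendenceBasis k z) {x : Fin (dimension k V) → V}
    (hx : IsTranscendenceBasis k x) {r : ℕ} {s : Fin r → E} (hs : IsTranscendenceBasis V s)
    {a d : ℕ} {u : E}
    (hbd : ∀ v : Valuation E ℤᵐ⁰, IsDivisorial k E v →
      (∃ a : V, a ≠ 0 ∧ v (algebraMap V E a) ≠ 1) → ∀ t : E, IsUnif v t →
      ∀ (cV : Fin (dimension k V) → V) (hcV : LogBasis k (v.comap (algebraMap V E)) cV)
        (c : Fin (dimension k V) ⊕ Fin r → E) (hc : LogBasis k v c),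
        v u * relS cV hc s ^ a *
          (v (algebraMap V E (jac hcV.tb x)) * ∏ j, v (algebraMap V E (cV j))) ^ d ≤ v t ^ d) :
    ∃ J : P, J ≠ 0 ∧ ∀ w : Valuation L ℤᵐ⁰, IsDivisorial k E (w.comap (algebraMap E L)) →
      ∀ t : E, IsUnif (w.comap (algebraMap E L)) t →
      (∃ p : P, p ≠ 0 ∧ w (algebraMap P L p) ≠ 1) →
      ∀ (cP : ι → P) (hcP : LogBasis k (w.comap (algebraMap P L)) cP) (c : ι ⊕ Fin r → L)
        (hc : LogBasis k w c),
        w (algebraMap E L u) * relS cP hc (fun j => algebraMap E L (s j)) ^ a *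
          (w (algebraMap P L J) *
            (w (algebraMap P L (jac hcP.tb z)) * ∏ j, w (algebraMap P L (cP j)))) ^ d ≤
          w (algebraMap E L t) ^ d := by
  classical
  -- the equivalence of the index types
  have hxP : IsTranscendenceBasis k (algebraMap V P ∘ x) := hx.algebraMap_comp
  have hdP : dimension k V = dimension k P := by
    have h1 := card_eq_of_isTranscendenceBasis hxP
    rwa [Fintype.card_fin] at h1
  have hιP : Fintype.card ι = dimension k P := card_eq_of_isTranscendenceBasis hz
  obtain ⟨ε⟩ : Nonempty (ι ≃ Fin (dimension k V)) :=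
    ⟨Fintype.equivFinOfCardEq (hιP.trans hdP.symm)⟩
  have hx' : IsTranscendenceBasis k (fun i => algebraMap V P (x (ε i))) :=
    (isTranscendenceBasis_equiv ε (f := fun i => algebraMap V P (x i))).mpr hxP
  have hdE : dimension k V + r = dimension k E := by
    have h1 := card_eq_of_isTranscendenceBasis (hx.sumElim_comp hs)
    rw [Fintype.card_sum, Fintype.card_fin, Fintype.card_fin] at h1
    omega
  obtain ⟨J, hJ0, hJ⟩ : ∃ J : P, J ≠ 0 ∧ jac hz (fun i => algebraMap V P (x (ε i))) = J :=
    ⟨_, jac_ne_zero hx' hz, rfl⟩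
  refine ⟨J, hJ0, ?_⟩
  intro w hdiv t ht hnt cP hcP c hc
  haveI : Algebra.EssFiniteType k L := Algebra.EssFiniteType.comp k E L
  -- nontriviality on `V`
  have hntV : ∃ a : V, a ≠ 0 ∧ (w.comap (algebraMap E L)) (algebraMap V E a) ≠ 1 := by
    by_contra hcon
    push Not at hcon
    obtain ⟨p, hp0, hp1⟩ := hnt
    have hpL : algebraMap P L p ≠ 0 := by simpa using hp0
    have hpV : IsIntegral V (algebraMap P L p) :=
      (Algebra.IsAlgebraic.isAlgebraic (R := V) p).isIntegral.algebraMap
    have htriv : ∀ b : V, b ≠ 0 → w (algebraMap V L b) = 1 := by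
      intro b hb
      have h1 := hcon b hb
      rwa [Valuation.comap_apply, ← IsScalarTower.algebraMap_apply] at h1
    exact hp1 (val_eq_one_of_isIntegral htriv hpL hpV)
  obtain ⟨cV, y, tV, hcV, hcE⟩ := exists_adapted_ext (r := r) hdE hdiv hntV
  have hlogV := hcV.logBasis (Fintype.card_fin _)
  have hlogE := hcE.logBasis (by
    rw [Fintype.card_sum, Fintype.card_fin, Fintype.card_fin, hdE])
  have hmain := hbd _ hdiv hntV t ht cV hlogV _ hlogE
  -- the logarithmic basis of `P`
  have hcomap : (w.comap (algebraMap E L)).comap (algebraMap V E) =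
      (w.comap (algebraMap P L)).comap (algebraMap V P) := by
    ext a
    simp only [Valuation.comap_apply, ← IsScalarTower.algebraMap_apply]
  have hcVP : Adapted k (w.comap (algebraMap P L)) (fun i => algebraMap V P (cV (ε i)))
      (algebraMap V P tV) := by
    have h1 : Adapted k ((w.comap (algebraMap P L)).comap (algebraMap V P)) cV tV := hcomap ▸ hcV
    exact adapted_equiv h1.map ε (fun _ => rfl)
  have hlogP := hcVP.logBasis hιP
  -- the logarithmic basis of `L`
  have hcL : Adapted k w (Sum.elim (fun i => algebraMap P L (algebraMap V P (cV (ε i))))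
      (fun j => algebraMap E L (y j))) (algebraMap E L (algebraMap V E tV)) := by
    have h1 : Adapted k w (fun q => algebraMap E L
        (Sum.elim (fun i => algebraMap V E (cV i)) y q)) (algebraMap E L (algebraMap V E tV)) :=
      hcE.map
    refine adapted_equiv h1 (Equiv.sumCongr ε (Equiv.refl (Fin r))) ?_
    rintro (i | j)
    · simp only [Sum.elim_inl, Equiv.sumCongr_apply, Sum.map_inl,
        ← IsScalarTower.algebraMap_apply]
    · rfl
  have hlogL := hcL.logBasis (card_eq_of_isTranscendenceBasis hc.tb)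
  -- (1)
  have hz' : IsTranscendenceBasis k
      (Sum.elim (fun i => algebraMap P L (cP i)) (fun j => algebraMap E L (s j))) := by
    have h1 : IsTranscendenceBasis V (algebraMap E L ∘ s) := hs.algebraMap_comp
    have h2 : IsTranscendenceBasis P (algebraMap E L ∘ s) :=
      (Algebra.IsAlgebraic.isTranscendenceBasis_iff (R := V) (S := P)).mp h1
    exact swap_tb (hcP.tb.sumElim_comp h2)
  have hrel : relS cP hc (fun j => algebraMap E L (s j)) = relS cV hlogE s := by
    rw [relS_eq hcP hlogP hc hlogL hz', relS, relS]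
    rw [jac_lift (Equiv.sumCongr ε (Equiv.refl (Fin r))) hlogE.tb hlogL.tb (by
      rintro (i | j)
      · simp only [Sum.elim_inl, Equiv.sumCongr_apply, Sum.map_inl,
          ← IsScalarTower.algebraMap_apply]
      · rfl) (Sum.elim (fun i => algebraMap V E (cV i)) s) _ (by
      rintro (i | j)
      · simp only [Sum.elim_inl, Equiv.sumCongr_apply, Sum.map_inl,
          ← IsScalarTower.algebraMap_apply]
      · rfl)]
    have h1 : ∏ j, w (Sum.elim (fun i => algebraMap P L (algebraMap V P (cV (ε i))))
        (fun j => algebraMap E L (y j)) j) = ∏ j, (w.comap (algebraMap E L))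
          (Sum.elim (fun i => algebraMap V E (cV i)) y j) := by
      rw [← Equiv.prod_comp (Equiv.sumCongr ε (Equiv.refl (Fin r)))]
      refine Finset.prod_congr rfl ?_
      rintro (i | j) -
      · simp only [Sum.elim_inl, Equiv.sumCongr_apply, Sum.map_inl, Valuation.comap_apply,
          ← IsScalarTower.algebraMap_apply]
      · rfl
    have h2 : ∏ j, w (algebraMap P L (algebraMap V P (cV (ε j)))) =
        ∏ j, (w.comap (algebraMap E L)) (algebraMap V E (cV j)) := by
      rw [← Equiv.prod_comp ε]
      refine Finset.prod_congr rfl fun i _ => ?_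
      simp only [Valuation.comap_apply, ← IsScalarTower.algebraMap_apply]
    rw [h1, h2, Valuation.comap_apply]
  -- (2)
  have hvol : w (algebraMap P L J) *
      (w (algebraMap P L (jac hcP.tb z)) * ∏ j, w (algebraMap P L (cP j))) =
      (w.comap (algebraMap E L)) (algebraMap V E (jac hlogV.tb x)) *
        ∏ j, (w.comap (algebraMap E L)) (algebraMap V E (cV j)) := by
    have h1 := LogBasis.vol_eq hcP hlogP (fun i => algebraMap V P (x (ε i)))
    rw [jac_chain hz hcP.tb, hJ, jac_lift ε hlogV.tb hlogP.tb (fun _ => rfl) x _ (fun _ => rfl),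
      map_mul] at h1
    simp only [Valuation.comap_apply] at h1
    have h2 : ∏ j, w (algebraMap P L (algebraMap V P (cV (ε j)))) =
        ∏ j, (w.comap (algebraMap E L)) (algebraMap V E (cV j)) := by
      rw [← Equiv.prod_comp ε]
      refine Finset.prod_congr rfl fun i _ => ?_
      simp only [Valuation.comap_apply, ← IsScalarTower.algebraMap_apply]
    rw [h2] at h1
    rw [Valuation.comap_apply, ← IsScalarTower.algebraMap_apply V E L,
      IsScalarTower.algebraMap_apply V P L, ← h1]
    simp only [mul_comm, mul_assoc]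
  rw [hrel, hvol]
  exact hmain

end Pf72953.Pow
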