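import Mathlib
import Pool.Agent.Lib.Pf72953c.LocalN
import Pool.Agent.Lib.Pf72953c.MemC
import Pool.Agent.Lib.Pf72953p.QEqP

/-!
MODULE Pf72953p.LocP: the local bounds for the restriction `h` to the diagonal at the prime divisors of `M` over `B`.

`κ ⊆ P` is algebraic over `B`.
PROOF (compare `local_boundC`, `local_boundN` and, for the comparison of the norms, the step `hgood` of `mem_relGood`, Pf72953c/MemC.lean).
(1) `T` is divisorial on `P/k` (`Up.IsDivisorial.under`), trivial on `B` (`hT.const`), and `Br.PrimeAt M B Z i T`: `center` by `hTA` (`algebraMap Y P f ∈ bc κ P (M.A i)` for `f ∈ M.A i`: `Algebra.subset_adjoin ⟨f, hf, rfl⟩`), `der` as in `local_boundN` (with `K := P`).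
(2) `hgen i T` gives `w` on `L`, divisorial over `k`, with `w p ≤ 1 ↔ T p ≤ 1` on `P`, and `dd` regular derivations over `B` with `1 ≤ w (gen * G * vol i s dd ^ e)`.  It suffices to show
`w (h * jac ^ d) ≤ w (gen) ^ a` (apply the equivalence to the quotient `h * jac ^ d / gen ^ a ∈ P`; `gen ≠ 0`).
(3) `w` is trivial on `B`, not trivial on `P` (`T` is not trivial).  `basesC` gives the dimensions and transcendence bases.  `w` is divisorial on `E/k` after restriction (`w` is not trivial on `E`: `val_eq_one_of_isIntegral`; `IsDivisorial.restrict`); `tE` a uniformizer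
(`exists_unif`).  `cP` a log basis of `P`, `c₂` of `L`, as in `mem_relGood`; `ρ = relS cP hc₂ s`, `μ = relvol M i x hcP`, `σ = w G * ρ ^ e`, `J = w (jac (M.tb i) y)`.
`hpow w .. tE .. cP .. c₂ ..` and `qeq` (QEqP.lean; `x` is a log basis of `B` for the trivial valuation, `jac_self`, `∏ w x = 1`; `LogBasis.vol_eq` if another log basis is used) give `w h * σ ^ a * (μ * J) ^ d ≤ w (tE) ^ d`.
(4) Let `(c', t')` be adapted over `B` to `w`, `t'` a uniformizer of `w` on `L` (`IsDivisorial.over`, `exists_adapted`), `hreg' : RegBasis B w c'`.  `w (vol i s dd) ≤ w (jac hreg'.tb (x_i, s)) =: J₃`: `vol` is the product of `det (dd_a c'_b)`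
(value `≤ 1`) and of the Jacobian determinant (`Matrix.det_mul`, `der_eq_sum`; see `local_boundC`).  So `1 ≤ w gen * w G * J₃ ^ e`.  `(x, c')` is adapted over `k` with `t'` (`Fib.Adapted_rel`), so `relS x .. (x_i, s) = J₃ * w t'` (`vol_eq`, `Adapted.prod`, `Fib.jac_rel`, `jac_self`) and
by `norm_eq` (Pf72953c/NormEq.lean, with `y := M.x i`, `jac_self`) `ρ * μ = J₃ * w t'`.
(5) `w (tE) ≤ w t'` (`t'` a uniformizer), `μ ≤ w t'` (`relvol_le_unif`, Pf72953e/SqE.lean, gives `t ∈ Z`, `w t < 1`, `μ ≤ w t ≤ w t'`).  Let `δ = e a - d`.  Multiply (3) by `μ ^ δ`: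
`w h * J ^ d * (w G) ^ a * (ρ μ) ^ (e a) ≤ w (tE) ^ d * μ ^ δ ≤ (w t') ^ (e a)`; the left hand side is `w h * J ^ d * (w G * J₃ ^ e) ^ a * (w t') ^ (e a)`.  Cancel `(w t') ^ (e a)` and multiply by `(w gen) ^ a`, `1 ≤ (w gen * (w G * J₃ ^ e)) ^ a`.
-/

set_option autoImplicit false
set_option linter.style.haveILetI false
set_option linter.unusedSectionVars false

open scoped WithZero
open Pf72953 Pf72953.Mov Pf72953.Up Pf72953.Ell Pf72953.Can

namespace Pf72953.Pow

variable {k B E Y Z P L : Type*} [Field k] [CharZero k] [IsAlgClosed k] [Field B] [Field E]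
  [Field Y] [Field Z] [Field P] [Field L]
  [Algebra k B] [Algebra k E] [Algebra k Y] [Algebra k Z] [Algebra k P] [Algebra k L]
  [Algebra B E] [Algebra B Z] [Algebra B P] [Algebra B L] [Algebra E L] [Algebra Y Z]
  [Algebra Y P] [Algebra Y L] [Algebra Z P] [Algebra Z L] [Algebra P L]
  [IsScalarTower k B E] [IsScalarTower k B Z] [IsScalarTower k B P] [IsScalarTower k B L]
  [IsScalarTower k E L] [IsScalarTower k Y Z] [IsScalarTower k Y P] [IsScalarTower k Y L]
  [IsScalarTower k Z P] [IsScalarTower k Z L] [IsScalarTower k P L] [IsScalarTower B E L]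
  [IsScalarTower B Z P] [IsScalarTower B Z L] [IsScalarTower B P L] [IsScalarTower Y Z P]
  [IsScalarTower Y Z L] [IsScalarTower Y P L] [IsScalarTower Z P L]
  [Algebra.EssFiniteType k B] [Algebra.EssFiniteType k Y] [Algebra.EssFiniteType k E]
  [FiniteDimensional E L] [FiniteDimensional Z P]
  {M : SmoothModel k Y} {A : LineBundle M}

private theorem arithP {X α ρ μ J τE τ' J₃ γ : ℤᵐ⁰} {e a d : ℕ} (hd : d ≤ e * a)
    (hA : X * (α * ρ ^ e) ^ a * (μ * J) ^ d ≤ τE ^ d)
    (hB : 1 ≤ γ * α * J₃ ^ e) (hC : ρ * μ = J₃ * τ') (hD : τE ≤ τ') (hD' : μ ≤ τ')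
    (hτ : τ' ≠ 0) : X * J ^ d ≤ γ ^ a := by
  obtain ⟨δ, hδ⟩ := Nat.exists_eq_add_of_le hd
  have h1 : X * (α * J₃ ^ e) ^ a * J ^ d * τ' ^ (e * a) ≤ 1 * τ' ^ (e * a) := by
    calc X * (α * J₃ ^ e) ^ a * J ^ d * τ' ^ (e * a)
        = X * α ^ a * (J₃ * τ') ^ (e * a) * J ^ d := by
          rw [mul_pow α, mul_pow J₃, ← pow_mul]
          generalize τ' ^ (e * a) = p1
          generalize J₃ ^ (e * a) = p2
          generalize α ^ a = p3
          generalize J ^ d = p4
          simp only [mul_comm, mul_left_comm]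
      _ = X * α ^ a * (ρ * μ) ^ (e * a) * J ^ d := by rw [hC]
      _ = X * (α * ρ ^ e) ^ a * (μ * J) ^ d * μ ^ δ := by
          have h3 : μ ^ (e * a) = μ ^ d * μ ^ δ := by rw [← pow_add, ← hδ]
          rw [mul_pow α, mul_pow ρ, mul_pow μ J, ← pow_mul, h3]
          generalize ρ ^ (e * a) = p1
          generalize μ ^ d = p2
          generalize μ ^ δ = p3
          generalize α ^ a = p4
          generalize J ^ d = p5
          simp only [mul_comm, mul_left_comm]
      _ ≤ τE ^ d * μ ^ δ := mul_le_mul' hA le_rfl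
      _ ≤ τ' ^ d * τ' ^ δ := mul_le_mul' (pow_le_pow_left' hD d) (pow_le_pow_left' hD' δ)
      _ = 1 * τ' ^ (e * a) := by rw [← pow_add, ← hδ, one_mul]
  have h2 : X * (α * J₃ ^ e) ^ a * J ^ d ≤ 1 :=
    le_of_mul_le_mul_right h1 (pow_pos (zero_lt_iff.mpr hτ) _)
  calc X * J ^ d ≤ X * J ^ d * (γ * α * J₃ ^ e) ^ a :=
        le_mul_of_one_le_right' (one_le_pow_of_one_le' hB a)
    _ = γ ^ a * (X * (α * J₃ ^ e) ^ a * J ^ d) := by
        rw [mul_assoc γ, mul_pow γ]
        generalize (α * J₃ ^ e) ^ a = p1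
        generalize J ^ d = p2
        generalize γ ^ a = p3
        simp only [mul_comm, mul_left_comm]
    _ ≤ γ ^ a * 1 := mul_le_mul' le_rfl h2
    _ = γ ^ a := mul_one _

theorem loc_of_pow {κ : Type*} [Field κ] [Algebra k κ] [Algebra B κ] [Algebra κ P]
    [CharZero κ] [IsScalarTower k κ P] [IsScalarTower k B κ] [IsScalarTower B κ P]
    [Algebra.IsAlgebraic B κ] {r : ℕ} (hcomp : Twr.IsCompositum k B Y Z)
    (hdim : dimension k B + dimension k Y + r = dimension k E) {s : Fin r → L}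
    (hs : IsTranscendenceBasis Z s) {e : ℕ} {G : L} (hG : G ≠ 0)
    (hgen : GeneratedOver k B Z P A s e G) {x : Fin (dimension k B) → B}
    (hx : IsTranscendenceBasis k x) {y : Fin (dimension k Y) → Y}
    (hy : IsTranscendenceBasis k y) {a d : ℕ} (hd : d ≤ e * a) {h : P}
    (hpow : PowBd k E s e G
      (Sum.elim (fun j => algebraMap B P (x j)) (fun j => algebraMap Y P (y j))) a d h)
    {T : Valuation P ℤᵐ⁰} (hT : IsDivisorial κ P T) {i : M.I}
    (hTx : RegBasis κ T (fun b => algebraMap Y P (M.x i b)))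
    (hTA : ∀ f ∈ bc κ P (M.A i), T f ≤ 1) :
    T (h * algebraMap Y P (jac (M.tb i) y) ^ d) ≤ T (algebraMap Y P (A.gen i)) ^ a := by
  classical
  haveI : CharZero B := charZero_of_injective_algebraMap (algebraMap k B).injective
  haveI : CharZero Z := charZero_of_injective_algebraMap (algebraMap k Z).injective
  haveI : CharZero P := charZero_of_injective_algebraMap (algebraMap k P).injective
  haveI : CharZero L := charZero_of_injective_algebraMap (algebraMap k L).injective
  haveI : Algebra.EssFiniteType k L := Algebra.EssFiniteType.comp k E L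
  haveI : Algebra.EssFiniteType k Z := essFinite_Z hcomp
  haveI : Algebra.EssFiniteType k P := Algebra.EssFiniteType.comp k Z P
  haveI : Algebra.EssFiniteType B P := Algebra.EssFiniteType.of_comp k B P
  haveI : Algebra.EssFiniteType B L := Algebra.EssFiniteType.of_comp k B L
  haveI : Algebra.EssFiniteType κ P := Algebra.EssFiniteType.of_comp k κ P
  obtain ⟨hZdim, hPdim, hLdim, hZ, hZP, hPL, hBYL⟩ := basesC (P := P) (E := E) hcomp hdim hs
  obtain ⟨hyB, hξB⟩ := basesB hcomp hdim hs (M.tb i)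
  have hTk : IsDivisorial k P T := Up.IsDivisorial.under (κ := κ) hT
  have hTB : ∀ c : B, c ≠ 0 → T (algebraMap B P c) = 1 := by
    intro c hc
    rw [IsScalarTower.algebraMap_apply B κ P]
    exact hT.const _ (by simpa using hc)
  have hprime : Br.PrimeAt M B Z i T := by
    refine ⟨fun f hf => hTA _ (Algebra.subset_adjoin ⟨f, hf, rfl⟩), fun d hd z hz => ?_⟩
    rw [der_eq_sum hyB d z, map_sum (algebraMap Z P)]
    refine Valuation.map_sum_le _ fun b _ => ?_
    rw [map_mul, map_mul]
    refine mul_le_one' ?_ (hd b)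
    have hxK' : IsTranscendenceBasis κ
        (fun a => algebraMap Z P (algebraMap Y Z (M.x i a))) := by
      have h1 := hTx.tb
      simp only [IsScalarTower.algebraMap_apply Y Z P] at h1
      exact h1
    have h2 := pd_base hyB hxK' b z
    rw [← h2]
    have h3 : ∀ (z' z'' : Fin (dimension k Y) → P) (hz1 : IsTranscendenceBasis κ z')
        (hz2 : IsTranscendenceBasis κ z''), z' = z'' → ∀ b a, pd hz1 b a = pd hz2 b a := by
      rintro z' z'' hz1 hz2 rfl b a
      rfl
    rw [h3 _ _ hxK' hTx.tb (by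
      funext a
      rw [← IsScalarTower.algebraMap_apply Y Z P]) b]
    exact hTx.der b _ hz
  -- the valuation of `L`
  have hgP : algebraMap Y P (A.gen i) ≠ 0 := by simpa using A.ne i
  obtain ⟨w, hw, hwT, dd, hdd, hdet⟩ := hgen i T hTk hTB hprime
  have hwT1 : ∀ p : P, w (algebraMap P L p) = 1 ↔ T p = 1 := by
    have := (Valuation.isEquiv_iff_val_le_one (v := w.comap (algebraMap P L))
      (v' := T)).mpr (fun {p} => hwT p)
    intro p
    exact (Valuation.isEquiv_iff_val_eq_one.mp this)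
  have hwB : ∀ c : B, c ≠ 0 → w (algebraMap B L c) = 1 := by
    intro c hc
    rw [IsScalarTower.algebraMap_apply B P L]
    exact (hwT1 _).mpr (hTB c hc)
  have hwA : ∀ f ∈ M.A i, w (algebraMap Y L f) ≤ 1 := by
    intro f hf
    rw [IsScalarTower.algebraMap_apply Y P L]
    exact (hwT _).mpr (hprime.center f hf)
  obtain ⟨p₀, hp₀, hTp₀⟩ := hTk.nontrivial
  have hwp₀ : w (algebraMap P L p₀) ≠ 1 := fun h => hTp₀ ((hwT1 p₀).mp h)
  have hntP : ∃ p : P, p ≠ 0 ∧ w (algebraMap P L p) ≠ 1 := ⟨p₀, hp₀, hwp₀⟩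
  have hntZ : ∃ z : Z, z ≠ 0 ∧ w (algebraMap Z L z) ≠ 1 := by
    by_contra hcon
    push Not at hcon
    refine hwp₀ ?_
    have h1 : (w.comap (algebraMap P L)) p₀ = 1 :=
      val_eq_one_of_isIntegral (B := Z) (fun b hb => by
        rw [Valuation.comap_apply, ← IsScalarTower.algebraMap_apply Z P L]
        exact hcon b hb) hp₀ (Algebra.IsIntegral.isIntegral p₀)
    exact h1
  have hntE : ∃ z : E, z ≠ 0 ∧ w (algebraMap E L z) ≠ 1 := by
    by_contra hcon
    push Not at hcon
    exact hwp₀ (val_eq_one_of_isIntegral (B := E) hcon (by simpa using hp₀)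
      (Algebra.IsIntegral.isIntegral _))
  have hvE : IsDivisorial k E (w.comap (algebraMap E L)) := hw.restrict hntE
  obtain ⟨tE, htE⟩ := exists_unif (w.comap (algebraMap E L)) hntE
  -- log bases of `P` and of `L`
  have hcardP : Fintype.card (Fin (dimension k B) ⊕ Fin (dimension k Y)) = dimension k P := by
    rw [hPdim, hZdim]; simp
  obtain ⟨cP, tP, htP, hcP'⟩ := (hw.restrict hntP).exists_adapted hcardP
  have hcP : LogBasis k (w.comap (algebraMap P L)) cP := hcP'.logBasis hcardP
  have hzP := hPL hcP.tb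
  have hcard₂ : Fintype.card ((Fin (dimension k B) ⊕ Fin (dimension k Y)) ⊕ Fin r) =
      dimension k L := card_eq_of_isTranscendenceBasis hzP
  obtain ⟨c₂, t₂, ht₂, hc₂'⟩ := hw.exists_adapted hcard₂
  have hc₂ : LogBasis k w c₂ := hc₂'.logBasis hcard₂
  have hpw := hpow w hvE tE htE hntP cP hcP c₂ hc₂
  have hq := qeq (i := i) hx (hZP hx (M.tb i)) hcP x y
  simp only [Valuation.comap_apply, ← IsScalarTower.algebraMap_apply B P L,
    ← IsScalarTower.algebraMap_apply Y P L] at hq
  have hprodB : ∏ j, w (algebraMap B L (x j)) = 1 :=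
    Finset.prod_eq_one fun j _ => hwB _ (hx.1.ne_zero j)
  rw [jac_self, map_one, map_one, hprodB, one_mul, one_mul] at hq
  rw [hq] at hpw
  -- the adapted basis over `B`
  have hwBdiv : IsDivisorial B L w := IsDivisorial.over hw hwB
  have hcardL : Fintype.card (Fin (dimension k Y) ⊕ Fin r) = dimension B L :=
    card_eq_of_isTranscendenceBasis hξB
  obtain ⟨c', t', ht', hc'⟩ := hwBdiv.exists_adapted hcardL
  have hreg' := hc'.regBasis hcardL ht'
  have h4 : w (vol i s dd) ≤
      w (jac hreg'.tb (Sum.elim (fun c => algebraMap Y L (M.x i c)) s)) :=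
    det_regDer_le hreg' dd hdd (Sum.elim (fun c => algebraMap Y L (M.x i c)) s)
  have hB : 1 ≤ w (algebraMap Y L (A.gen i)) * w G *
      w (jac hreg'.tb (Sum.elim (fun c => algebraMap Y L (M.x i c)) s)) ^ e := by
    refine hdet.trans ?_
    rw [map_mul, map_mul, map_pow]
    exact mul_le_mul' le_rfl (pow_le_pow_left' h4 e)
  -- the comparison of the norms
  have hck := Fib.Adapted_rel (k := k) hx.1 hc'
  have hcardk : Fintype.card (Fin (dimension k B) ⊕ (Fin (dimension k Y) ⊕ Fin r)) =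
      dimension k L := card_eq_of_isTranscendenceBasis (hBYL hx (M.tb i))
  have hlog₃ := hck.logBasis hcardk
  have hprod := hck.prod
  have h2 : jac hlog₃.tb (Sum.elim (fun a => algebraMap B L (x a))
      (Sum.elim (fun c => algebraMap Y L (M.x i c)) s)) =
      jac hreg'.tb (Sum.elim (fun c => algebraMap Y L (M.x i c)) s) := by
    rw [Fib.jac_rel hx hreg'.tb hlog₃.tb x _, jac_self, map_one, one_mul]
  have h3 : relS x hlog₃ (Sum.elim (fun c => algebraMap Y L (M.x i c)) s) =
      w (jac hreg'.tb (Sum.elim (fun c => algebraMap Y L (M.x i c)) s)) * w t' := by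
    rw [relS, h2, hprod, hprodB, inv_one, mul_one]
  have hC := norm_eq (P := P) hx (hZP hx (M.tb i)) hcP hlog₃ hc₂ hzP (M.x i)
  rw [jac_self, map_one, map_one, mul_one, h3] at hC
  obtain ⟨tZ, htZ0, htZ1, htZ⟩ := relvol_le_unif hZ hw hwB hntZ hwA hx hcP
  have hD' : relvol M i x hcP ≤ w t' := htZ.trans (ht'.le _ htZ1)
  have hD : w (algebraMap E L tE) ≤ w t' := ht'.le _ htE.lt_one
  have ht'0 : w t' ≠ 0 := (Valuation.ne_zero_iff _).mpr ht'.ne_zero
  have h9 : w (algebraMap P L h) * w (algebraMap Y L (jac (M.tb i) y)) ^ d ≤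
      w (algebraMap Y L (A.gen i)) ^ a :=
    arithP hd hpw hB hC.symm hD hD' ht'0
  -- back to `T`
  have h10 : w (algebraMap P L ((h * algebraMap Y P (jac (M.tb i) y) ^ d) /
      algebraMap Y P (A.gen i) ^ a)) ≤ 1 := by
    rw [map_div₀, map_div₀, map_pow,
      ← IsScalarTower.algebraMap_apply Y P L, map_pow, map_mul, map_pow,
      ← IsScalarTower.algebraMap_apply Y P L, map_mul, map_pow]
    exact div_le_one_of_le₀ h9 zero_le
  have h11 := (hwT _).mp h10
  rw [map_div₀, map_pow] at h11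
  have h12 : 0 < T (algebraMap Y P (A.gen i)) ^ a :=
    pow_pos (zero_lt_iff.mpr ((Valuation.ne_zero_iff T).mpr hgP)) a
  rwa [div_le_one₀ h12] at h11

end Pf72953.Pow
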