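import Mathlib
import Pool.Agent.Lib.Pf72953c.LowerC
import Pool.Agent.Lib.Pf72953p.CoreP

/-!
MODULE Pf72953p.LowerP: the lower bound.

PROOF (compare `lowerC`, Pf72953c/LowerC.lean).
`adj_eq`: if `AdjKodairaGE M A e c` then `c ≤ dimension k Y` (`f` is algebraically independent over `k` in `Y`; `FinTrdeg k Y`); so as `relLog_eq` (or `Twr.logKodairaDim_eq`): the supremum is attained.
`lowerP`: `h1 : kodairaDim k B ≤ orbKodairaDim k B E` as there (`hc.orb`).  If `orbKodairaDim k B E ≠ ⊥`: `orbKodairaDim_eq` gives `a₁` with `OrbKodairaGE k B E a₁` and equality, `adj_eq` gives `b` (or the sum is `⊥`).  `OrbKodairaGE k B E a₁` is `m ≥ 1`, `ω ≠ 0` and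
`f : Fin a₁ → B` algebraically independent with `ω, f i • ω` orbifold forms: `orbRatios_coord hx` (for `f := 1`, if `a₁ = 0` one still needs a nonzero form: `1 ∈ orbRatios k B E` by the same `ω`) gives `m₁, h₀`, and for each `i` the condition of `coreP` for
`ξ i = algebraMap B P (f i)`, algebraically independent over `k` (`AlgebraicIndependent.map'`).  `coreP` gives `KodairaGE k E (a₁ + b)`.  `hM` gives `KodairaGE k Y 0` (`LowerCAux.kodairaGE_zero'`).
The inequality with `kodairaDim k B` follows from `h1` (if `orbKodairaDim k B E = ⊥` then `kodairaDim k B = ⊥`), as at the end of `lowerC`.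
-/

set_option autoImplicit false
set_option linter.style.haveILetI false
set_option linter.unusedSectionVars false

open scoped WithZero
open Pf72953 Pf72953.Var Pf72953.Mov Pf72953.Ell Pf72953.Can

namespace Pf72953.Pow

variable {k B E Y Z P L : Type*} [Field k] [CharZero k] [IsAlgClosed k] [Field B] [Field E]
  [Field Y] [Field Z] [Field P] [Field L]
  [Algebra k B] [Algebra k E] [Algebra k Y] [Algebra k Z] [Algebra k P] [Algebra k L]
  [Algebra B E] [Algebra B Z] [Algebra B P] [Algebra B L] [Algebra E L] [Algebra Y Z]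
  [Algebra Y P] [Algebra Y L] [Algebra Z P] [Algebra Z L] [Algebra P L]
  [IsScalarTower k B E] [IsScalarTower k B Z] [IsScalarTower k B P] [IsScalarTower k B L]
  [IsScalarTower k E L] [IsScalarTower k Y Z] [IsScalarTower k Y P] [IsScalarTower k Y L]
  [IsScalarTower k Z P] [IsScalarTower k Z L] [IsScalarTower k P L] [IsScalarTower B E L]
  [IsScalarTower B Z P] [IsScalarTower B Z L] [IsScalarTower B P L] [IsScalarTower Y Z P]
  [IsScalarTower Y Z L] [IsScalarTower Y P L] [IsScalarTower Z P L]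
  [Algebra.EssFiniteType k B] [Algebra.EssFiniteType k Y] [Algebra.EssFiniteType k E]
  [FiniteDimensional E L] [FiniteDimensional Z P]
  {M : SmoothModel k Y} {A : LineBundle M}

theorem adj_eq (M : SmoothModel k Y) (A : LineBundle M) (e : ℕ) :
    adjKodairaDim M A e = ⊥ ∨
      ∃ c : ℕ, AdjKodairaGE M A e c ∧ adjKodairaDim M A e = ((c : ℕ∞) : WithBot ℕ∞) := by
  classical
  have hbd : ∀ c, AdjKodairaGE M A e c → c ≤ dimension k Y := by
    rintro c ⟨m, -, ω, -, -, f, hf, -⟩
    have h1 := natCast_le_trdeg_of_le_dimension hf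
    rw [← trdeg_eq_dimension] at h1
    exact_mod_cast h1
  by_cases h : ∃ c, AdjKodairaGE M A e c
  · right
    obtain ⟨c₀, hc₀⟩ := h
    set c := Nat.findGreatest (fun c => AdjKodairaGE M A e c) (dimension k Y) with hc
    have hcGE : AdjKodairaGE M A e c := Nat.findGreatest_spec
      (P := fun c => AdjKodairaGE M A e c) (hbd c₀ hc₀) hc₀
    refine ⟨c, hcGE, le_antisymm ?_ ?_⟩
    · refine iSup₂_le fun d hd => ?_
      have : d ≤ c := Nat.le_findGreatest (hbd d hd) hd
      exact_mod_cast this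
    · exact le_iSup₂_of_le c hcGE le_rfl
  · left
    push Not at h
    rw [adjKodairaDim]
    exact le_antisymm (iSup₂_le fun c hc => absurd hc (h c)) bot_le

theorem lowerP {r : ℕ} (hcomp : Twr.IsCompositum k B Y Z)
    (hdim : dimension k B + dimension k Y + r = dimension k E) (hunr : Unramified k B E L)
    {s : Fin r → L} (hs : IsTranscendenceBasis Z s) {e : ℕ} {G : L} (hG : G ≠ 0)
    (hreg : RegularOver k B Z A s e G) {x : Fin (dimension k B) → B}
    (hx : IsTranscendenceBasis k x) {y : Fin (dimension k Y) → Y}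
    (hy : IsTranscendenceBasis k y) {a d δ : ℕ} (ha : 1 ≤ a) (hδ : 1 ≤ δ) (hea : e * a = d + δ)
    {h : P} (hh : h ≠ 0) (hpow : PowBd k E s e G
      (Sum.elim (fun j => algebraMap B P (x j)) (fun j => algebraMap Y P (y j))) a d h)
    {T : HSec M A y d a B P} (hT : T.sec = h) (hM : kodairaDim k Y ≠ ⊥) :
    kodairaDim k B + adjKodairaDim M A e ≤ kodairaDim k E ∧
      (orbKodairaDim k B E ≠ ⊥ →
        orbKodairaDim k B E + adjKodairaDim M A e ≤ kodairaDim k E) := by
  haveI : Algebra.EssFiniteType k Z := essFinite_Z hcomp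
  haveI : Algebra.EssFiniteType k P := Algebra.EssFiniteType.comp k Z P
  have h1 : kodairaDim k B ≤ orbKodairaDim k B E := by
    refine iSup₂_le fun c hc => ?_
    exact le_iSup₂_of_le c hc.orb le_rfl
  have main2 : orbKodairaDim k B E ≠ ⊥ →
      orbKodairaDim k B E + adjKodairaDim M A e ≤ kodairaDim k E := by
    intro hne
    rcases orbKodairaDim_eq (k := k) (B := B) (E := E) with hB | ⟨a₁, ha₁, ha₁'⟩
    · exact absurd hB hne
    rcases adj_eq M A e with hF | ⟨b, hb, hb'⟩
    · rw [hF]; simp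
    obtain ⟨m, hm, ω, hω, hωne, f, hf, hff⟩ := ha₁
    have hone : (1 : B) ∈ orbRatios k B E := ⟨m, hm, ω, hω, hωne, by
      rw [map_one, one_smul]
      exact hω⟩
    obtain ⟨m₁, hm₁, h₀, hh₀, hh₀ne, -⟩ := orbRatios_coord hx hone
    have hfP : AlgebraicIndependent k (fun i => algebraMap B P (f i)) :=
      hf.map' (f := IsScalarTower.toAlgHom k B P) (algebraMap B P).injective
    have h4 := coreP hcomp hdim hunr hs hG hreg hx hy ha hδ hea hh hpow hT
      (LowerCAux.kodairaGE_zero' hM) hm₁ hh₀ hh₀ne hfP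
      (fun i => Or.inl ⟨f i, rfl, orbRatios_coord hx ⟨m, hm, ω, hω, hωne, hff i⟩⟩) hb
    have h5 : ((((a₁ + b : ℕ) : ℕ∞)) : WithBot ℕ∞) ≤ kodairaDim k E :=
      le_iSup₂_of_le _ h4 le_rfl
    rw [ha₁', hb']
    refine le_trans (le_of_eq ?_) h5
    push_cast
    rfl
  refine ⟨?_, main2⟩
  by_cases hne : orbKodairaDim k B E = ⊥
  · have : kodairaDim k B = ⊥ := by
      rw [hne] at h1
      exact le_bot_iff.mp h1
    rw [this]
    simp
  · refine le_trans ?_ (main2 hne)
    gcongr

end Pf72953.Pow
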