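import Mathlib
import Pool.Agent.Lib.Pf72953c.RelS
import Pool.Agent.Lib.Pf72953p.LDefs

/-!
MODULE Pf72953p.PowL: a logarithmic form gives the bound `PowBd` with `d = 0`.

PROOF.  `LogForm` is `n ≥ 1`, `T ≠ 0` with `LogAt Z w s (e * n) (algebraMap P L T * G ^ n)` for all divisorial `w` of `L`.  In `PowBd` let `w, t, cP, hcP, c, hc` be given: `w` is divisorial over `k` (`IsDivisorial.of_comap`, `dimension k L = dimension k E`, see Pf72953c/BrkA.lean), `(cP, s)` is a transcendence basis of `L/k`
(`hcP.tb` and `hs`: e.g. `IsTranscendenceBasis.sumElim_comp` of Mathlib).  `relS_der hw hcP hc hz` (RelS.lean) gives logarithmic `d a : Derivation P L L` with `w (det (d_a (s b))) = relS cP hc s`; `(d a).restrictScalars Z`.  `LogAt` gives `w (T G^n det^(e n)) ≤ 1`, i.e. the claim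
(`pow_zero`, `mul_one`).
-/

set_option autoImplicit false
set_option linter.style.haveILetI false
set_option linter.unusedSectionVars false

open scoped WithZero
open Pf72953 Pf72953.Can

namespace Pf72953.Pow

theorem powBd_of_logForm {k E Z P L ι : Type*} [Field k] [CharZero k] [Field E] [Field Z]
    [Field P] [Field L] [Algebra k E] [Algebra k Z] [Algebra k P] [Algebra k L] [Algebra E L]
    [Algebra Z P] [Algebra Z L] [Algebra P L] [IsScalarTower k E L] [IsScalarTower k P L]
    [IsScalarTower Z P L] [Algebra.EssFiniteType k E] [Algebra.EssFiniteType k P]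
    [FiniteDimensional E L] [Fintype ι] [DecidableEq ι] {r : ℕ} {s : Fin r → L}
    (hs : IsTranscendenceBasis P s) {e : ℕ} {G : L} (h : LogForm k Z P s e G) {z : ι → P}
    (hz : IsTranscendenceBasis k z) :
    ∃ (n : ℕ) (T : P), 1 ≤ n ∧ T ≠ 0 ∧ PowBd k E s e G z n 0 T := by
  classical
  haveI : Algebra.EssFiniteType E L := inferInstance
  haveI : Algebra.EssFiniteType k L := Algebra.EssFiniteType.comp k E L
  have hdim : dimension k L = dimension k E := by
    obtain ⟨x, hx⟩ := exists_isTranscendenceBasis k E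
    haveI := finite_of_isTranscendenceBasis hx
    haveI := Fintype.ofFinite x
    have h1 := hx.algebraMap_comp (A := L)
    rw [← card_eq_of_isTranscendenceBasis h1, ← card_eq_of_isTranscendenceBasis hx]
  obtain ⟨n, T, hn, hT, hlog⟩ := h
  refine ⟨n, T, hn, hT, ?_⟩
  intro w hv t _ _ cP hcP c hc
  have hw : IsDivisorial k L w := IsDivisorial.of_comap hdim hv
  have htb : IsTranscendenceBasis k (Sum.elim (fun i => algebraMap P L (cP i)) s) := by
    have h1 := (isTranscendenceBasis_equiv (Equiv.sumComm ι (Fin r))).mpr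
      (hcP.tb.sumElim_comp hs)
    have h2 : (Sum.elim s (algebraMap P L ∘ cP)) ∘ (Equiv.sumComm ι (Fin r)) =
        Sum.elim (fun i => algebraMap P L (cP i)) s := by
      funext i
      rcases i with i | i <;> rfl
    rwa [h2] at h1
  obtain ⟨d, hd, hdet⟩ := relS_der hw hcP hc htb
  have h1 := hlog w hw (fun a => (d a).restrictScalars Z) (fun a y => hd a y)
  have h2 : (Matrix.of fun a b => ((d a).restrictScalars Z : Derivation Z L L) (s b)) =
      Matrix.of fun a b => d a (s b) := rfl
  rw [h2, map_mul, map_mul, map_pow, map_pow, hdet, pow_mul] at h1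
  rw [pow_zero, pow_zero, mul_one, mul_pow]
  calc w (algebraMap P L T) * (w G ^ n * (relS cP hc s ^ e) ^ n) =
      w (algebraMap P L T) * w G ^ n * (relS cP hc s ^ e) ^ n := by rw [mul_assoc]
    _ ≤ 1 := h1

end Pf72953.Pow
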