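import Mathlib
import Pool.Agent.Lib.Pf72953p.FormP
import Pool.Agent.Lib.Pf72953p.BoundP
import Pool.Agent.Lib.Pf72953p.LiftP
import Pool.Agent.Lib.Pf72953p.ConstP

/-!
The restriction to the diagonal of a form on the fibre power.
-/

set_option autoImplicit false
set_option linter.style.haveILetI false
set_option linter.unusedSectionVars false

open scoped WithZero
open Pf72953 Pf72953.Fib Pf72953.Can

namespace Pf72953.Pow

theorem PowPAux.alg {M : Type*} [CommMonoid M] (U R B q A G : M) (e a d : ℕ)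
    (h : U ^ e = A * G ^ a) :
    A * B ^ (e * d) * (G * R ^ e) ^ a * q ^ (e * d) = (U * R ^ a * (B * q) ^ d) ^ e := by
  rw [mul_pow (U * R ^ a), mul_pow U, h, mul_pow G, ← pow_mul, ← pow_mul, ← pow_mul, mul_pow B,
    mul_comm a e, mul_comm d e]
  ac_rfl

theorem exists_pow {k V E P L ι Q : Type*} [Field k] [CharZero k] [Field V] [Field E] [Field P]
    [Field L] [Field Q] [Algebra k V] [Algebra k E] [Algebra k P] [Algebra k L] [Algebra k Q]
    [Algebra V E] [Algebra V P] [Algebra V L] [Algebra V Q] [Algebra E L] [Algebra P L]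
    [IsScalarTower k V E] [IsScalarTower k V P] [IsScalarTower k V L] [IsScalarTower k V Q]
    [IsScalarTower k E L] [IsScalarTower k P L] [IsScalarTower V E L] [IsScalarTower V P L]
    [Algebra.EssFiniteType k V] [Algebra.EssFiniteType k E] [Algebra.EssFiniteType k P]
    [CharZero P] [FiniteDimensional E L] [Algebra.IsAlgebraic V P] [Fintype ι] [DecidableEq ι]
    (hV : ClosedIn V E) (hP : ClosedIn P L) (hκ : kodairaDim P L ≤ 0) {r : ℕ} {s : Fin r → E}
    (hs : IsTranscendenceBasis V s)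
    (hsL : IsTranscendenceBasis P (fun j => algebraMap E L (s j))) {e : ℕ} (he : 1 ≤ e) {G : L}
    (hG : G ≠ 0) (hGP : G ∈ WReg P (fun j => algebraMap E L (s j)) e) {ρ : ℕ} (hρ : 2 ≤ ρ)
    {i : Fin ρ → E →ₐ[V] Q} (hpow : IsFibrePower V E Q i) (hQ : TwKodairaGE k V Q (ρ - 1) 0)
    {z : ι → P} (hz : IsTranscendenceBasis k z) :
    ∃ (a d δ : ℕ) (h : P), 1 ≤ a ∧ 1 ≤ δ ∧ e * a = d + δ ∧ h ≠ 0 ∧
      PowBd k E (fun j => algebraMap E L (s j)) e G z a d h := by
  classical
  haveI : CharZero V := charZero_of_injective_algebraMap (algebraMap k V).injective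
  haveI : Algebra.EssFiniteType k L := Algebra.EssFiniteType.comp k E L
  haveI : Algebra.EssFiniteType V E := Algebra.EssFiniteType.of_comp k V E
  haveI : Algebra.EssFiniteType V L := Algebra.EssFiniteType.of_comp k V L
  have hκV : ¬ KodairaGE V E 1 := not_kod hκ hs hsL
  obtain ⟨m, n, x, b, g, hm, hn, hx, hb, hg, hgW, hf⟩ :=
    exists_form hV hκV (by omega : 1 ≤ ρ) hpow hQ hs
  obtain ⟨lam, hlam, hlamG⟩ := constP hP hκ hs hsL he hm hG hGP hgW hg
  obtain ⟨J, hJ, hJb⟩ := lift_bound (L := L) (E := E) hz hx hs (a := ρ * m) (d := m + n)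
    (u := algebraMap V E b * g ^ ρ) (fun v hv hnt t ht cV hcV c hc =>
      bound_form hV hx hs (by omega : 1 ≤ ρ) hpow hn.le hf hv hnt ht hcV hc)
  have hρm : m + n < ρ * m := by
    obtain ⟨ρ', rfl⟩ : ∃ ρ', ρ = ρ' + 1 := ⟨ρ - 1, by omega⟩
    rw [Nat.add_sub_cancel] at hn
    have : (ρ' + 1) * m = ρ' * m + m := by ring
    omega
  obtain ⟨δ, hδ⟩ : ∃ δ, ρ * m = m + n + δ := ⟨ρ * m - (m + n), by omega⟩
  have hδ1 : 1 ≤ δ := by omega
  refine ⟨ρ * m, e * (m + n), e * δ, algebraMap V P b ^ e * lam ^ ρ * J ^ (e * (m + n)),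
    Nat.mul_pos (by omega) hm, Nat.mul_pos he hδ1, by rw [hδ]; ring, ?_, ?_⟩
  · refine mul_ne_zero (mul_ne_zero (pow_ne_zero _ ?_) (pow_ne_zero _ hlam)) (pow_ne_zero _ hJ)
    simpa using hb
  intro w hw t ht hnt cP hcP c hc
  have h1 := hJb w hw t ht hnt cP hcP c hc
  have h2 : w (algebraMap E L (algebraMap V E b * g ^ ρ)) ^ e =
      w (algebraMap P L (algebraMap V P b ^ e * lam ^ ρ)) * w G ^ (ρ * m) := by
    rw [← map_pow w, ← map_pow w, ← map_mul w]
    congr 1
    rw [← map_pow, mul_pow, map_mul, map_pow (algebraMap E L) (algebraMap V E b),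
      ← IsScalarTower.algebraMap_apply V E L, ← pow_mul, mul_comm ρ e, pow_mul, map_pow (algebraMap E L)
      (g ^ e), map_pow (algebraMap E L) g, hlamG, map_mul, map_pow, map_pow,
      ← IsScalarTower.algebraMap_apply V P L, mul_pow, ← pow_mul, mul_comm m ρ]
    ring
  have h3 := pow_le_pow_left' h1 e
  have h4 : w (algebraMap P L (algebraMap V P b ^ e * lam ^ ρ * J ^ (e * (m + n)))) =
      w (algebraMap P L (algebraMap V P b ^ e * lam ^ ρ)) *
        w (algebraMap P L J) ^ (e * (m + n)) := by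
    rw [map_mul (algebraMap P L) _ (J ^ (e * (m + n))), map_mul w,
      map_pow (algebraMap P L) J, map_pow w]
  rw [h4, pow_mul' (w (algebraMap E L t)) e (m + n)]
  refine le_trans (le_of_eq ?_) h3
  exact PowPAux.alg _ _ _ _ _ _ _ _ _ h2

end Pf72953.Pow
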