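import Mathlib
import Pool.Agent.Lib.Pf72953c.UpperN
import Pool.Agent.Lib.Pf72953p.DescP
import Pool.Agent.Lib.Pf72953p.LocP

/-!
MODULE Pf72953p.SecP: the restriction `h` to the diagonal is a section `∑ c_l s_l` of `d K_M + a A` over `B`.

PROOF.  `κ = algebraicClosure B P`, `P = κ·Y` by `hconn`, and the algebra structures, as in UpperP.lean / `upperN_GE` (Pf72953c/UpperN.lean) with `K := P`; `hyK` there gives `htb`.  `h ∈ LocH κ A y d a` by `loc_of_pow` (LocP.lean); conclude by `exists_hsec` (DescP.lean).
`Nonempty M.I` as in `upperN_aux` (`M.cover` for the trivial valuation).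
-/

set_option autoImplicit false
set_option linter.style.haveILetI false
set_option linter.unusedSectionVars false

open scoped WithZero
open Pf72953 Pf72953.Mov Pf72953.Up Pf72953.Twr Pf72953.Ell Pf72953.Can

namespace Pf72953.Pow

variable {k B E Y Z P L : Type*} [Field k] [CharZero k] [IsAlgClosed k] [Field B] [Field E]
  [Field Y] [Field Z] [Field P] [Field L]
  [Algebra k B] [Algebra k E] [Algebra k Y] [Algebra k Z] [Algebra k P] [Algebra k L]
  [Algebra B E] [Algebra B Z] [Algebra B P] [Algebra B L] [Algebra E L] [Algebra Y Z]
  [Algebra Y P] [Algebra Y L] [Algebra Z P] [Algebra Z L] [Algebra P L]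
  [IsScalarTower k B E] [IsScalarTower k B Z] [IsScalarTower k B P] [IsScalarTower k B L]
  [IsScalarTower k E L] [IsScalarTower k Y Z] [IsScalarTower k Y P] [IsScalarTower k Y L]
  [IsScalarTower k Z P] [IsScalarTower k Z L] [IsScalarTower k P L] [IsScalarTower B E L]
  [IsScalarTower B Z P] [IsScalarTower B Z L] [IsScalarTower B P L] [IsScalarTower Y Z P]
  [IsScalarTower Y Z L] [IsScalarTower Y P L] [IsScalarTower Z P L]
  [Algebra.EssFiniteType k B] [Algebra.EssFiniteType k Y] [Algebra.EssFiniteType k E]
  [FiniteDimensional E L] [FiniteDimensional Z P]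
  {M : SmoothModel k Y} {A : LineBundle M}

namespace SecPAux

theorem aux {r : ℕ} (hcomp : Twr.IsCompositum k B Y Z)
    (hdim : dimension k B + dimension k Y + r = dimension k E)
    {s : Fin r → L} (hs : IsTranscendenceBasis Z s) {e : ℕ} {G : L} (hG : G ≠ 0)
    (hgen : GeneratedOver k B Z P A s e G)
    {x : Fin (dimension k B) → B} (hx : IsTranscendenceBasis k x)
    {y : Fin (dimension k Y) → Y} (hy : IsTranscendenceBasis k y) {a d : ℕ} (hd : d ≤ e * a)
    {h : P} (hpow : PowBd k E s e G
      (Sum.elim (fun j => algebraMap B P (x j)) (fun j => algebraMap Y P (y j))) a d h)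
    (κ : Type*) [Field κ] [Algebra B κ] [Algebra κ P] [IsScalarTower B κ P]
    [Algebra.IsAlgebraic B κ]
    (hgenK : ∀ z : P, z ∈ IntermediateField.adjoin κ (Set.range (algebraMap Y P))) :
    ∃ T : HSec M A y d a B P, T.sec = h := by
  classical
  letI : Algebra k κ := ((algebraMap B κ).comp (algebraMap k B)).toAlgebra
  haveI : IsScalarTower k B κ := IsScalarTower.of_algebraMap_eq fun _ => rfl
  haveI : IsScalarTower k κ P := IsScalarTower.of_algebraMap_eq fun c => by
    change _ = algebraMap κ P (algebraMap B κ (algebraMap k B c))
    rw [← IsScalarTower.algebraMap_apply B κ P, ← IsScalarTower.algebraMap_apply k B P]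
  haveI : CharZero B := charZero_of_injective_algebraMap (algebraMap k B).injective
  haveI : CharZero κ := charZero_of_injective_algebraMap (algebraMap B κ).injective
  haveI : Algebra.EssFiniteType k Z := essFinite_Z hcomp
  haveI : Algebra.EssFiniteType k P := Algebra.EssFiniteType.comp k Z P
  haveI : Algebra.EssFiniteType κ P := Algebra.EssFiniteType.of_comp k κ P
  haveI hMne : Nonempty M.I := by
    obtain ⟨i, -⟩ := M.cover 1 (fun c hc => Valuation.one_apply_of_ne_zero (by simpa using hc))
    exact ⟨i⟩
  obtain ⟨hdZ, hdP, hdL, -, -, -, -⟩ := basesC (P := P) hcomp hdim hs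
  have htb : ∀ y : Fin (dimension k Y) → Y, IsTranscendenceBasis k y →
      IsTranscendenceBasis κ (fun i => algebraMap Y P (y i)) := by
    intro y hy
    have hdimκ : dimension k κ = dimension k B := by
      have h1 : IsTranscendenceBasis k (algebraMap B κ ∘ x) := hx.algebraMap_comp
      have h2 := card_eq_of_isTranscendenceBasis h1
      rw [Fintype.card_fin] at h2
      exact h2.symm
    have halgP : ∀ c : P, IsAlgebraic (Algebra.adjoin k
        (Set.range (algebraMap κ P) ∪ Set.range (algebraMap Y P))) c := by
      intro c
      have hle : ∀ z : Z, algebraMap Z P z ∈ IntermediateField.adjoin k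
          (Set.range (algebraMap κ P) ∪ Set.range (algebraMap Y P)) := by
        intro z
        have h1 : IntermediateField.adjoin k
            (Set.range (algebraMap B Z) ∪ Set.range (algebraMap Y Z)) ≤
            (IntermediateField.adjoin k
              (Set.range (algebraMap κ P) ∪ Set.range (algebraMap Y P))).comap
              (IsScalarTower.toAlgHom k Z P) := by
          rw [IntermediateField.adjoin_le_iff]
          rintro _ (⟨b, rfl⟩ | ⟨b, rfl⟩)
          · refine IntermediateField.subset_adjoin k _ (Or.inl ⟨algebraMap B κ b, ?_⟩)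
            change _ = algebraMap Z P (algebraMap B Z b)
            rw [← IsScalarTower.algebraMap_apply B κ P, ← IsScalarTower.algebraMap_apply B Z P]
          · refine IntermediateField.subset_adjoin k _ (Or.inr ⟨b, ?_⟩)
            change _ = algebraMap Z P (algebraMap Y Z b)
            rw [← IsScalarTower.algebraMap_apply Y Z P]
        exact h1 (hcomp z)
      rw [← IntermediateField.isAlgebraic_adjoin_iff]
      letI : Algebra Z (IntermediateField.adjoin k
          (Set.range (algebraMap κ P) ∪ Set.range (algebraMap Y P))) :=
        ((algebraMap Z P).codRestrict (IntermediateField.adjoin k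
          (Set.range (algebraMap κ P) ∪ Set.range (algebraMap Y P))).toSubring
          (fun z => hle z)).toAlgebra
      haveI : IsScalarTower Z (IntermediateField.adjoin k
          (Set.range (algebraMap κ P) ∪ Set.range (algebraMap Y P))) P :=
        IsScalarTower.of_algebraMap_eq fun _ => rfl
      exact (Algebra.IsAlgebraic.isAlgebraic (R := Z) c).extendScalars
        (algebraMap Z (IntermediateField.adjoin k
          (Set.range (algebraMap κ P) ∪ Set.range (algebraMap Y P)))).injective
    exact Up.tb_over (by rw [hdimκ, hdP, hdZ]) halgP hy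
  exact exists_hsec (κ := κ) htb hgenK hy fun w hw i hwx hwA =>
    loc_of_pow (κ := κ) hcomp hdim hs hG hgen hx hy hd hpow hw hwx hwA

end SecPAux

theorem exists_sec_of_pow {r : ℕ} (hcomp : Twr.IsCompositum k B Y Z)
    (hdim : dimension k B + dimension k Y + r = dimension k E)
    {s : Fin r → L} (hs : IsTranscendenceBasis Z s) {e : ℕ} {G : L} (hG : G ≠ 0)
    (hgen : GeneratedOver k B Z P A s e G) (hconn : Connected k B Y Z P L)
    {x : Fin (dimension k B) → B} (hx : IsTranscendenceBasis k x)
    {y : Fin (dimension k Y) → Y} (hy : IsTranscendenceBasis k y) {a d : ℕ} (hd : d ≤ e * a)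
    {h : P} (hpow : PowBd k E s e G
      (Sum.elim (fun j => algebraMap B P (x j)) (fun j => algebraMap Y P (y j))) a d h) :
    ∃ T : HSec M A y d a B P, T.sec = h := by
  classical
  refine SecPAux.aux hcomp hdim hs hG hgen hx hy hd hpow (algebraicClosure B P) fun z => ?_
  obtain ⟨t, ht, htz⟩ := hconn (algebraMap P L z)
    ((Algebra.IsAlgebraic.isAlgebraic (R := Z) z).algebraMap)
  obtain rfl : t = z := (algebraMap P L).injective htz
  have h1 : IntermediateField.adjoin k ({p : P | IsAlgebraic B p} ∪
      Set.range (algebraMap Y P)) ≤ (IntermediateField.restrictScalars B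
        (IntermediateField.adjoin (algebraicClosure B P)
          (Set.range (algebraMap Y P)))).restrictScalars k := by
    rw [IntermediateField.adjoin_le_iff]
    rintro x (hx | hx)
    · exact (IntermediateField.adjoin (algebraicClosure B P)
        (Set.range (algebraMap Y P))).algebraMap_mem
        (⟨x, mem_algebraicClosure_iff.mpr hx⟩ : algebraicClosure B P)
    · exact IntermediateField.subset_adjoin (algebraicClosure B P) _ hx
  exact h1 ht

end Pf72953.Pow
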