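import Mathlib
import Pool.Agent.Lib.Pf72953c.UpperN
import Pool.Agent.Lib.Pf72953p.CountP

/-!
MODULE Pf72953p.UpperP: the upper bound `κ(F) ≤ κ(e K_M + A)`.

PROOF.  Adapt `upperN_aux`, `upperN_GE`, `upperN` (Pf72953c/UpperN.lean; copy them), with `K := P` and without `σ`, `τ`: `κ = algebraicClosure B P` (an `IntermediateField B P`), `P = κ·Y`: for `p ∈ P` the element `algebraMap P L p` is algebraic over `Z` (`P/Z` is finite), so by `hconn`
`p` lies in `adjoin k ({alg. over B} ∪ range Y) ⊆ κ·Y` (as `hKk` there).  `hP : ∀ z : L, IsAlgebraic Z z → ∃ t : P, algebraMap P L t = z` follows from `hconn`.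
`hdown`: for `Q ∈ WReg B (y, s) m`: `F : P` with `algebraMap P L F = Q ^ e / G ^ m` (`constC`), and `F ∈ LocH κ A y (e * m) m` by `local_boundN` (with `K := P`; `Valuation.comap` along `algebraMap P P = id`: `Algebra.algebraMap_self`, `Valuation.comap_id`).
Conclude by `countP` (CountP.lean).
-/

set_option autoImplicit false
set_option linter.style.haveILetI false
set_option linter.unusedSectionVars false

open scoped WithZero
open Pf72953 Pf72953.Mov Pf72953.Up Pf72953.Twr Pf72953.Ell Pf72953.Can

namespace Pf72953.Pow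

variable {k B E Y Z P L : Type*} [Field k] [CharZero k] [IsAlgClosed k] [Field B] [Field E]
  [Field Y] [Field Z] [Field P] [Field L]
  [Algebra k B] [Algebra k E] [Algebra k Y] [Algebra k Z] [Algebra k P] [Algebra k L]
  [Algebra B E] [Algebra B Z] [Algebra B P] [Algebra B L] [Algebra E L] [Algebra Y Z]
  [Algebra Y P] [Algebra Y L] [Algebra Z P] [Algebra Z L] [Algebra P L]
  [IsScalarTower k B E] [IsScalarTower k B Z] [IsScalarTower k B P] [IsScalarTower k B L]
  [IsScalarTower k E L] [IsScalarTower k Y Z] [IsScalarTower k Y P] [IsScalarTower k Y L]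
  [IsScalarTower k Z P] [IsScalarTower k Z L] [IsScalarTower k P L] [IsScalarTower B E L]
  [IsScalarTower B Z P] [IsScalarTower B Z L] [IsScalarTower B P L] [IsScalarTower Y Z P]
  [IsScalarTower Y Z L] [IsScalarTower Y P L] [IsScalarTower Z P L]
  [Algebra.EssFiniteType k B] [Algebra.EssFiniteType k Y] [Algebra.EssFiniteType k E]
  [FiniteDimensional E L] [FiniteDimensional Z P]
  {M : SmoothModel k Y} {A : LineBundle M}

private theorem upperP_aux {r : ℕ} (hcomp : Twr.IsCompositum k B Y Z)
    (hdim : dimension k B + dimension k Y + r = dimension k E)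
    {s : Fin r → L} (hs : IsTranscendenceBasis Z s) {e : ℕ} (he : 1 ≤ e) {G : L} (hG : G ≠ 0)
    (hX : RegOn k Z s e G) (hgen : GeneratedOver k B Z P A s e G)
    (hP : ∀ z : L, IsAlgebraic Z z → ∃ t : P, algebraMap P L t = z) (hκ : kodairaDim Z L ≤ 0)
    {c : ℕ} (hc : KodairaGE B E c)
    (κ : Type*) [Field κ] [Algebra B κ] [Algebra κ P] [IsScalarTower B κ P]
    [Algebra.IsAlgebraic B κ]
    (hgenP : ∀ z : P, z ∈ IntermediateField.adjoin κ (Set.range (algebraMap Y P))) :
    AdjKodairaGE M A e c := by
  classical
  letI : Algebra k κ := ((algebraMap B κ).comp (algebraMap k B)).toAlgebra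
  haveI : IsScalarTower k B κ := IsScalarTower.of_algebraMap_eq fun _ => rfl
  letI : Algebra κ L := ((algebraMap P L).comp (algebraMap κ P)).toAlgebra
  haveI : IsScalarTower κ P L := IsScalarTower.of_algebraMap_eq fun _ => rfl
  haveI : IsScalarTower k κ P := IsScalarTower.of_algebraMap_eq fun c => by
    change _ = algebraMap κ P (algebraMap B κ (algebraMap k B c))
    rw [← IsScalarTower.algebraMap_apply B κ P, ← IsScalarTower.algebraMap_apply k B P]
  haveI : IsScalarTower k κ L := IsScalarTower.of_algebraMap_eq fun c => by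
    rw [IsScalarTower.algebraMap_apply κ P L, ← IsScalarTower.algebraMap_apply k κ P,
      ← IsScalarTower.algebraMap_apply k P L]
  haveI : IsScalarTower B κ L := IsScalarTower.of_algebraMap_eq fun c => by
    rw [IsScalarTower.algebraMap_apply κ P L, ← IsScalarTower.algebraMap_apply B κ P,
      ← IsScalarTower.algebraMap_apply B P L]
  haveI : CharZero B := charZero_of_injective_algebraMap (algebraMap k B).injective
  haveI : CharZero Z := charZero_of_injective_algebraMap (algebraMap k Z).injective
  haveI : CharZero κ := charZero_of_injective_algebraMap (algebraMap B κ).injective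
  haveI : CharZero P := charZero_of_injective_algebraMap (algebraMap k P).injective
  haveI : Algebra.EssFiniteType k Z := essFinite_Z hcomp
  haveI : Algebra.EssFiniteType k P := Algebra.EssFiniteType.comp k Z P
  haveI : Algebra.EssFiniteType k L := Algebra.EssFiniteType.comp k E L
  haveI : Algebra.EssFiniteType B E := Algebra.EssFiniteType.of_comp k B E
  haveI : Algebra.EssFiniteType B L := Algebra.EssFiniteType.of_comp k B L
  haveI : Algebra.EssFiniteType B P := Algebra.EssFiniteType.of_comp k B P
  haveI : Algebra.EssFiniteType P L := Algebra.EssFiniteType.of_comp k P L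
  haveI hMne : Nonempty M.I := by
    obtain ⟨i, -⟩ := M.cover 1 (fun c hc => Valuation.one_apply_of_ne_zero (by simpa using hc))
    exact ⟨i⟩
  obtain ⟨hdZ, hdP, hdL, -, -, -, -⟩ := basesC (P := P) hcomp hdim hs
  -- transcendence bases
  have halgZ : ∀ a : Z, IsAlgebraic (Algebra.adjoin k
      (Set.range (algebraMap B Z) ∪ Set.range (algebraMap Y Z))) a := by
    intro a
    rw [← IntermediateField.isAlgebraic_adjoin_iff]
    exact isAlgebraic_algebraMap (⟨a, hcomp a⟩ : IntermediateField.adjoin k
      (Set.range (algebraMap B Z) ∪ Set.range (algebraMap Y Z)))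
  have hyZ : ∀ y : Fin (dimension k Y) → Y, IsTranscendenceBasis k y →
      IsTranscendenceBasis B (fun i => algebraMap Y Z (y i)) := fun y hy =>
    Up.tb_over hdZ.symm halgZ hy
  have hyBP : ∀ y : Fin (dimension k Y) → Y, IsTranscendenceBasis k y →
      IsTranscendenceBasis B (fun i => algebraMap Y P (y i)) := by
    intro y hy
    have h1 := (hyZ y hy).algebraMap_comp (A := P)
    refine (iff_of_eq (congrArg _ ?_)).mp h1
    funext i
    exact (IsScalarTower.algebraMap_apply Y Z P (y i)).symm
  have hyκ : ∀ y : Fin (dimension k Y) → Y, IsTranscendenceBasis k y →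
      IsTranscendenceBasis κ (fun i => algebraMap Y P (y i)) := by
    intro y hy
    obtain ⟨x, hx⟩ := exists_tb k B
    have hdimκ : dimension k κ = dimension k B := by
      have h1 : IsTranscendenceBasis k (algebraMap B κ ∘ x) := hx.algebraMap_comp
      have h2 := card_eq_of_isTranscendenceBasis h1
      rw [Fintype.card_fin] at h2
      exact h2.symm
    have halgP : ∀ c : P, IsAlgebraic (Algebra.adjoin k
        (Set.range (algebraMap κ P) ∪ Set.range (algebraMap Y P))) c := by
      intro c
      have hle : ∀ z : Z, algebraMap Z P z ∈ IntermediateField.adjoin k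
          (Set.range (algebraMap κ P) ∪ Set.range (algebraMap Y P)) := by
        intro z
        have h1 : IntermediateField.adjoin k
            (Set.range (algebraMap B Z) ∪ Set.range (algebraMap Y Z)) ≤
            (IntermediateField.adjoin k
              (Set.range (algebraMap κ P) ∪ Set.range (algebraMap Y P))).comap
              (IsScalarTower.toAlgHom k Z P) := by
          rw [IntermediateField.adjoin_le_iff]
          rintro _ (⟨b, rfl⟩ | ⟨b, rfl⟩)
          · refine IntermediateField.subset_adjoin k _ (Or.inl ⟨algebraMap B κ b, ?_⟩)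
            change _ = algebraMap Z P (algebraMap B Z b)
            rw [← IsScalarTower.algebraMap_apply B κ P, ← IsScalarTower.algebraMap_apply B Z P]
          · refine IntermediateField.subset_adjoin k _ (Or.inr ⟨b, ?_⟩)
            change _ = algebraMap Z P (algebraMap Y Z b)
            rw [← IsScalarTower.algebraMap_apply Y Z P]
        exact h1 (hcomp z)
      rw [← IntermediateField.isAlgebraic_adjoin_iff]
      letI : Algebra Z (IntermediateField.adjoin k
          (Set.range (algebraMap κ P) ∪ Set.range (algebraMap Y P))) :=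
        ((algebraMap Z P).codRestrict (IntermediateField.adjoin k
          (Set.range (algebraMap κ P) ∪ Set.range (algebraMap Y P))).toSubring
          (fun z => hle z)).toAlgebra
      haveI : IsScalarTower Z (IntermediateField.adjoin k
          (Set.range (algebraMap κ P) ∪ Set.range (algebraMap Y P))) P :=
        IsScalarTower.of_algebraMap_eq fun _ => rfl
      exact (Algebra.IsAlgebraic.isAlgebraic (R := Z) c).extendScalars
        (algebraMap Z (IntermediateField.adjoin k
          (Set.range (algebraMap κ P) ∪ Set.range (algebraMap Y P)))).injective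
    exact Up.tb_over (by rw [hdimκ, hdP, hdZ]) halgP hy
  have hyL : ∀ y : Fin (dimension k Y) → Y, IsTranscendenceBasis k y →
      IsTranscendenceBasis B (Sum.elim (fun i => algebraMap Y L (y i)) s) :=
    fun y hy => (basesB hcomp hdim hs hy).2
  obtain ⟨x, hx⟩ := exists_tb k B
  obtain ⟨y, hy⟩ := exists_tb k Y
  -- the forms
  obtain ⟨z, hz⟩ := exists_tb B E
  obtain ⟨m, hm, f₀, hf₀, hf₀ne, f, hf, hff⟩ := hc.exists_coord hz
  have hzL : IsTranscendenceBasis B (fun i => algebraMap E L (z i)) := hz.algebraMap_comp
  have hn : Fintype.card (Fin (dimension k Y) ⊕ Fin r) = dimension B E := by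
    have h1 := card_eq_of_isTranscendenceBasis hzL
    have h2 := card_eq_of_isTranscendenceBasis (hyL y hy)
    rw [Fintype.card_fin] at h1
    rw [h1, h2]
  let e' : Fin (dimension k Y) ⊕ Fin r ≃ Fin (dimension B E) := Fintype.equivFinOfCardEq hn
  have hzL' : IsTranscendenceBasis B ((fun i => algebraMap E L (z i)) ∘ e') :=
    (isTranscendenceBasis_equiv e').mpr hzL
  set j₀ : L := jac (hyL y hy) ((fun i => algebraMap E L (z i)) ∘ e') with hj₀
  have hj₀ne : j₀ ≠ 0 := jac_ne_zero hzL' (hyL y hy)
  have hpull : ∀ g ∈ WReg B z m, algebraMap E L g * j₀ ^ m ∈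
      WReg B (Sum.elim (fun i => algebraMap Y L (y i)) s) m := by
    intro g hg
    exact WReg.change hzL' (hyL y hy) (Pf72953.WReg.reindex (WReg.pull hz hg) e')
  have hdown : ∀ Q ∈ WReg B (Sum.elim (fun i => algebraMap Y L (y i)) s) m,
      ∃ F : P, algebraMap P L F = Q ^ e / G ^ m ∧ F ∈ LocH κ A y (e * m) m := by
    intro Q hQ
    have h2 : IsAlgebraic Z (Q ^ e / G ^ m) := constC hs hyZ he hG hX hκ hy hm hQ
    obtain ⟨F, hFL⟩ := hP _ h2
    refine ⟨F, hFL, fun v hv i hvx hvA => ?_⟩
    have hcomap : v.comap (algebraMap P P) = v := by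
      rw [Algebra.algebraMap_self, Valuation.comap_id]
    exact local_boundN (Z := Z) (κ := κ) (K := P) hG hgen hyZ hyκ hyL hy hQ hFL hv
      (by rw [hcomap]; exact hvx) hvA
  obtain ⟨F₀, hF₀, hF₀mem⟩ := hdown _ (hpull f₀ hf₀)
  have hf₀ne' : algebraMap E L f₀ ≠ 0 := by simpa using hf₀ne
  have hF₀ne : F₀ ≠ 0 := by
    rintro rfl
    rw [map_zero] at hF₀
    exact div_ne_zero (pow_ne_zero _ (mul_ne_zero hf₀ne' (pow_ne_zero _ hj₀ne)))
      (pow_ne_zero _ hG) hF₀.symm
  choose F hF hFmem using fun i => hdown _ (hpull _ (hff i))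
  have hratio : ∀ i, algebraMap P L (F i / F₀) = algebraMap E L (f i) ^ e := by
    intro i
    rw [map_div₀, hF, hF₀, map_mul]
    have h5 : (algebraMap E L f₀ * j₀ ^ m) ^ e / G ^ m ≠ 0 :=
      div_ne_zero (pow_ne_zero _ (mul_ne_zero hf₀ne' (pow_ne_zero _ hj₀ne))) (pow_ne_zero _ hG)
    rw [div_eq_iff h5, mul_assoc (algebraMap E L (f i)), mul_pow (algebraMap E L (f i)),
      mul_div_assoc]
  have hind : AlgebraicIndependent κ (fun i => F i / F₀) := by
    have h4 : AlgebraicIndependent B (fun i => algebraMap E L (f i)) :=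
      hf.map' (f := IsScalarTower.toAlgHom B E L) (algebraMap E L).injective
    have h4' := algebraicIndependent_pow h4 he
    refine AlgebraicIndependent.of_comp (IsScalarTower.toAlgHom κ P L) ?_
    have h5 : (⇑(IsScalarTower.toAlgHom κ P L) ∘ fun i => F i / F₀) =
        fun i => algebraMap E L (f i) ^ e := funext fun i => hratio i
    rw [h5]
    exact h4'.extendScalars κ
  haveI : Algebra.EssFiniteType κ P := Algebra.EssFiniteType.of_comp k κ P
  refine countP hyκ hgenP hy hm hF₀mem hF₀ne hind fun i => ?_
  rw [div_mul_cancel₀ _ hF₀ne]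
  exact hFmem i

theorem upperP {r : ℕ} (hcomp : Twr.IsCompositum k B Y Z)
    (hdim : dimension k B + dimension k Y + r = dimension k E)
    {s : Fin r → L} (hs : IsTranscendenceBasis Z s) {e : ℕ} (he : 1 ≤ e) {G : L} (hG : G ≠ 0)
    (hX : RegOn k Z s e G) (hgen : GeneratedOver k B Z P A s e G)
    (hconn : Connected k B Y Z P L) (hκ : kodairaDim Z L ≤ 0) :
    kodairaDim B E ≤ adjKodairaDim M A e := by
  have hP : ∀ z : L, IsAlgebraic Z z → ∃ t : P, algebraMap P L t = z := fun z hz => by
    obtain ⟨t, -, ht⟩ := hconn z hz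
    exact ⟨t, ht⟩
  have hgenP : ∀ z : P, z ∈ IntermediateField.adjoin (algebraicClosure B P)
      (Set.range (algebraMap Y P)) := by
    intro z
    have h0 : IsAlgebraic Z (algebraMap P L z) :=
      (Algebra.IsAlgebraic.isAlgebraic (R := Z) z).algebraMap
    obtain ⟨t, ht, htz⟩ := hconn _ h0
    have h2 : t = z := (algebraMap P L).injective htz
    rw [← h2]
    have h1 : IntermediateField.adjoin k ({p : P | IsAlgebraic B p} ∪
        Set.range (algebraMap Y P)) ≤ (IntermediateField.restrictScalars B
          (IntermediateField.adjoin (algebraicClosure B P)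
            (Set.range (algebraMap Y P)))).restrictScalars k := by
      rw [IntermediateField.adjoin_le_iff]
      rintro x (hx | hx)
      · exact (IntermediateField.adjoin (algebraicClosure B P)
            (Set.range (algebraMap Y P))).algebraMap_mem
            (⟨x, mem_algebraicClosure_iff.mpr hx⟩ : algebraicClosure B P)
      · exact IntermediateField.subset_adjoin (algebraicClosure B P) _ hx
    exact h1 ht
  exact iSup₂_le fun _ hc => le_iSup₂_of_le _
    (upperP_aux hcomp hdim hs he hG hX hgen hP hκ hc (algebraicClosure B P) hgenP) le_rfl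

end Pf72953.Pow
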