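import Mathlib
import Pool.Agent.Lib.Pf72953r.SubFG
import Pool.Agent.Lib.Pf72953p.PowP
import Pool.Agent.Lib.Pf72953p.PowL
import Pool.Agent.Lib.Pf72953p.RegOnP
import Pool.Agent.Lib.Pf72953p.SecP
import Pool.Agent.Lib.Pf72953p.LowerP
import Pool.Agent.Lib.Pf72953p.UpperP

/-!
One fibre power or a logarithmic form: the main theorem.
-/

set_option autoImplicit false
set_option linter.style.haveILetI false
set_option linter.unusedSectionVars false

open scoped WithZero
open Pf72953 Pf72953.Var Pf72953.Mov Pf72953.Ell Pf72953.Can Pf72953.Fib Pf72953.Red Pf72953.Up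

namespace Pf72953.Pow

universe u

variable {k B V E Y Z P L : Type u} [Field k] [CharZero k] [IsAlgClosed k] [Field B] [Field V]
  [Field E] [Field Y] [Field Z] [Field P] [Field L]
  [Algebra k B] [Algebra k V] [Algebra k E] [Algebra k Y] [Algebra k Z] [Algebra k P] [Algebra k L]
  [Algebra V E] [Algebra V P] [Algebra V L]
  [Algebra B E] [Algebra B Z] [Algebra B P] [Algebra B L] [Algebra E L] [Algebra Y Z]
  [Algebra Y P] [Algebra Y L] [Algebra Z P] [Algebra Z L] [Algebra P L]
  [IsScalarTower k V E] [IsScalarTower k V P] [IsScalarTower k V L] [IsScalarTower V E L]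
  [IsScalarTower V P L]
  [IsScalarTower k B E] [IsScalarTower k B Z] [IsScalarTower k B P] [IsScalarTower k B L]
  [IsScalarTower k E L] [IsScalarTower k Y Z] [IsScalarTower k Y P] [IsScalarTower k Y L]
  [IsScalarTower k Z P] [IsScalarTower k Z L] [IsScalarTower k P L] [IsScalarTower B E L]
  [IsScalarTower B Z P] [IsScalarTower B Z L] [IsScalarTower B P L] [IsScalarTower Y Z P]
  [IsScalarTower Y Z L] [IsScalarTower Y P L] [IsScalarTower Z P L]
  [Algebra.EssFiniteType k B] [Algebra.EssFiniteType k Y] [Algebra.EssFiniteType k E]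
  [FiniteDimensional E L] [FiniteDimensional Z P] [Algebra.IsAlgebraic V P]
  {M : SmoothModel k Y} {A : LineBundle M}

theorem mainL {r : ℕ} (hcomp : Twr.IsCompositum k B Y Z)
    (hdim : dimension k B + dimension k Y + r = dimension k E) (hunr : Unramified k B E L)
    (hM : kodairaDim k Y ≠ ⊥) (hconn : Connected k B Y Z P L) (hV : ClosedIn V E)
    (hκ : kodairaDim P L ≤ 0) {s : Fin r → E} (hs : IsTranscendenceBasis V s) {e : ℕ}
    (he : 1 ≤ e) {G : L} (hG : G ≠ 0)
    (hreg : RegularOver k B Z A (fun j => algebraMap E L (s j)) e G)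
    (hgen : GeneratedOver k B Z P A (fun j => algebraMap E L (s j)) e G) :
    kodairaDim B E ≤ adjKodairaDim M A e ∧
    (FibrePowerForm k V E ∨ LogForm k Z P (fun j => algebraMap E L (s j)) e G →
      kodairaDim k B + adjKodairaDim M A e ≤ kodairaDim k E ∧
      (orbKodairaDim k B E ≠ ⊥ →
        orbKodairaDim k B E + adjKodairaDim M A e ≤ kodairaDim k E)) := by
  classical
  haveI : CharZero B := charZero_of_injective_algebraMap (algebraMap k B).injective
  haveI : CharZero Z := charZero_of_injective_algebraMap (algebraMap k Z).injective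
  haveI : CharZero P := charZero_of_injective_algebraMap (algebraMap k P).injective
  haveI : CharZero V := charZero_of_injective_algebraMap (algebraMap k V).injective
  haveI : Algebra.EssFiniteType k Z := essFinite_Z hcomp
  haveI : Algebra.EssFiniteType k P := Algebra.EssFiniteType.comp k Z P
  haveI : Algebra.EssFiniteType k L := Algebra.EssFiniteType.comp k E L
  haveI : Algebra.EssFiniteType Z L := Algebra.EssFiniteType.of_comp k Z L
  haveI : Algebra.EssFiniteType k V := Red.essFiniteType_sub k V E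
  obtain ⟨hsP, hsZ⟩ := tb_alg (k := k) (Z := Z) (P := P) (L := L) hs
  obtain ⟨hdZ, hdP, hdL, hbZ, hbP, hbPL, hbL⟩ := basesC (P := P) hcomp hdim hsZ
  have hyZ : ∀ y : Fin (dimension k Y) → Y, IsTranscendenceBasis k y →
      IsTranscendenceBasis B (fun i => algebraMap Y Z (y i)) := by
    have halgZ : ∀ a : Z, IsAlgebraic (Algebra.adjoin k
        (Set.range (algebraMap B Z) ∪ Set.range (algebraMap Y Z))) a := by
      intro a
      rw [← IntermediateField.isAlgebraic_adjoin_iff]
      exact isAlgebraic_algebraMap (⟨a, hcomp a⟩ : IntermediateField.adjoin k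
        (Set.range (algebraMap B Z) ∪ Set.range (algebraMap Y Z)))
    exact fun y hy => Up.tb_over hdZ.symm halgZ hy
  have hGZ : G ∈ WReg Z (fun j => algebraMap E L (s j)) e := wreg_G hsZ hyZ hreg
  have hX : RegOn k Z (fun j => algebraMap E L (s j)) e G := regOn_of_wreg hsZ hGZ
  have hGP : G ∈ WReg P (fun j => algebraMap E L (s j)) e := WReg.base hsZ hGZ
  have hP : ClosedIn P L := by
    intro a ha
    have h1 : IsAlgebraic Z a := by
      haveI : Algebra.IsAlgebraic Z P := Algebra.IsAlgebraic.of_finite Z P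
      exact ha.restrictScalars Z
    obtain ⟨t, -, ht⟩ := hconn a h1
    exact ⟨t, ht⟩
  have hκZ : kodairaDim Z L ≤ 0 := kod_base.trans hκ
  obtain ⟨x, hx⟩ := exists_tb k B
  obtain ⟨y, hy⟩ := exists_tb k Y
  refine ⟨upperP hcomp hdim hsZ he hG hX hgen hconn hκZ, fun hnv => ?_⟩
  obtain ⟨a, d, δ, h, ha, hδ, hea, hh, hbd⟩ : ∃ (a d δ : ℕ) (h : P), 1 ≤ a ∧ 1 ≤ δ ∧
      e * a = d + δ ∧ h ≠ 0 ∧ PowBd k E (fun j => algebraMap E L (s j)) e G
        (Sum.elim (fun j => algebraMap B P (x j)) (fun j => algebraMap Y P (y j))) a d h := by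
    rcases hnv with ⟨ρ, Q, _, _, _, _, i, hρ, hpow, hQ⟩ | hlog
    · exact exists_pow hV hP hκ hs hsP he hG hGP hρ hpow hQ (hbP hx hy)
    · obtain ⟨n, T, hn, hT, hbd⟩ := powBd_of_logForm (E := E) hsP hlog (hbP hx hy)
      exact ⟨n, 0, e * n, T, hn, Nat.mul_pos he hn, by rw [zero_add], hT, hbd⟩
  obtain ⟨T, hT⟩ := exists_sec_of_pow hcomp hdim hsZ hG hgen hconn hx hy (by omega : d ≤ e * a)
    hbd
  exact lowerP hcomp hdim hunr hsZ hG hreg hx hy ha hδ hea hh hbd hT hM

end Pf72953.Pow
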